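import Pool.Agent.Helper60.GC9.ClaimT

/-!
# One-place criterion for big monodromy: definitions (project OP)
-/

set_option autoImplicit false

namespace Pool.Agent.Helper71.OP

open Function Pool.Agent.Helper48.GC8 Pool.Agent.Helper60.GC9
open scoped Kronecker

section Lie

variable {ι I : Type} [Fintype ι] [DecidableEq ι] [Fintype I] [DecidableEq I]

lemma der_add (R : Finset ι) (Y Z : Matrix I I ℂ) : der R (Y + Z) = der R Y + der R Z := by
  refine LinearMap.ext fun u => funext fun x => ?_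
  rw [LinearMap.add_apply, Pi.add_apply, der_apply, der_apply, der_apply]
  simp only [Matrix.add_apply, add_mul, Finset.sum_add_distrib]

lemma der_smul (R : Finset ι) (c : ℂ) (Y : Matrix I I ℂ) : der R (c • Y) = c • der R Y := by
  refine LinearMap.ext fun u => funext fun x => ?_
  rw [LinearMap.smul_apply, Pi.smul_apply, der_apply, der_apply]
  simp only [Matrix.smul_apply, smul_eq_mul, Finset.mul_sum, mul_assoc]

/-- The matrices whose derivation of the tensor space preserves `U`. -/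
noncomputable def LieStab (U : Submodule ℂ (Ten ι I)) : Submodule ℂ (Matrix I I ℂ) where
  carrier := {Y | ∀ u ∈ U, der Finset.univ Y u ∈ U}
  add_mem' := by
    intro Y Z hY hZ u hu
    rw [der_add]
    exact U.add_mem (hY u hu) (hZ u hu)
  zero_mem' := by
    intro u _
    have h : der Finset.univ (0 : Matrix I I ℂ) = (0 : Module.End ℂ (Ten ι I)) := by
      refine LinearMap.ext fun u => funext fun x => ?_
      rw [der_apply]
      simp
    rw [h]
    exact U.zero_mem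
  smul_mem' := by
    intro c Y hY u hu
    rw [der_smul]
    exact U.smul_mem c (hY u hu)

lemma mem_lieStab {U : Submodule ℂ (Ten ι I)} {Y : Matrix I I ℂ} :
    Y ∈ LieStab U ↔ ∀ u ∈ U, der Finset.univ Y u ∈ U := Iff.rfl

end Lie

section Gsp

variable {g : ℕ} {κ : Type}

/-- The Lie algebra of the symplectic similitudes which respect the classes of `cl`. -/
noncomputable def gsp (cl : L2 g → κ) : Submodule ℂ (Matrix (L2 g) (L2 g) ℂ) where
  carrier := {Y | (∃ c : ℂ, Y.transpose * Matrix.J (Fin g) ℂ + Matrix.J (Fin g) ℂ * Y =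
    c • Matrix.J (Fin g) ℂ) ∧ ∀ r s, cl r ≠ cl s → Y r s = 0}
  add_mem' := by
    rintro Y Z ⟨⟨c, hc⟩, hY⟩ ⟨⟨d, hd⟩, hZ⟩
    refine ⟨⟨c + d, ?_⟩, fun r s h => ?_⟩
    · rw [Matrix.transpose_add, Matrix.add_mul, Matrix.mul_add, add_smul, ← hc, ← hd]
      abel
    · rw [Matrix.add_apply, hY r s h, hZ r s h, add_zero]
  zero_mem' := ⟨⟨0, by simp⟩, fun _ _ _ => rfl⟩
  smul_mem' := by
    rintro a Y ⟨⟨c, hc⟩, hY⟩
    refine ⟨⟨a * c, ?_⟩, fun r s h => ?_⟩
    · rw [Matrix.transpose_smul, Matrix.smul_mul, Matrix.mul_smul, ← smul_add, hc, smul_smul]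
    · rw [Matrix.smul_apply, hY r s h, smul_zero]

lemma mem_gsp {cl : L2 g → κ} {Y : Matrix (L2 g) (L2 g) ℂ} : Y ∈ gsp cl ↔
    (∃ c : ℂ, Y.transpose * Matrix.J (Fin g) ℂ + Matrix.J (Fin g) ℂ * Y =
      c • Matrix.J (Fin g) ℂ) ∧ ∀ r s, cl r ≠ cl s → Y r s = 0 := Iff.rfl

/-- The root vector which maps `e_s` to `e_r`. -/
noncomputable def rt (r s : L2 g) : Matrix (L2 g) (L2 g) ℂ :=
  Matrix.single r s 1 +
    (Matrix.J (Fin g) ℂ s.swap s * Matrix.J (Fin g) ℂ r r.swap) • Matrix.single s.swap r.swap 1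

/-- The vectors supported on the class `c`. -/
def blk (cl : L2 g → κ) (c : κ) : Submodule ℂ (L2 g → ℂ) where
  carrier := {v | ∀ r, cl r ≠ c → v r = 0}
  add_mem' := by
    intro v w hv hw r hr
    rw [Pi.add_apply, hv r hr, hw r hr, add_zero]
  zero_mem' := fun _ _ => rfl
  smul_mem' := by
    intro a v hv r hr
    rw [Pi.smul_apply, hv r hr, smul_zero]

lemma mem_blk {cl : L2 g → κ} {c : κ} {v : L2 g → ℂ} :
    v ∈ blk cl c ↔ ∀ r, cl r ≠ c → v r = 0 := Iff.rfl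

/-- No nonempty finite set of proper nonzero subspaces of the block `c` is permuted by the
matrices of `𝓜` (strong irreducibility). -/
def StrIrr (cl : L2 g → κ) (𝓜 : Set (Matrix (L2 g) (L2 g) ℂ)) (c : κ) : Prop :=
  ∀ S : Set (Submodule ℂ (L2 g → ℂ)), S.Finite → (∀ Q ∈ S, Q ≠ ⊥ ∧ Q < blk cl c) →
    (∀ X ∈ 𝓜, ∀ Q ∈ S, Q.map (Matrix.toLin' X) ∈ S) → S = ∅

/-- The infinitesimal symplectic transvection `x ↦ B(x, v) v`. -/
noncomputable def tv (v : L2 g → ℂ) : Matrix (L2 g) (L2 g) ℂ :=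
  Matrix.vecMulVec v ((Matrix.J (Fin g) ℂ).mulVec v)

/-- The letters for polynomials in the entries of a matrix: `V ⊗ ℂ^(2g) ⊕ ℂ`. -/
abbrev IP (g : ℕ) : Type := (L2 g × L2 g) ⊕ Unit

/-- The action of `X` on `V ⊗ ℂ^(2g) ⊕ ℂ`. -/
noncomputable def pl (X : Matrix (L2 g) (L2 g) ℂ) : Matrix (IP g) (IP g) ℂ :=
  Matrix.fromBlocks (X ⊗ₖ (1 : Matrix (L2 g) (L2 g) ℂ)) 0 0 1

/-- The infinitesimal action of `Y` on `V ⊗ ℂ^(2g) ⊕ ℂ`. -/
noncomputable def pl0 (Y : Matrix (L2 g) (L2 g) ℂ) : Matrix (IP g) (IP g) ℂ :=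
  Matrix.fromBlocks (Y ⊗ₖ (1 : Matrix (L2 g) (L2 g) ℂ)) 0 0 0

lemma pl_mul (X Z : Matrix (L2 g) (L2 g) ℂ) : pl (X * Z) = pl X * pl Z := by
  unfold pl
  rw [Matrix.fromBlocks_multiply, ← Matrix.mul_kronecker_mul]
  simp

lemma pl_one : pl (1 : Matrix (L2 g) (L2 g) ℂ) = 1 := by
  unfold pl
  rw [Matrix.one_kronecker_one, Matrix.fromBlocks_one]

lemma pl0_mul (Y Z : Matrix (L2 g) (L2 g) ℂ) : pl0 (Y * Z) = pl0 Y * pl0 Z := by
  unfold pl0
  rw [Matrix.fromBlocks_multiply, ← Matrix.mul_kronecker_mul]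
  simp

lemma pl0_conj (X Y X' : Matrix (L2 g) (L2 g) ℂ) : pl0 (X * Y * X') = pl X * pl0 Y * pl X' := by
  unfold pl pl0
  rw [Matrix.fromBlocks_multiply, Matrix.fromBlocks_multiply]
  simp only [Matrix.mul_zero, Matrix.zero_mul, add_zero, ← Matrix.mul_kronecker_mul, Matrix.mul_one]

lemma pl0_add (Y Z : Matrix (L2 g) (L2 g) ℂ) : pl0 (Y + Z) = pl0 Y + pl0 Z := by
  unfold pl0
  rw [Matrix.fromBlocks_add, Matrix.add_kronecker]
  simp

lemma pl0_smul (c : ℂ) (Y : Matrix (L2 g) (L2 g) ℂ) : pl0 (c • Y) = c • pl0 Y := by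
  unfold pl0
  rw [Matrix.fromBlocks_smul, Matrix.smul_kronecker]
  simp

lemma pl_one_add (Y : Matrix (L2 g) (L2 g) ℂ) : pl (1 + Y) = 1 + pl0 Y := by
  rw [← pl_one]
  unfold pl pl0
  rw [Matrix.fromBlocks_add, Matrix.add_kronecker]
  simp

/-- The diagonal entries of `pl (diagonal d)`. -/
def plv (d : L2 g → ℂ) (z : ℂ) : IP g → ℂ := Sum.elim (fun p => d p.1) (fun _ => z)

lemma pl_diagonal (d : L2 g → ℂ) : pl (Matrix.diagonal d) = Matrix.diagonal (plv d 1) := by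
  unfold pl plv
  rw [← Matrix.diagonal_one, Matrix.diagonal_kronecker_diagonal, ← Matrix.diagonal_one,
    Matrix.fromBlocks_diagonal]
  simp

lemma pl0_diagonal (t : L2 g → ℂ) : pl0 (Matrix.diagonal t) = Matrix.diagonal (plv t 0) := by
  unfold pl0 plv
  rw [← Matrix.diagonal_one, Matrix.diagonal_kronecker_diagonal, ← Matrix.diagonal_zero,
    Matrix.fromBlocks_diagonal]
  simp

end Gsp

end Pool.Agent.Helper71.OP
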