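import Pool.Agent.Helper71.OP.Base

/-!
# Weight spaces of a diagonal matrix (block OP-DIA)

`rho univ (diagonal lam)` multiplies the coordinate `x` of a tensor by `λ(x) = ∏ k, lam (x k)`
(`rho_diag`).  If `φ` is a function of `λ(x)`, choose a polynomial `p` with `p (λ x) = φ x` for all
words `x` (`Lagrange.interpolate` on the finite set of the values `λ(x)`); then
`aeval (rho univ (diagonal lam)) p u x = p (λ x) * u x`, and `U` is preserved (`aeval_mem`).
-/

set_option autoImplicit false

namespace Pool.Agent.Helper71.OP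

open Function Pool.Agent.Helper48.GC8

variable {ι I : Type} [Fintype ι] [DecidableEq ι] [Fintype I] [DecidableEq I]
  {U : Submodule ℂ (Ten ι I)}

private lemma dia_pow {lam : I → ℂ} (u : Ten ι I) (n : ℕ) (x : ι → I) :
    ((rho (Finset.univ : Finset ι) (Matrix.diagonal lam)) ^ n) u x = (∏ k, lam (x k)) ^ n * u x := by
  induction n generalizing x with
  | zero => simp
  | succ n ih => rw [pow_succ', Module.End.mul_apply, rho_diag, ih, pow_succ']; ring

private lemma dia_aeval {lam : I → ℂ} (u : Ten ι I) (p : Polynomial ℂ) (x : ι → I) :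
    Polynomial.aeval (rho (Finset.univ : Finset ι) (Matrix.diagonal lam)) p u x =
      p.eval (∏ k, lam (x k)) * u x := by
  induction p using Polynomial.induction_on' with
  | add p q hp hq =>
    rw [map_add, LinearMap.add_apply, Pi.add_apply, hp, hq, Polynomial.eval_add, add_mul]
  | monomial n c =>
    rw [Polynomial.aeval_monomial, Module.algebraMap_end_eq_smul_id, Module.End.mul_apply,
      LinearMap.smul_apply, LinearMap.id_apply, Pi.smul_apply, dia_pow, Polynomial.eval_monomial,
      smul_eq_mul, mul_assoc]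

private lemma dia_der {t : I → ℂ} (u : Ten ι I) (x : ι → I) :
    der Finset.univ (Matrix.diagonal t) u x = (∑ k, t (x k)) * u x := by
  rw [der_apply, Finset.sum_mul]
  refine Finset.sum_congr rfl fun k _ => ?_
  rw [Finset.sum_eq_single (x k)]
  · rw [Matrix.diagonal_apply_eq, Function.update_eq_self]
  · intro r _ hr
    rw [Matrix.diagonal_apply_ne _ (Ne.symm hr), zero_mul]
  · simp

lemma weight_mem {lam : I → ℂ} (hU : ∀ u ∈ U, rho Finset.univ (Matrix.diagonal lam) u ∈ U)
    (φ : (ι → I) → ℂ) (hφ : ∀ x y : ι → I, ∏ k, lam (x k) = ∏ k, lam (y k) → φ x = φ y)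
    {u : Ten ι I} (hu : u ∈ U) : (fun x => φ x * u x) ∈ U := by
  classical
  set L : (ι → I) → ℂ := fun x => ∏ k, lam (x k) with hL
  set S : Finset ℂ := Finset.univ.image L with hS
  let r : ℂ → ℂ := fun v => if h : ∃ x, L x = v then φ h.choose else 0
  have hr : ∀ x, r (L x) = φ x := by
    intro x
    have h : ∃ y, L y = L x := ⟨x, rfl⟩
    have h1 : r (L x) = φ h.choose := dif_pos h
    rw [h1]
    exact hφ _ _ h.choose_spec
  have hp : ∀ x, (Lagrange.interpolate S id r).eval (L x) = φ x := by
    intro x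
    have h1 := Lagrange.eval_interpolate_at_node (s := S) (v := id) r
      (Set.injOn_id _) (i := L x) (Finset.mem_image_of_mem L (Finset.mem_univ x))
    rw [← hr x]
    exact h1
  have h2 := aeval_mem (rho (Finset.univ : Finset ι) (Matrix.diagonal lam)) U hU
    (Lagrange.interpolate S id r) hu
  have h3 : Polynomial.aeval (rho (Finset.univ : Finset ι) (Matrix.diagonal lam))
      (Lagrange.interpolate S id r) u = fun x => φ x * u x := by
    funext x
    rw [dia_aeval]
    congr 1
    exact hp x
  rw [h3] at h2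
  exact h2

/-- `der (diagonal t)` multiplies the coordinate `x` by `∑ k, t (x k)` (`der_apply`). -/
lemma diag_lieStab {lam : I → ℂ} (hU : ∀ u ∈ U, rho Finset.univ (Matrix.diagonal lam) u ∈ U)
    {t : I → ℂ} (ht : ∀ x y : ι → I, ∏ k, lam (x k) = ∏ k, lam (y k) →
      ∑ k, t (x k) = ∑ k, t (y k)) : Matrix.diagonal t ∈ LieStab U := by
  rw [mem_lieStab]
  intro u hu
  have h1 := weight_mem hU (fun x => ∑ k, t (x k)) ht hu
  have h2 : der Finset.univ (Matrix.diagonal t) u = fun x => (∑ k, t (x k)) * u x := by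
    funext x
    exact dia_der u x
  rw [h2]
  exact h1

lemma diag_rho {lam : I → ℂ} (hU : ∀ u ∈ U, rho Finset.univ (Matrix.diagonal lam) u ∈ U)
    {d : I → ℂ} (hd : ∀ x y : ι → I, ∏ k, lam (x k) = ∏ k, lam (y k) →
      ∏ k, d (x k) = ∏ k, d (y k)) :
    ∀ u ∈ U, rho Finset.univ (Matrix.diagonal d) u ∈ U := by
  intro u hu
  have h1 := weight_mem hU (fun x => ∏ k, d (x k)) hd hu
  have h2 : rho Finset.univ (Matrix.diagonal d) u = fun x => (∏ k, d (x k)) * u x := by
    funext x
    exact rho_diag _ d u x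
  rw [h2]
  exact h1

end Pool.Agent.Helper71.OP
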