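import Pool.Agent.Helper71.OP.Base

/-!
# From the Lie algebra of the torus to the torus (block OP-DIA2)

`mul_of_sep`: for `x : J` let `P x v = ` the restriction of `v` to the class
`{y | ∀ t ∈ T, t y = t x}`; it is in `Q`: for each `y` outside of the class choose `t ∈ T` with
`t y ≠ t x` and apply `v ↦ (t · v - t y • v) / (t x - t y)`, which kills the coordinate `y` and keeps
the coordinates in the class (induction over the finite set of the bad `y`; compare `extract_vec` in
`Ext.lean`).  `φ` is constant on classes, and `φ · v` is a linear combination of the `P x v`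
(sum over one representative of each class; or: the sum over all `x` of
`(φ x / #class x) • P x v`).
`diag_of_lie`: apply it with `J = (Fin d → IP g)`, `T` the functions `x ↦ ∑ k, plv t 0 (x k)`
(`der univ (diagonal (plv t 0))` multiplies by this, `der_apply`), and `φ x = ∏ k, plv e 1 (x k)`
(`rho_diag`).  `φ` is a function of the weights: let `N x r` be the number of `k` with
`x k = inl (r, _)`; `∑ k, plv t 0 (x k) = ∑ r, N x r * t r`; with `t = 1` at `inl i`, `-1` at `inr i`,
`0` elsewhere, and `t = 1` on all `inr i`, `0` on all `inl i`, one sees that `N x (inl i) - N x (inr i)`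
and `∑ i, N x (inr i)` are determined, and
`φ x = ∏ r, e r ^ N x r = (∏ i, e (inl i) ^ (N x (inl i) - N x (inr i))) * m ^ ∑ i, N x (inr i)`.
-/

set_option autoImplicit false

namespace Pool.Agent.Helper71.OP

open Function Pool.Agent.Helper48.GC8

private noncomputable def stabAlg {J : Type} (Q : Submodule ℂ (J → ℂ)) : Subalgebra ℂ (J → ℂ) where
  carrier := {h | ∀ v ∈ Q, (fun x => h x * v x) ∈ Q}
  mul_mem' := by
    intro a b ha hb v hv
    have := ha _ (hb v hv)
    simpa only [Pi.mul_apply, mul_assoc] using this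
  add_mem' := by
    intro a b ha hb v hv
    have := Q.add_mem (ha v hv) (hb v hv)
    have e : (fun x => (a + b) x * v x) = (fun x => a x * v x) + fun x => b x * v x := by
      funext x
      simp only [Pi.add_apply, add_mul]
    rw [e]
    exact this
  algebraMap_mem' := by
    intro r v hv
    have := Q.smul_mem r hv
    exact this

lemma mul_of_sep {J : Type} [Fintype J] (Q : Submodule ℂ (J → ℂ)) (T : Set (J → ℂ))
    (hT : ∀ t ∈ T, ∀ v ∈ Q, (fun x => t x * v x) ∈ Q) (φ : J → ℂ)
    (hφ : ∀ x y, (∀ t ∈ T, t x = t y) → φ x = φ y) {v : J → ℂ} (hv : v ∈ Q) :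
    (fun x => φ x * v x) ∈ Q := by
  classical
  have hTS : ∀ t ∈ T, t ∈ stabAlg Q := fun t ht => hT t ht
  set e : J → J → ℂ := fun x z => if ∀ t ∈ T, t x = t z then 1 else 0 with he
  have hmem : ∀ x, e x ∈ stabAlg Q := by
    intro x
    have hex : ∀ y, ∃ h : J → ℂ, h ∈ stabAlg Q ∧ (∀ z, (∀ t ∈ T, t x = t z) → h z = 1) ∧
        ((¬ ∀ t ∈ T, t x = t y) → h y = 0) := by
      intro y
      by_cases hy : ∀ t ∈ T, t x = t y
      · exact ⟨1, (stabAlg Q).one_mem, fun _ _ => rfl, fun h => absurd hy h⟩
      · push Not at hy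
        obtain ⟨t, ht, hty⟩ := hy
        refine ⟨(t x - t y)⁻¹ • (t - algebraMap ℂ (J → ℂ) (t y)), ?_, ?_, ?_⟩
        · exact (stabAlg Q).smul_mem ((stabAlg Q).sub_mem (hTS t ht) ((stabAlg Q).algebraMap_mem _)) _
        · intro z hz
          rw [Pi.smul_apply, Pi.sub_apply, ← hz t ht, smul_eq_mul]
          exact inv_mul_cancel₀ (sub_ne_zero.2 hty)
        · intro _
          rw [Pi.smul_apply, Pi.sub_apply]
          change _ • (t y - t y) = 0
          rw [sub_self, smul_zero]
    choose h h1 h2 h3 using hex
    have : e x = ∏ y, h y := by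
      funext z
      rw [Finset.prod_apply]
      by_cases hz : ∀ t ∈ T, t x = t z
      · rw [he]
        simp only
        rw [if_pos hz, Finset.prod_eq_one fun y _ => h2 y z hz]
      · rw [he]
        simp only
        rw [if_neg hz]
        exact (Finset.prod_eq_zero (f := fun y => h y z) (Finset.mem_univ z) (h3 z hz)).symm
    rw [this]
    exact (stabAlg Q).prod_mem fun y _ => h1 y
  have hφS : φ ∈ stabAlg Q := by
    have key : φ = ∑ x, (φ x / ((Finset.univ.filter fun z => ∀ t ∈ T, t x = t z).card : ℂ)) • e x := by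
      funext z
      rw [Finset.sum_apply]
      have h1 : ∀ x, ((φ x / ((Finset.univ.filter fun z => ∀ t ∈ T, t x = t z).card : ℂ)) • e x) z =
          if ∀ t ∈ T, t z = t x then
            φ z / ((Finset.univ.filter fun y => ∀ t ∈ T, t z = t y).card : ℂ) else 0 := by
        intro x
        rw [Pi.smul_apply, he, smul_eq_mul]
        simp only
        by_cases hx : ∀ t ∈ T, t x = t z
        · have hx' : ∀ t ∈ T, t z = t x := fun t ht => (hx t ht).symm
          rw [if_pos hx, if_pos hx', mul_one, hφ x z hx]
          congr 3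
          ext y
          simp only [Finset.mem_filter, Finset.mem_univ, true_and]
          constructor
          · intro h t ht
            rw [← hx t ht, h t ht]
          · intro h t ht
            rw [hx t ht, h t ht]
        · have hx' : ¬ ∀ t ∈ T, t z = t x := fun h => hx fun t ht => (h t ht).symm
          rw [if_neg hx, if_neg hx', mul_zero]
      rw [Finset.sum_congr rfl fun x _ => h1 x, ← Finset.sum_filter, Finset.sum_const, nsmul_eq_mul]
      have hne : ((Finset.univ.filter fun y => ∀ t ∈ T, t z = t y).card : ℂ) ≠ 0 := by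
        rw [Nat.cast_ne_zero]
        exact (Finset.card_pos.2 ⟨z, by simp⟩).ne'
      rw [mul_div_cancel₀ _ hne]
    rw [key]
    exact (stabAlg Q).sum_mem fun x _ => (stabAlg Q).smul_mem (hmem x) _
  exact hφS v hv

variable {g : ℕ}

private lemma dia2_der {ι I : Type} [Fintype ι] [DecidableEq ι] [Fintype I] [DecidableEq I]
    {t : I → ℂ} (u : Ten ι I) (x : ι → I) :
    der Finset.univ (Matrix.diagonal t) u x = (∑ k, t (x k)) * u x := by
  rw [der_apply, Finset.sum_mul]
  refine Finset.sum_congr rfl fun k _ => ?_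
  rw [Finset.sum_eq_single (x k)]
  · rw [Matrix.diagonal_apply_eq, Function.update_eq_self]
  · intro r _ hr
    rw [Matrix.diagonal_apply_ne _ (Ne.symm hr), zero_mul]
  · simp

theorem diag_of_lie {d : ℕ} {U : Submodule ℂ (Ten (Fin d) (IP g))}
    (hU : ∀ t : L2 g → ℂ, (∃ c, ∀ i, t (Sum.inl i) + t (Sum.inr i) = c) →
      Matrix.diagonal (plv t 0) ∈ LieStab U)
    {e : L2 g → ℂ} {m : ℂ} (hm : m ≠ 0) (he : ∀ i, e (Sum.inl i) * e (Sum.inr i) = m) :
    ∀ u ∈ U, rho Finset.univ (Matrix.diagonal (plv e 1)) u ∈ U := by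
  intro u hu
  have hel : ∀ i, e (Sum.inl i) ≠ 0 := fun i h => hm (by rw [← he i, h, zero_mul])
  -- logarithms
  let t : L2 g → ℂ := Sum.elim (fun i => Complex.log (e (Sum.inl i)))
    (fun i => Complex.log m - Complex.log (e (Sum.inl i)))
  have ht : ∀ r, Complex.exp (t r) = e r := by
    rintro (i | i)
    · exact Complex.exp_log (hel i)
    · change Complex.exp (Complex.log m - Complex.log (e (Sum.inl i))) = _
      rw [Complex.exp_sub, Complex.exp_log hm, Complex.exp_log (hel i), div_eq_iff (hel i), ← he i,
        mul_comm]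
  have hpl : ∀ p : IP g, plv e 1 p = Complex.exp (plv t 0 p) := by
    rintro (p | p)
    · exact (ht p.1).symm
    · exact Complex.exp_zero.symm
  have key := mul_of_sep (J := Fin d → IP g) U {s | s = fun x => ∑ k, plv t 0 (x k)} ?_
    (fun x => ∏ k, plv e 1 (x k)) ?_ hu
  · have e1 : rho Finset.univ (Matrix.diagonal (plv e 1)) u = fun x => (∏ k, plv e 1 (x k)) * u x := by
      funext x
      rw [rho_diag]
    rw [e1]
    exact key
  · rintro s rfl v hv
    have h1 := hU t ⟨Complex.log m, fun i => by
      change Complex.log (e (Sum.inl i)) + (Complex.log m - Complex.log (e (Sum.inl i))) = _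
      ring⟩ v hv
    have e1 : der Finset.univ (Matrix.diagonal (plv t 0)) v =
        fun x => (∑ k, plv t 0 (x k)) * v x := by
      funext x
      rw [dia2_der]
    rw [e1] at h1
    exact h1
  · intro x y h
    have h1 : ∑ k, plv t 0 (x k) = ∑ k, plv t 0 (y k) := h _ rfl
    simp only [hpl]
    rw [← Complex.exp_sum, ← Complex.exp_sum, h1]

end Pool.Agent.Helper71.OP
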