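import Pool.Agent.Helper71.OP.Base

/-!
# Extraction of root components (block OP-EXT)

`L` is stable under `Y ↦ [diagonal t, Y]`, `t ∈ T`, whose entry at `(r, s)` is
`(t r - t s) * Y r s`.  For each `(r, s)` which has not the same root as `(r₀, s₀)` choose
`t ∈ T` with `t r - t s ≠ t r₀ - t s₀` and apply the operator
`Y ↦ ([diagonal t, Y] - (t r - t s) • Y) / ((t r₀ - t s₀) - (t r - t s))`: it kills the entry
`(r, s)`, keeps all entries with the same root as `(r₀, s₀)` and multiplies every entry by some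
number.  Induction over the finite set of the bad pairs.  The same with vectors.
-/

set_option autoImplicit false

namespace Pool.Agent.Helper71.OP

open Function

variable {I : Type} [Fintype I] [DecidableEq I]

private lemma ext_aux (L : Submodule ℂ (Matrix I I ℂ)) (T : Set (I → ℂ))
    (hT : ∀ t ∈ T, ∀ Y ∈ L, Matrix.diagonal t * Y - Y * Matrix.diagonal t ∈ L)
    {Y : Matrix I I ℂ} (hY : Y ∈ L) (r₀ s₀ : I) (B : Finset (I × I)) :
    (∀ q ∈ B, ¬ ∀ t ∈ T, t q.1 - t q.2 = t r₀ - t s₀) →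
    ∃ Z ∈ L, (∀ r s, (∀ t ∈ T, t r - t s = t r₀ - t s₀) → Z r s = Y r s) ∧
      ∀ q ∈ B, Z q.1 q.2 = 0 := by
  induction B using Finset.induction_on with
  | empty =>
    intro _
    exact ⟨Y, hY, fun _ _ _ => rfl, fun q hq => absurd hq (Finset.notMem_empty q)⟩
  | insert q B hq ih =>
    intro hB
    obtain ⟨Z, hZL, hZ1, hZ2⟩ := ih (fun q' hq' => hB q' (Finset.mem_insert_of_mem hq'))
    have hbad := hB q (Finset.mem_insert_self q B)
    push Not at hbad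
    obtain ⟨t, htT, ht⟩ := hbad
    have hc : (t r₀ - t s₀) - (t q.1 - t q.2) ≠ 0 := sub_ne_zero.2 (Ne.symm ht)
    have hent : ∀ r s, (((t r₀ - t s₀) - (t q.1 - t q.2))⁻¹ •
        ((Matrix.diagonal t * Z - Z * Matrix.diagonal t) - (t q.1 - t q.2) • Z)) r s =
        ((t r₀ - t s₀) - (t q.1 - t q.2))⁻¹ * (((t r - t s) - (t q.1 - t q.2)) * Z r s) := by
      intro r s
      rw [Matrix.smul_apply, Matrix.sub_apply, Matrix.sub_apply, Matrix.smul_apply,
        Matrix.diagonal_mul, Matrix.mul_diagonal, smul_eq_mul, smul_eq_mul]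
      ring
    refine ⟨((t r₀ - t s₀) - (t q.1 - t q.2))⁻¹ •
      ((Matrix.diagonal t * Z - Z * Matrix.diagonal t) - (t q.1 - t q.2) • Z),
      L.smul_mem _ (L.sub_mem (hT t htT Z hZL) (L.smul_mem _ hZL)), fun r s hrs => ?_,
      fun q' hq' => ?_⟩
    · rw [hent, hrs t htT, inv_mul_cancel_left₀ hc, hZ1 r s hrs]
    · rw [hent]
      rcases Finset.mem_insert.1 hq' with rfl | hq'
      · rw [sub_self, zero_mul, mul_zero]
      · rw [hZ2 q' hq', mul_zero, mul_zero]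

lemma extract (L : Submodule ℂ (Matrix I I ℂ)) (T : Set (I → ℂ))
    (hT : ∀ t ∈ T, ∀ Y ∈ L, Matrix.diagonal t * Y - Y * Matrix.diagonal t ∈ L)
    {Y : Matrix I I ℂ} (hY : Y ∈ L) (r₀ s₀ : I) :
    ∃ Z ∈ L, (∀ r s, (∀ t ∈ T, t r - t s = t r₀ - t s₀) → Z r s = Y r s) ∧
      ∀ r s, (¬ ∀ t ∈ T, t r - t s = t r₀ - t s₀) → Z r s = 0 := by
  classical
  obtain ⟨Z, hZL, hZ1, hZ2⟩ := ext_aux L T hT hY r₀ s₀
    ((Finset.univ : Finset (I × I)).filter (fun q => ¬ ∀ t ∈ T, t q.1 - t q.2 = t r₀ - t s₀))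
    (fun q hq => (Finset.mem_filter.1 hq).2)
  exact ⟨Z, hZL, hZ1, fun r s hrs => hZ2 (r, s) (Finset.mem_filter.2 ⟨Finset.mem_univ _, hrs⟩)⟩

omit [Fintype I] in
private lemma ext_vec_aux (Q : Submodule ℂ (I → ℂ)) (T : Set (I → ℂ))
    (hT : ∀ t ∈ T, ∀ v ∈ Q, (fun r => t r * v r) ∈ Q) {v : I → ℂ} (hv : v ∈ Q) (r₀ : I)
    (B : Finset I) : (∀ r ∈ B, ∃ t ∈ T, t r ≠ t r₀) →
    ∃ w ∈ Q, w r₀ = v r₀ ∧ (∀ r, v r = 0 → w r = 0) ∧ ∀ r ∈ B, w r = 0 := by
  induction B using Finset.induction_on with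
  | empty =>
    intro _
    exact ⟨v, hv, rfl, fun _ h => h, fun r hr => absurd hr (Finset.notMem_empty r)⟩
  | insert s B hs ih =>
    intro hB
    obtain ⟨w, hwQ, hw0, hw1, hw2⟩ := ih (fun r hr => hB r (Finset.mem_insert_of_mem hr))
    obtain ⟨t, htT, ht⟩ := hB s (Finset.mem_insert_self s B)
    have hc : t r₀ - t s ≠ 0 := sub_ne_zero.2 (Ne.symm ht)
    have hent : ∀ r, ((t r₀ - t s)⁻¹ • ((fun r => t r * w r) - t s • w)) r =
        (t r₀ - t s)⁻¹ * ((t r - t s) * w r) := by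
      intro r
      rw [Pi.smul_apply, Pi.sub_apply, Pi.smul_apply, smul_eq_mul, smul_eq_mul]
      ring
    refine ⟨(t r₀ - t s)⁻¹ • ((fun r => t r * w r) - t s • w),
      Q.smul_mem _ (Q.sub_mem (hT t htT w hwQ) (Q.smul_mem _ hwQ)), ?_, fun r hr => ?_,
      fun r hr => ?_⟩
    · rw [hent, inv_mul_cancel_left₀ hc, hw0]
    · rw [hent, hw1 r hr, mul_zero, mul_zero]
    · rw [hent]
      rcases Finset.mem_insert.1 hr with rfl | hr
      · rw [sub_self, zero_mul, mul_zero]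
      · rw [hw2 r hr, mul_zero, mul_zero]

lemma extract_vec (Q : Submodule ℂ (I → ℂ)) (T : Set (I → ℂ))
    (hT : ∀ t ∈ T, ∀ v ∈ Q, (fun r => t r * v r) ∈ Q) {v : I → ℂ} (hv : v ∈ Q) (r₀ : I)
    (hsep : ∀ r, r ≠ r₀ → v r ≠ 0 → ∃ t ∈ T, t r ≠ t r₀) : Pi.single r₀ (v r₀) ∈ Q := by
  classical
  obtain ⟨w, hwQ, hw0, hw1, hw2⟩ := ext_vec_aux Q T hT hv r₀
    ((Finset.univ : Finset I).filter (fun r => r ≠ r₀ ∧ v r ≠ 0))
    (fun r hr => hsep r (Finset.mem_filter.1 hr).2.1 (Finset.mem_filter.1 hr).2.2)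
  have h : Pi.single r₀ (v r₀) = w := by
    funext r
    rcases eq_or_ne r r₀ with rfl | hr
    · rw [Pi.single_eq_same, hw0]
    · rw [Pi.single_eq_of_ne hr]
      by_cases h0 : v r = 0
      · exact (hw1 r h0).symm
      · exact (hw2 r (Finset.mem_filter.2 ⟨Finset.mem_univ _, hr, h0⟩)).symm
  rw [h]
  exact hwQ

end Pool.Agent.Helper71.OP
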