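import Pool.Agent.Helper71.OP.Base
import Pool.Agent.Helper60.GC9.DiagT

/-!
# Generation of the group by transvections and diagonal matrices (block OP-GEN)

`1 + a • tv v` is the transvection `x ↦ x + a B(x, v) v`, `B = B g` the symplectic form
(`B(x, y) = xᵀ J y`, lemmas `B_skew`, `B_self`, `B_map`, `B_blk` of `Helper48.GC8`).

Let `X` be in the group with multiplier `m`.  Multiplying from the right by a diagonal matrix
(on torus blocks `(X r r)⁻¹`, `SimT.mul_swap`; on the other blocks `1` at `inl`, `m⁻¹` at `inr`) we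
may assume that `m = 1` and that `X` is the identity on the torus blocks.  Claim: for every finite
set `A` of indices there is a product `h` of transvections (with vectors in blocks which are not torus
blocks) such that `h X` fixes `e_i` and `f_i` (`Pi.single (inl i) 1`, `Pi.single (inr i) 1`) for
all `i ∈ A` and is still symplectic, block-preserving and the identity on torus blocks.
Induction on `A`, insert `i`: if `col i` is a torus block nothing is to be done.  Otherwise let
`v = h X e_i`, `w = h X f_i`; they lie in the block and are orthogonal to `e_j`, `f_j`, `j ∈ A`, and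
`B(w, v) = 1` (sign as `J_rl`).  All transvections below have vectors orthogonal to
`e_j`, `f_j`, `j ∈ A`, so they fix these.
(1) move `v` to `e = e_i`: if `B(v, e) ≠ 0` use the vector `e - v` and `a = B(v, e)⁻¹`
(`B(v, e - v) = B(v, e)`).  If `B(v, e) = 0` choose `z` among `w`, `f_i`, `w + f_i` with `B(v, z) ≠ 0`
and `B(z, e) ≠ 0` and move `v` to `z`, `z` to `e`.
(2) now `v = e`, `B(w, e) = 1 = B(f_i, e)`: move `w` to `f = f_i` fixing `e`: if `B(w, f) ≠ 0` use the
vector `f - w` (`B(e, f - w) = 0`); otherwise go through `f + e`.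
For `A` everything, `h X = 1`.  Products of transvections have inverses which are products of
transvections (`a ↦ -a`, `tv v * tv v = 0`), so `X = h⁻¹` satisfies `P`.
(Work with a predicate like `∃ h h', h' * h = 1 ∧ P h ∧ P h' ∧ ...`.)
-/

set_option autoImplicit false

namespace Pool.Agent.Helper71.OP

open Function Pool.Agent.Helper48.GC8 Pool.Agent.Helper60.GC9

section Gen

variable {g : ℕ} {κ : Type}

private lemma tv_mulVec (v x : L2 g → ℂ) : (tv v).mulVec x = B g x v • v := by
  funext r
  rw [tv, Matrix.mulVec, dotProduct, Pi.smul_apply, smul_eq_mul, Matrix.toBilin'_apply',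
    dotProduct, Finset.sum_mul]
  refine Finset.sum_congr rfl fun s _ => ?_
  rw [Matrix.vecMulVec_apply]
  ring

private lemma tr_mulVec (a : ℂ) (v x : L2 g → ℂ) :
    (1 + a • tv v).mulVec x = x + (a * B g x v) • v := by
  rw [Matrix.add_mulVec, Matrix.one_mulVec, Matrix.smul_mulVec, tv_mulVec, smul_smul]

private lemma mat_ext {X Y : Matrix (L2 g) (L2 g) ℂ}
    (h : ∀ r, X.mulVec (Pi.single r 1) = Y.mulVec (Pi.single r 1)) : X = Y := by
  ext r s
  have := congrFun (h s) r
  rwa [Matrix.mulVec_single_one, Matrix.mulVec_single_one] at this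

private lemma mat_ext' {X Y : Matrix (L2 g) (L2 g) ℂ}
    (h : ∀ x, X.mulVec x = Y.mulVec x) : X = Y := mat_ext fun _ => h _

private lemma B_single (r s : L2 g) :
    B g (Pi.single r 1) (Pi.single s 1) = Matrix.J (Fin g) ℂ r s := by
  rw [Matrix.toBilin'_single]

private lemma form_of_B {X : Matrix (L2 g) (L2 g) ℂ} {m : ℂ}
    (h : ∀ x y, B g (X.mulVec x) (X.mulVec y) = m * B g x y) :
    X.transpose * Matrix.J (Fin g) ℂ * X = m • Matrix.J (Fin g) ℂ := by
  ext r s
  have h1 := h (Pi.single r 1) (Pi.single s 1)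
  rw [B_single] at h1
  rw [Matrix.smul_apply, smul_eq_mul, ← h1, Matrix.toBilin'_apply', Matrix.mulVec_mulVec,
    Matrix.dotProduct_mulVec, Matrix.vecMul_mulVec, ← Matrix.mul_assoc,
    ← Matrix.dotProduct_mulVec, single_dotProduct, one_mul, Matrix.mulVec_single_one]
  rfl

private lemma sim_mul {col : Fin g → κ} {m m' : ℂ} {X Z : Matrix (L2 g) (L2 g) ℂ}
    (hX : Sim col m X) (hZ : Sim col m' Z) : Sim col (m * m') (X * Z) := by
  refine ⟨form_of_B fun x y => ?_, fun r s hrs => ?_⟩
  · rw [← Matrix.mulVec_mulVec, ← Matrix.mulVec_mulVec, B_map hX, B_map hZ, mul_assoc]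
  · rw [Matrix.mul_apply]
    refine Finset.sum_eq_zero fun t _ => ?_
    by_cases h : col (pr r) = col (pr t)
    · rw [hZ.blk t s (fun h' => hrs (h.trans h')), mul_zero]
    · rw [hX.blk r t h, zero_mul]

private lemma sim_blk {col : Fin g → κ} {m : ℂ} {X : Matrix (L2 g) (L2 g) ℂ}
    (hX : Sim col m X) {c : κ} {x : L2 g → ℂ} (hx : Bk col c x) : Bk col c (X.mulVec x) := by
  intro r hr
  rw [Matrix.mulVec, dotProduct]
  refine Finset.sum_eq_zero fun t _ => ?_
  by_cases h : col (pr r) = col (pr t)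
  · rw [hx t (fun h' => hr (h.trans h')), mul_zero]
  · rw [hX.blk r t h, zero_mul]

private lemma sim_tr {col : Fin g → κ} {c : κ} {v : L2 g → ℂ} (hv : Bk col c v) (a : ℂ) :
    Sim col 1 (1 + a • tv v) := by
  refine ⟨form_of_B fun x y => ?_, fun r s hrs => ?_⟩
  · rw [tr_mulVec, tr_mulVec]
    simp only [map_add, map_smul, LinearMap.add_apply, LinearMap.smul_apply, smul_eq_mul]
    rw [B_self, B_skew v y]
    ring
  · rw [Matrix.add_apply, Matrix.smul_apply, tv, Matrix.vecMulVec_apply,
      Matrix.one_apply_ne (by rintro rfl; exact hrs rfl), zero_add, smul_eq_mul]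
    by_cases h : col (pr r) = c
    · have h1 : (Matrix.J (Fin g) ℂ).mulVec v s = 0 := by
        rw [Matrix.mulVec, dotProduct]
        refine Finset.sum_eq_zero fun t _ => ?_
        by_cases hst : pr s = pr t
        · rw [hv t (fun h' => hrs (by rw [h, hst, h'])), mul_zero]
        · rw [J_zero hst, zero_mul]
      rw [h1, mul_zero, mul_zero]
    · rw [hv r h, zero_mul, mul_zero]

private lemma sim_diag {col : Fin g → κ} {d : L2 g → ℂ} {m : ℂ}
    (h : ∀ i, d (Sum.inl i) * d (Sum.inr i) = m) : Sim col m (Matrix.diagonal d) := by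
  refine ⟨?_, fun r s hrs => Matrix.diagonal_apply_ne _ (by rintro rfl; exact hrs rfl)⟩
  ext r s
  rw [Matrix.diagonal_transpose, Matrix.mul_diagonal, Matrix.diagonal_mul, Matrix.smul_apply,
    smul_eq_mul]
  rcases r with i | i <;> rcases s with j | j
  · rw [J_ll]; ring
  · rw [J_lr]
    by_cases hij : i = j
    · subst hij; rw [← h i]; ring
    · rw [if_neg hij]; ring
  · rw [J_rl]
    by_cases hij : i = j
    · subst hij; rw [← h i]; ring
    · rw [if_neg hij]; ring
  · rw [J_rr]; ring

/-- The matrices which can be reached: symplectic, fixing the basis vectors of `S`, with an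
inverse satisfying `P`. -/
private structure GG (col : Fin g → κ) (P : Matrix (L2 g) (L2 g) ℂ → Prop) (S : Fin g → Prop)
    (h : Matrix (L2 g) (L2 g) ℂ) : Prop where
  sim : Sim col 1 h
  fix : ∀ r, S (pr r) → h.mulVec (Pi.single r 1) = Pi.single r 1
  inv : ∃ h', h' * h = 1 ∧ P h'

private lemma GG.mul {col : Fin g → κ} {P : Matrix (L2 g) (L2 g) ℂ → Prop}
    (hmul : ∀ X Z, P X → P Z → P (X * Z)) {S : Fin g → Prop}
    {h k : Matrix (L2 g) (L2 g) ℂ} (hh : GG col P S h) (hk : GG col P S k) :
    GG col P S (h * k) := by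
  obtain ⟨h', h1, h2⟩ := hh.inv
  obtain ⟨k', k1, k2⟩ := hk.inv
  refine ⟨?_, fun r hr => ?_, k' * h', ?_, hmul _ _ k2 h2⟩
  · have := sim_mul hh.sim hk.sim
    rwa [one_mul] at this
  · rw [← Matrix.mulVec_mulVec, hk.fix r hr, hh.fix r hr]
  · rw [Matrix.mul_assoc, ← Matrix.mul_assoc h', h1, Matrix.one_mul, k1]

private lemma GG.mono {col : Fin g → κ} {P : Matrix (L2 g) (L2 g) ℂ → Prop}
    {S S' : Fin g → Prop} (hS : ∀ i, S' i → S i)
    {h : Matrix (L2 g) (L2 g) ℂ} (hh : GG col P S h) : GG col P S' h :=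
  ⟨hh.sim, fun r hr => hh.fix r (hS _ hr), hh.inv⟩

/-- The subspace in which the transvections move. -/
private def WW (col : Fin g → κ) (c : κ) (S : Fin g → Prop) (x : L2 g → ℂ) : Prop :=
  Bk col c x ∧ ∀ r, S (pr r) → B g (Pi.single r 1) x = 0

private lemma WW.add {col : Fin g → κ} {c : κ} {S : Fin g → Prop} {x y : L2 g → ℂ}
    (hx : WW col c S x) (hy : WW col c S y) : WW col c S (x + y) := by
  refine ⟨fun s hs => ?_, fun r hr => ?_⟩
  · rw [Pi.add_apply, hx.1 s hs, hy.1 s hs, add_zero]
  · rw [map_add, hx.2 r hr, hy.2 r hr, add_zero]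

private lemma WW.sub {col : Fin g → κ} {c : κ} {S : Fin g → Prop} {x y : L2 g → ℂ}
    (hx : WW col c S x) (hy : WW col c S y) : WW col c S (x - y) := by
  refine ⟨fun s hs => ?_, fun r hr => ?_⟩
  · rw [Pi.sub_apply, hx.1 s hs, hy.1 s hs, sub_zero]
  · rw [map_sub, hx.2 r hr, hy.2 r hr, sub_zero]

private lemma WW.map {col : Fin g → κ} {P : Matrix (L2 g) (L2 g) ℂ → Prop} {c : κ}
    {S : Fin g → Prop} {x : L2 g → ℂ} {h : Matrix (L2 g) (L2 g) ℂ} (hh : GG col P S h)
    (hx : WW col c S x) : WW col c S (h.mulVec x) := by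
  refine ⟨sim_blk hh.sim hx.1, fun r hr => ?_⟩
  rw [← hh.fix r hr, B_map hh.sim, hx.2 r hr, mul_zero]

/-- A transvection which moves `x` to `y`. -/
private lemma exists_tr {col : Fin g → κ} {P : Matrix (L2 g) (L2 g) ℂ → Prop} {c : κ}
    (htv : ∀ v : L2 g → ℂ, Bk col c v → ∀ a : ℂ, P (1 + a • tv v))
    {S : Fin g → Prop} {x y : L2 g → ℂ} (hx : WW col c S x) (hy : WW col c S y)
    (hxy : B g x y ≠ 0) :
    ∃ t, GG col P S t ∧ t.mulVec x = y ∧ ∀ z, B g z x = B g z y → t.mulVec z = z := by
  have hd := hy.sub hx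
  refine ⟨1 + (B g x y)⁻¹ • tv (y - x), ⟨sim_tr hd.1 _, fun r hr => ?_,
    1 + (-(B g x y)⁻¹) • tv (y - x), ?_, htv _ hd.1 _⟩, ?_, fun z hz => ?_⟩
  · rw [tr_mulVec, hd.2 r hr, mul_zero, zero_smul, add_zero]
  · refine mat_ext' fun z => ?_
    rw [← Matrix.mulVec_mulVec, Matrix.one_mulVec, tr_mulVec, tr_mulVec]
    simp only [map_add, map_smul, LinearMap.add_apply, LinearMap.smul_apply, smul_eq_mul]
    rw [B_self, mul_zero, add_zero, add_assoc, ← add_smul]
    have : (B g x y)⁻¹ * B g z (y - x) + -(B g x y)⁻¹ * B g z (y - x) = 0 := by ring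
    rw [this, zero_smul, add_zero]
  · rw [tr_mulVec, map_sub, B_self, sub_zero, inv_mul_cancel₀ hxy, one_smul]
    abel
  · rw [tr_mulVec, map_sub, hz, sub_self, mul_zero, zero_smul, add_zero]

private lemma step {col : Fin g → κ} {P : Matrix (L2 g) (L2 g) ℂ → Prop} {c : κ}
    (hmul : ∀ X Z, P X → P Z → P (X * Z))
    (htv : ∀ v : L2 g → ℂ, Bk col c v → ∀ a : ℂ, P (1 + a • tv v))
    {S : Fin g → Prop} {v w e f : L2 g → ℂ} (hv : WW col c S v) (hw : WW col c S w)
    (he : WW col c S e) (hf : WW col c S f) (hwv : B g w v = 1) (hfe : B g f e = 1) :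
    ∃ t, GG col P S t ∧ t.mulVec v = e ∧ t.mulVec w = f := by
  have hvw : B g v w = -1 := by rw [B_skew, hwv]
  have hef : B g e f = -1 := by rw [B_skew, hfe]
  -- move `v` to `e`
  obtain ⟨t, ht, htve⟩ : ∃ t, GG col P S t ∧ t.mulVec v = e := by
    by_cases hve : B g v e = 0
    · obtain ⟨z, hz, hvz, hze⟩ : ∃ z, WW col c S z ∧ B g v z ≠ 0 ∧ B g z e ≠ 0 := by
        by_cases hwe : B g w e = 0
        · by_cases hvf : B g v f = 0
          · refine ⟨w + f, hw.add hf, ?_, ?_⟩
            · rw [map_add, hvw, hvf]; norm_num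
            · rw [map_add, LinearMap.add_apply, hwe, hfe]; norm_num
          · exact ⟨f, hf, hvf, by rw [hfe]; norm_num⟩
        · exact ⟨w, hw, by rw [hvw]; norm_num, hwe⟩
      obtain ⟨t1, h1, h2, -⟩ := exists_tr htv hv hz hvz
      obtain ⟨t2, h3, h4, -⟩ := exists_tr htv hz he hze
      exact ⟨t2 * t1, h3.mul hmul h1, by rw [← Matrix.mulVec_mulVec, h2, h4]⟩
    · obtain ⟨t, h1, h2, -⟩ := exists_tr htv hv he hve
      exact ⟨t, h1, h2⟩
  have hw' := hw.map ht
  have hwe : B g (t.mulVec w) e = 1 := by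
    rw [← htve, B_map ht.sim, hwv, one_mul]
  have hew : B g e (t.mulVec w) = -1 := by rw [B_skew, hwe]
  -- move `t w` to `f` fixing `e`
  obtain ⟨s, hs, hse, hsw⟩ : ∃ s, GG col P S s ∧ s.mulVec e = e ∧
      s.mulVec (t.mulVec w) = f := by
    by_cases hwf : B g (t.mulVec w) f = 0
    · have hz := hf.add he
      obtain ⟨t1, h1, h2, h3⟩ := exists_tr htv hw' hz (by
        rw [map_add, hwf, hwe]; norm_num)
      obtain ⟨t2, h4, h5, h6⟩ := exists_tr htv hz hf (by
        rw [map_add, LinearMap.add_apply, B_self, hef]; norm_num)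
      refine ⟨t2 * t1, h4.mul hmul h1, ?_, ?_⟩
      · rw [← Matrix.mulVec_mulVec, h3 e (by rw [map_add, hew, hef, B_self, add_zero]),
          h6 e (by rw [map_add, B_self, add_zero])]
      · rw [← Matrix.mulVec_mulVec, h2, h5]
    · obtain ⟨t1, h1, h2, h3⟩ := exists_tr htv hw' hf hwf
      exact ⟨t1, h1, h3 e (by rw [hew, hef]), h2⟩
  exact ⟨s * t, hs.mul hmul ht, by rw [← Matrix.mulVec_mulVec, htve, hse],
    by rw [← Matrix.mulVec_mulVec, hsw]⟩

end Gen

theorem gen {g : ℕ} {κ : Type} [DecidableEq κ] {col : Fin g → κ} {tor : Finset κ}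
    (P : Matrix (L2 g) (L2 g) ℂ → Prop) (hmul : ∀ X Z, P X → P Z → P (X * Z))
    (htv : ∀ c ∉ tor, ∀ v : L2 g → ℂ, Bk col c v → ∀ a : ℂ, P (1 + a • tv v))
    (hdiag : ∀ (d : L2 g → ℂ) (m : ℂ), m ≠ 0 → (∀ i, d (Sum.inl i) * d (Sum.inr i) = m) →
      P (Matrix.diagonal d)) :
    ∀ (c : ℂ) (X : Matrix (L2 g) (L2 g) ℂ), c ≠ 0 → SimT col tor c X → P X := by
  have hP1 : P 1 := by
    rw [← Matrix.diagonal_one]
    exact hdiag _ 1 one_ne_zero fun i => one_mul 1
  have hsing : ∀ t : L2 g, Bk col (col (pr t)) (Pi.single t (1 : ℂ)) := by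
    intro t x hx
    rw [Pi.single_eq_of_ne]
    rintro rfl
    exact hx rfl
  -- the case of multiplier one and identity on the torus blocks
  have key : ∀ X : Matrix (L2 g) (L2 g) ℂ, Sim col 1 X →
      (∀ r, col (pr r) ∈ tor → X.mulVec (Pi.single r 1) = Pi.single r 1) → P X := by
    intro X hX hXt
    have claim : ∀ A : Finset (Fin g), ∃ h, GG col P (fun i => col i ∈ tor) h ∧
        ∀ r, (col (pr r) ∈ tor ∨ pr r ∈ A) → (h * X).mulVec (Pi.single r 1) = Pi.single r 1 := by
      intro A
      induction A using Finset.induction_on with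
      | empty =>
        refine ⟨1, ⟨?_, fun r _ => Matrix.one_mulVec _, 1, Matrix.one_mul _, hP1⟩, fun r hr => ?_⟩
        · have := sim_diag (col := col) (d := fun _ : L2 g => (1 : ℂ)) (m := 1)
            fun i => one_mul 1
          rwa [Matrix.diagonal_one] at this
        · rw [Matrix.one_mul]
          rcases hr with hr | hr
          · exact hXt r hr
          · simp at hr
      | insert i A hi ih =>
        obtain ⟨h, hh, hfix⟩ := ih
        by_cases hit : col i ∈ tor
        · refine ⟨h, hh, fun r hr => hfix r ?_⟩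
          rcases hr with hr | hr
          · exact Or.inl hr
          · rcases Finset.mem_insert.1 hr with hr | hr
            · left; rw [hr]; exact hit
            · exact Or.inr hr
        · have hY : Sim col 1 (h * X) := by
            have := sim_mul hh.sim hX
            rwa [one_mul] at this
          have hpr : ∀ (s r : L2 g), pr s = i → (col (pr r) ∈ tor ∨ pr r ∈ A) → pr r ≠ pr s := by
            rintro s r hs (hr | hr) h1
            · exact hit (by rw [← hs, ← h1]; exact hr)
            · exact hi (by rw [← hs, ← h1]; exact hr)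
          have hWe : ∀ s : L2 g, pr s = i →
              WW col (col i) (fun j => col j ∈ tor ∨ j ∈ A) (Pi.single s 1) := by
            intro s hs
            refine ⟨by rw [← hs]; exact hsing s, fun r hr => ?_⟩
            rw [B_single, J_zero (hpr s r hs hr)]
          have hWY : ∀ s : L2 g, pr s = i →
              WW col (col i) (fun j => col j ∈ tor ∨ j ∈ A) ((h * X).mulVec (Pi.single s 1)) := by
            intro s hs
            refine ⟨sim_blk hY (hWe s hs).1, fun r hr => ?_⟩
            rw [← hfix r hr, B_map hY, (hWe s hs).2 r hr, mul_zero]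
          obtain ⟨t, ht, h1, h2⟩ := step (P := P) hmul (htv (col i) hit) (hWY (Sum.inl i) rfl)
            (hWY (Sum.inr i) rfl) (hWe (Sum.inl i) rfl) (hWe (Sum.inr i) rfl)
            (by rw [B_map hY, B_single, J_rl, if_pos rfl, one_mul])
            (by rw [B_single, J_rl, if_pos rfl])
          refine ⟨t * h, (ht.mono fun j hj => Or.inl hj).mul hmul hh, fun r hr => ?_⟩
          rw [Matrix.mul_assoc, ← Matrix.mulVec_mulVec]
          by_cases hri : pr r = i
          · rcases r with j | j
            · have : j = i := hri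
              rw [this, h1]
            · have : j = i := hri
              rw [this, h2]
          · have hr' : col (pr r) ∈ tor ∨ pr r ∈ A := by
              rcases hr with hr | hr
              · exact Or.inl hr
              · rcases Finset.mem_insert.1 hr with hr | hr
                · exact absurd hr hri
                · exact Or.inr hr
            rw [hfix r hr', ht.fix r hr']
    obtain ⟨h, hh, hfix⟩ := claim Finset.univ
    obtain ⟨h', h1, h2⟩ := hh.inv
    have h3 : h * X = 1 := mat_ext fun r => by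
      rw [hfix r (Or.inr (Finset.mem_univ _)), Matrix.one_mulVec]
    have h4 : X = h' := by
      calc X = h' * h * X := by rw [h1, Matrix.one_mul]
        _ = h' := by rw [Matrix.mul_assoc, h3, Matrix.mul_one]
    rw [h4]
    exact h2
  intro m X hm hX
  let d : L2 g → ℂ := fun r => if col (pr r) ∈ tor then X r r else Sum.elim (fun _ => 1)
    (fun _ => m) r
  have hd : ∀ i, d (Sum.inl i) * d (Sum.inr i) = m := by
    intro i
    by_cases hi : col i ∈ tor
    · have h1 := hX.mul_swap (Sum.inl i) hi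
      have h2 : col (pr (Sum.inl i : L2 g)) ∈ tor := hi
      have h3 : col (pr (Sum.inr i : L2 g)) ∈ tor := hi
      simp only [d, if_pos h2, if_pos h3]
      exact h1
    · have h2 : ¬ col (pr (Sum.inl i : L2 g)) ∈ tor := hi
      have h3 : ¬ col (pr (Sum.inr i : L2 g)) ∈ tor := hi
      simp only [d, if_neg h2, if_neg h3, Sum.elim_inl, Sum.elim_inr, one_mul]
  have hd0 : ∀ r, d r ≠ 0 := by
    rintro (i | i) h0
    · exact hm (by rw [← hd i, h0, zero_mul])
    · exact hm (by rw [← hd i, h0, mul_zero])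
  have hd' : ∀ i, (d (Sum.inl i))⁻¹ * (d (Sum.inr i))⁻¹ = m⁻¹ := by
    intro i
    rw [← hd i, mul_inv]
  have h1 : Sim col 1 (X * Matrix.diagonal fun r => (d r)⁻¹) := by
    have := sim_mul hX.sim (sim_diag (col := col) (d := fun r => (d r)⁻¹) hd')
    rwa [mul_inv_cancel₀ hm] at this
  have h2 : X = X * Matrix.diagonal (fun r => (d r)⁻¹) * Matrix.diagonal d := by
    rw [Matrix.mul_assoc, Matrix.diagonal_mul_diagonal]
    have : (Matrix.diagonal fun i => (d i)⁻¹ * d i) = (1 : Matrix (L2 g) (L2 g) ℂ) := by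
      rw [← Matrix.diagonal_one]
      congr 1
      funext i
      exact inv_mul_cancel₀ (hd0 i)
    rw [this, Matrix.mul_one]
  rw [h2]
  refine hmul _ _ (key _ h1 fun r hr => ?_) (hdiag d m hm hd)
  funext s
  rw [Matrix.mulVec_single_one, Matrix.col_apply, Matrix.mul_diagonal]
  by_cases hsr : s = r
  · subst hsr
    have h3 : d s = X s s := by simp only [d, if_pos hr]
    rw [Pi.single_eq_same, h3, mul_inv_cancel₀ (h3 ▸ hd0 s)]
  · rw [Pi.single_eq_of_ne hsr, hX.diag' s r hsr hr, zero_mul]

end Pool.Agent.Helper71.OP
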