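import Pool.Agent.Helper71.OP.Root

/-!
# Strong irreducibility gives all root vectors (block OP-IRR)

Fix the class `c`.  Call `A ⊆ {r | cl r = c}` closed if `Y r s = 0` for all `Y ∈ L`, `s ∈ A`,
`r ∉ A`, and let `VA = {v | v r = 0 for r ∉ A}`.  Let `S` be the set of all `VA`, `A` closed,
nonempty and not all of the class.  `S` is finite, its elements are proper nonzero subspaces of
`blk cl c`.  It is permuted by `𝓜`: let `X ∈ 𝓜` with inverse `X'` and `Q = X (VA)`.  `Q` lies in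
`blk cl c`, and `Q` is stable under `L`, as `Y X v = X (X' Y X) v`.  In particular it is
stable under `diagonal t`, `t ∈ T`, so by `extract_vec` and `Sep.one` (within the class) it
is `V_{A'}` for `A' = {r | Pi.single r 1 ∈ Q}`.  `A'` is closed (apply `Y` to `Pi.single s 1` and
use that a vector of `Q` vanishes outside of `A'`), not empty (`X` is injective), and not all of
the class (otherwise `Q = blk cl c`, and `X` maps `blk cl c` to itself injectively, so
`VA = blk cl c`).  By strong irreducibility `S` is empty.  Now for `s` in the class let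
`A = {r | cl r = c ∧ (r = s ∨ rt r s ∈ L)}`.  It is closed: let `Y ∈ L`, `s' ∈ A`, `r ∉ A`,
`Y r s' ≠ 0`; then `cl r = c` (`Y ∈ gsp cl`), `r ≠ s`, `r ≠ s'` and `rt r s' ∈ L` by
`rt_mem_of_entry`; so `rt r s ∈ L` (if `s' ≠ s` by `rt_trans`), a contradiction.  So `A` is
the whole class.
-/

set_option autoImplicit false

namespace Pool.Agent.Helper71.OP

open Function Pool.Agent.Helper48.GC8

variable {g : ℕ} {κ : Type} {cl : L2 g → κ}

/-- the vectors which vanish outside of `A` -/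
private def vs (A : Set (L2 g)) : Submodule ℂ (L2 g → ℂ) where
  carrier := {v | ∀ r, r ∉ A → v r = 0}
  add_mem' := by
    intro v w hv hw r hr
    rw [Pi.add_apply, hv r hr, hw r hr, add_zero]
  zero_mem' := fun _ _ => rfl
  smul_mem' := by
    intro a v hv r hr
    rw [Pi.smul_apply, hv r hr, smul_zero]

private lemma mem_vs {A : Set (L2 g)} {v : L2 g → ℂ} : v ∈ vs A ↔ ∀ r, r ∉ A → v r = 0 := Iff.rfl

private lemma single_mem_vs {A : Set (L2 g)} {s : L2 g} (hs : s ∈ A) (z : ℂ) :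
    (Pi.single s z : L2 g → ℂ) ∈ vs A := by
  intro r hr
  have h : r ≠ s := fun h => hr (h ▸ hs)
  rw [Pi.single_eq_of_ne h]

private lemma single_of_mem_vs {A : Set (L2 g)} {s : L2 g}
    (h : (Pi.single s 1 : L2 g → ℂ) ∈ vs A) : s ∈ A := by
  by_contra hs
  have := h s hs
  rw [Pi.single_eq_same] at this
  exact one_ne_zero this

/-- closed sets of letters -/
private def Cls (L : Submodule ℂ (Matrix (L2 g) (L2 g) ℂ)) (A : Set (L2 g)) : Prop :=
  ∀ Y ∈ L, ∀ s ∈ A, ∀ r, r ∉ A → Y r s = 0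

private lemma vs_stable {L : Submodule ℂ (Matrix (L2 g) (L2 g) ℂ)} {A : Set (L2 g)} (hA : Cls L A)
    {Y : Matrix (L2 g) (L2 g) ℂ} (hY : Y ∈ L) {v : L2 g → ℂ} (hv : v ∈ vs A) : Y.mulVec v ∈ vs A := by
  intro r hr
  rw [Matrix.mulVec, dotProduct]
  refine Finset.sum_eq_zero fun s _ => ?_
  by_cases hs : s ∈ A
  · rw [hA Y hY s hs r hr, zero_mul]
  · rw [hv s hs, mul_zero]

private lemma blk_stable {c : κ} {X : Matrix (L2 g) (L2 g) ℂ} (hX : ∀ r s, cl r ≠ cl s → X r s = 0)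
    {v : L2 g → ℂ} (hv : v ∈ blk cl c) : X.mulVec v ∈ blk cl c := by
  intro r hr
  rw [Matrix.mulVec, dotProduct]
  refine Finset.sum_eq_zero fun s _ => ?_
  by_cases hs : cl s = c
  · rw [hX r s (by rw [hs]; exact hr), zero_mul]
  · rw [hv s hs, mul_zero]

private lemma vs_le_blk {c : κ} {A : Set (L2 g)} (hA : ∀ r ∈ A, cl r = c) : vs A ≤ blk cl c :=
  fun _ hv r hr => hv r fun h => hr (hA r h)

/-- a stable subspace of a block is spanned by letters -/
private lemma stable_eq {T : Set (L2 g → ℂ)} (hsep : Sep cl T) {c : κ}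
    {L : Submodule ℂ (Matrix (L2 g) (L2 g) ℂ)} (hTL : ∀ t ∈ T, Matrix.diagonal t ∈ L)
    {Q : Submodule ℂ (L2 g → ℂ)} (hQb : Q ≤ blk cl c) (hQ : ∀ Y ∈ L, ∀ v ∈ Q, Y.mulVec v ∈ Q) :
    (∀ v ∈ Q, ∀ r, v r ≠ 0 → (Pi.single r 1 : L2 g → ℂ) ∈ Q) ∧
      Q = vs {r | (Pi.single r 1 : L2 g → ℂ) ∈ Q} ∧ Cls L {r | (Pi.single r 1 : L2 g → ℂ) ∈ Q} ∧
      ∀ r, (Pi.single r 1 : L2 g → ℂ) ∈ Q → cl r = c := by
  have h1 : ∀ v ∈ Q, ∀ r, v r ≠ 0 → (Pi.single r 1 : L2 g → ℂ) ∈ Q := by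
    intro v hv r hr
    have hc : ∀ r', v r' ≠ 0 → cl r' = c := by
      intro r' hr'
      by_contra h
      exact hr' (hQb hv r' h)
    have h2 := extract_vec Q T (fun t ht v hv => ?_) hv r (fun r' hne hr' => ?_)
    · have h3 : (Pi.single r 1 : L2 g → ℂ) = (v r)⁻¹ • (Pi.single r (v r) : L2 g → ℂ) := by
        rw [← Pi.single_smul, smul_eq_mul, inv_mul_cancel₀ hr]
      rw [h3]
      exact Q.smul_mem _ h2
    · have h4 := hQ _ (hTL t ht) v hv
      have h5 : (Matrix.diagonal t).mulVec v = fun r => t r * v r := by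
        funext r
        rw [Matrix.mulVec_diagonal]
      rw [h5] at h4
      exact h4
    · exact hsep.one r' r hne ((hc r' hr').trans (hc r hr).symm)
  refine ⟨h1, ?_, ?_, ?_⟩
  · refine le_antisymm ?_ ?_
    · intro v hv r hr
      by_contra h
      exact hr (h1 v hv r h)
    · intro v hv
      have h2 : v = ∑ r, v r • (Pi.single r 1 : L2 g → ℂ) := by
        funext s
        rw [Finset.sum_apply]
        simp [Pi.single_apply]
      rw [h2]
      refine Q.sum_mem fun r _ => ?_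
      by_cases hr : (Pi.single r 1 : L2 g → ℂ) ∈ Q
      · exact Q.smul_mem _ hr
      · rw [hv r hr, zero_smul]
        exact Q.zero_mem
  · intro Y hY s hs r hr
    by_contra h
    refine hr (h1 _ (hQ Y hY _ hs) r ?_)
    rw [Matrix.mulVec_single_one]
    exact h
  · intro r hr
    by_contra h
    have h2 := hQb hr r h
    rw [Pi.single_eq_same] at h2
    exact one_ne_zero h2

theorem root_mem {T : Set (L2 g → ℂ)} (hsep : Sep cl T)
    {L : Submodule ℂ (Matrix (L2 g) (L2 g) ℂ)} (hL : L ≤ gsp cl)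
    (hbr : ∀ Y ∈ L, ∀ Z ∈ L, Y * Z - Z * Y ∈ L) (hTL : ∀ t ∈ T, Matrix.diagonal t ∈ L)
    (𝓜 : Set (Matrix (L2 g) (L2 g) ℂ))
    (h𝓜 : ∀ X ∈ 𝓜, (∀ r s, cl r ≠ cl s → X r s = 0) ∧ ∃ X', X * X' = 1 ∧ X' * X = 1 ∧
      (∀ Y ∈ L, X * Y * X' ∈ L) ∧ ∀ Y ∈ L, X' * Y * X ∈ L)
    (c : κ) (hirr : StrIrr cl 𝓜 c) {r s : L2 g} (hrs : r ≠ s) (hr : cl r = c) (hs : cl s = c) :
    rt r s ∈ L := by
  have hT : ∀ t ∈ T, ∀ Y ∈ L, Matrix.diagonal t * Y - Y * Matrix.diagonal t ∈ L :=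
    fun t ht Y hY => hbr _ (hTL t ht) Y hY
  have hS := hirr {Q | ∃ A : Set (L2 g), Cls L A ∧ (∀ r ∈ A, cl r = c) ∧ A.Nonempty ∧
    (∃ r, cl r = c ∧ r ∉ A) ∧ Q = vs A} ?_ ?_ ?_
  · set A : Set (L2 g) := {r | cl r = c ∧ (r = s ∨ rt r s ∈ L)} with hA
    have hsA : s ∈ A := ⟨hs, Or.inl rfl⟩
    have hcls : Cls L A := by
      intro Y hY s' hs' r' hr'
      by_contra h
      have h1 : cl r' = cl s' := by
        by_contra hne
        exact h ((hL hY).2 r' s' hne)
      have h2 : cl r' = c := h1.trans hs'.1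
      have h3 : r' ≠ s := fun e => hr' (by rw [e]; exact hsA)
      have h4 : r' ≠ s' := fun e => hr' (by rw [e]; exact hs')
      have h5 : rt r' s' ∈ L := rt_mem_of_entry hsep hL hT hY h4 h1 h
      apply hr'
      refine ⟨h2, Or.inr ?_⟩
      by_cases h6 : s' = s
      · rw [← h6]; exact h5
      · have h7 : rt s' s ∈ L := hs'.2.resolve_left h6
        exact rt_trans hsep hL hT hbr h4 h6 h3 h1 (hs'.1.trans hs.symm) h5 h7
    by_contra hcon
    have hrA : r ∉ A := by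
      rintro ⟨_, h | h⟩
      · exact hrs h
      · exact hcon h
    have hmem : vs A ∈ {Q | ∃ A : Set (L2 g), Cls L A ∧ (∀ r ∈ A, cl r = c) ∧ A.Nonempty ∧
        (∃ r, cl r = c ∧ r ∉ A) ∧ Q = vs A} :=
      ⟨A, hcls, fun r hr => hr.1, ⟨s, hsA⟩, ⟨r, hr, hrA⟩, rfl⟩
    rw [hS] at hmem
    exact hmem
  · refine (Set.finite_range (vs : Set (L2 g) → Submodule ℂ (L2 g → ℂ))).subset ?_
    rintro Q ⟨A, _, _, _, _, rfl⟩
    exact ⟨A, rfl⟩
  · rintro Q ⟨A, hA, hAc, ⟨s0, hs0⟩, ⟨r0, hr0c, hr0⟩, rfl⟩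
    refine ⟨?_, lt_of_le_of_ne (vs_le_blk hAc) ?_⟩
    · intro h
      have h1 : (Pi.single s0 1 : L2 g → ℂ) ∈ vs A := single_mem_vs hs0 1
      rw [h, Submodule.mem_bot] at h1
      have h2 := congrFun h1 s0
      rw [Pi.single_eq_same] at h2
      exact one_ne_zero h2
    · intro h
      apply hr0
      apply single_of_mem_vs
      rw [h]
      intro r' hr'
      have : r' ≠ r0 := fun e => hr' (by rw [e]; exact hr0c)
      rw [Pi.single_eq_of_ne this]
  · rintro X hX Q ⟨A, hA, hAc, ⟨s0, hs0⟩, ⟨r0, hr0c, hr0⟩, rfl⟩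
    obtain ⟨hXb, X', hXX', hX'X, -, hconj⟩ := h𝓜 X hX
    set Q := (vs A).map (Matrix.toLin' X) with hQ
    have hmemQ : ∀ u ∈ vs A, X.mulVec u ∈ Q := by
      intro u hu
      rw [hQ, Submodule.mem_map]
      exact ⟨u, hu, Matrix.toLin'_apply X u⟩
    have hQb : Q ≤ blk cl c := by
      intro v hv
      rw [hQ, Submodule.mem_map] at hv
      obtain ⟨u, hu, rfl⟩ := hv
      rw [Matrix.toLin'_apply]
      exact blk_stable hXb (vs_le_blk hAc hu)
    have hQs : ∀ Y ∈ L, ∀ v ∈ Q, Y.mulVec v ∈ Q := by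
      intro Y hY v hv
      rw [hQ, Submodule.mem_map] at hv
      obtain ⟨u, hu, rfl⟩ := hv
      rw [Matrix.toLin'_apply]
      have h1 : Y.mulVec (X.mulVec u) = X.mulVec ((X' * Y * X).mulVec u) := by
        rw [Matrix.mulVec_mulVec, Matrix.mulVec_mulVec, ← Matrix.mul_assoc, ← Matrix.mul_assoc, hXX', Matrix.one_mul]
      rw [h1]
      exact hmemQ _ (vs_stable hA (hconj Y hY) hu)
    obtain ⟨h1, h2, h3, h4⟩ := stable_eq hsep hTL hQb hQs
    refine ⟨{r | (Pi.single r 1 : L2 g → ℂ) ∈ Q}, h3, h4, ?_, ?_, h2⟩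
    · have h5 := hmemQ _ (single_mem_vs hs0 1)
      have h6 : X.mulVec (Pi.single s0 1) ≠ 0 := by
        intro h
        have h7 : X'.mulVec (X.mulVec (Pi.single s0 1)) = 0 := by rw [h, Matrix.mulVec_zero]
        rw [Matrix.mulVec_mulVec, hX'X, Matrix.one_mulVec] at h7
        have h8 := congrFun h7 s0
        rw [Pi.single_eq_same] at h8
        exact one_ne_zero h8
      obtain ⟨r', hr'⟩ := Function.ne_iff.1 h6
      exact ⟨r', h1 _ h5 r' hr'⟩
    · by_contra hcon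
      push Not at hcon
      have h5 : blk cl c ≤ Q := by
        rw [h2]
        intro v hv r' hr'
        by_cases hc : cl r' = c
        · exact absurd (hcon r' hc) hr'
        · exact hv r' hc
      have h6 : (Pi.single r0 1 : L2 g → ℂ) ∈ blk cl c := by
        intro r' hr'
        have : r' ≠ r0 := fun e => hr' (by rw [e]; exact hr0c)
        rw [Pi.single_eq_of_ne this]
      have h7 := h5 (blk_stable hXb h6)
      rw [hQ, Submodule.mem_map] at h7
      obtain ⟨u, hu, hu2⟩ := h7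
      rw [Matrix.toLin'_apply] at hu2
      have h8 : X'.mulVec (X.mulVec u) = X'.mulVec (X.mulVec (Pi.single r0 1)) := by rw [hu2]
      rw [Matrix.mulVec_mulVec, Matrix.mulVec_mulVec, hX'X, Matrix.one_mulVec, Matrix.one_mulVec] at h8
      rw [h8] at hu
      exact hr0 (single_of_mem_vs hu)

end Pool.Agent.Helper71.OP
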