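import Pool.Agent.Helper71.OP.Base

/-!
# The stabilizer Lie algebra of a subspace of tensors (block OP-LIE)

`rho univ X = act (fun _ => X)` is the action on all positions, `der univ Y = ∑ₖ act (ms k Y)`.

* `lieStab_bracket`: `der [Y, Z] = [der Y, der Z]`: check on `act (ms k Y) * act (ms l Z)` with
  `act_mul`: for `k ≠ l` the two factors commute, for `k = l` the product is `act (ms k (Y * Z))`.
* `rho_inv_mem`: `rho X` is injective on `U` (left inverse `rho X'`, use `rho_mul`, `rho_one`), `U`
  is finite-dimensional, so `rho X` maps `U` onto `U`; so for `u ∈ U` write `u = rho X v`, then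
  `rho X' u = v`.
* `lieStab_conj`: `der (X Y X') (rho X v) = rho X (der Y v)` (from `act_mul`, as
  `ms k (X Y X') * (fun _ => X) = (fun _ => X) * ms k Y` when `X' X = 1`), and `u = rho X v` with
  `v = rho X' u ∈ U` (`X X' = 1` follows from `X' X = 1`).
* `rho_exp_mem`: the operators `N k = act (ms k Y)` commute and have square `0`, and
  `rho R (1 + Y) = ∏_{k ∈ R} (1 + N k) = IsNilpotent.exp (der R Y)` by induction on `R`
  (`IsNilpotent.exp_add_of_commute`, `IsNilpotent.exp_eq_sum`); `IsNilpotent.exp a` is a finite sum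
  of multiples of powers of `a`, which preserve `U`.
-/

set_option autoImplicit false

namespace Pool.Agent.Helper71.OP

open Function Pool.Agent.Helper48.GC8

variable {ι I : Type} [Fintype ι] [DecidableEq ι] [Fintype I] [DecidableEq I]
  {U : Submodule ℂ (Ten ι I)}

private lemma ms_mul_ms (k : ι) (Y Z : Matrix I I ℂ) : ms k Y * ms k Z = ms k (Y * Z) := by
  funext j
  by_cases hj : j = k
  · subst hj
    rw [Pi.mul_apply, ms_self, ms_self, ms_self]
  · rw [Pi.mul_apply, ms_ne hj, ms_ne hj, ms_ne hj, one_mul]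

private lemma ms_comm {k l : ι} (h : k ≠ l) (Y Z : Matrix I I ℂ) :
    ms k Y * ms l Z = ms l Z * ms k Y := by
  funext j
  by_cases hj : j = k
  · subst hj
    rw [Pi.mul_apply, Pi.mul_apply, ms_self, ms_ne h, one_mul, mul_one]
  · rw [Pi.mul_apply, Pi.mul_apply, ms_ne hj, one_mul, mul_one]

private lemma act_ms_comm {k l : ι} (h : k ≠ l) (Y Z : Matrix I I ℂ) :
    act (ms k Y) * act (ms l Z) = act (ms l Z) * act (ms k Y) := by
  rw [← act_mul, ← act_mul, ms_comm h]

private lemma der_comm (Y Z : Matrix I I ℂ) :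
    (der Finset.univ Y * der Finset.univ Z : Module.End ℂ (Ten ι I)) -
      der Finset.univ Z * der Finset.univ Y = der Finset.univ (Y * Z) - der Finset.univ (Z * Y) := by
  unfold der
  have h1 : (∑ k : ι, act (ms k Z)) * (∑ k : ι, act (ms k Y)) =
      ∑ k : ι, ∑ l : ι, (act (ms l Z) * act (ms k Y) : Module.End ℂ (Ten ι I)) := by
    rw [Finset.sum_mul_sum, Finset.sum_comm]
  rw [Finset.sum_mul_sum, h1, ← Finset.sum_sub_distrib, ← Finset.sum_sub_distrib]
  refine Finset.sum_congr rfl fun k _ => ?_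
  rw [← Finset.sum_sub_distrib, Finset.sum_eq_single k]
  · rw [← act_mul, ← act_mul, ms_mul_ms, ms_mul_ms]
  · intro l _ hl
    rw [act_ms_comm (Ne.symm hl), sub_self]
  · intro h
    exact absurd (Finset.mem_univ k) h

lemma lieStab_bracket {Y Z : Matrix I I ℂ} (hY : Y ∈ LieStab U) (hZ : Z ∈ LieStab U) :
    Y * Z - Z * Y ∈ LieStab U := by
  intro u hu
  have h1 : (der Finset.univ (Y * Z - Z * Y) : Module.End ℂ (Ten ι I)) =
      der Finset.univ Y * der Finset.univ Z - der Finset.univ Z * der Finset.univ Y := by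
    rw [der_comm, sub_eq_add_neg, ← neg_one_smul ℂ (Z * Y), der_add, der_smul, sub_eq_add_neg]
    refine congrArg (fun t => der Finset.univ (Y * Z) + t) ?_
    exact neg_one_smul ℂ (der Finset.univ (Z * Y) : Module.End ℂ (Ten ι I))
  rw [h1, LinearMap.sub_apply, Module.End.mul_apply, Module.End.mul_apply]
  exact U.sub_mem (hY _ (hZ u hu)) (hZ _ (hY u hu))

lemma rho_inv_mem {X X' : Matrix I I ℂ} (h : X' * X = 1)
    (hX : ∀ u ∈ U, rho Finset.univ X u ∈ U) : ∀ u ∈ U, rho Finset.univ X' u ∈ U := by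
  have hinv : ∀ v : Ten ι I, rho Finset.univ X' (rho Finset.univ X v) = v := by
    intro v
    rw [← Module.End.mul_apply, ← rho_mul, h, rho_one, Module.End.one_apply]
  have hinj : Function.Injective ((rho Finset.univ X : Module.End ℂ (Ten ι I)).restrict hX) := by
    intro v w hvw
    have h1 : rho Finset.univ X (v : Ten ι I) = rho Finset.univ X (w : Ten ι I) :=
      congrArg Subtype.val hvw
    apply Subtype.ext
    rw [← hinv v, h1, hinv w]
  have hsurj := LinearMap.surjective_of_injective hinj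
  intro u hu
  obtain ⟨v, hv⟩ := hsurj ⟨u, hu⟩
  have h2 : rho Finset.univ X (v : Ten ι I) = u := congrArg Subtype.val hv
  rw [← h2, hinv]
  exact v.2

private lemma der_rho {X X' : Matrix I I ℂ} (h : X' * X = 1) (Y : Matrix I I ℂ) :
    (der Finset.univ (X * Y * X') * rho Finset.univ X : Module.End ℂ (Ten ι I)) =
      rho Finset.univ X * der Finset.univ Y := by
  unfold der rho
  rw [Finset.sum_mul, Finset.mul_sum]
  refine Finset.sum_congr rfl fun k _ => ?_
  rw [← act_mul, ← act_mul]
  congr 1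
  funext j
  by_cases hj : j = k
  · subst hj
    rw [Pi.mul_apply, Pi.mul_apply, ms_self, ms_self]
    simp only [Finset.mem_univ, if_true]
    rw [mul_assoc, h, mul_one]
  · rw [Pi.mul_apply, Pi.mul_apply, ms_ne hj, ms_ne hj, one_mul, mul_one]

lemma lieStab_conj {X X' : Matrix I I ℂ} (h : X' * X = 1)
    (hX : ∀ u ∈ U, rho Finset.univ X u ∈ U) {Y : Matrix I I ℂ} (hY : Y ∈ LieStab U) :
    X * Y * X' ∈ LieStab U := by
  intro u hu
  have h' : X * X' = 1 := mul_eq_one_comm.mp h
  have hv := rho_inv_mem h hX u hu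
  have h1 : rho Finset.univ X (rho Finset.univ X' u) = u := by
    rw [← Module.End.mul_apply, ← rho_mul, h', rho_one, Module.End.one_apply]
  rw [← h1, ← Module.End.mul_apply, der_rho h, Module.End.mul_apply]
  exact hX _ (hY _ hv)

private lemma act_ms_one_add (k : ι) (Y : Matrix I I ℂ) :
    (act (ms k (1 + Y)) : Module.End ℂ (Ten ι I)) = 1 + act (ms k Y) := by
  refine LinearMap.ext fun u => funext fun x => ?_
  rw [LinearMap.add_apply, Pi.add_apply, act_single, act_single, Module.End.one_apply]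
  simp only [Matrix.add_apply, add_mul, Finset.sum_add_distrib]
  congr 1
  rw [Finset.sum_eq_single (x k)]
  · rw [Matrix.one_apply_eq, one_mul, update_eq_self]
  · intro r _ hr
    rw [Matrix.one_apply_ne (Ne.symm hr), zero_mul]
  · intro hk
    exact absurd (Finset.mem_univ _) hk

private lemma act_ms_sq {Y : Matrix I I ℂ} (h : Y * Y = 0) (k : ι) :
    (act (ms k Y) : Module.End ℂ (Ten ι I)) ^ 2 = 0 := by
  rw [sq, ← act_mul, ms_mul_ms, h]
  refine LinearMap.ext fun u => funext fun x => ?_
  rw [act_single]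
  simp

private lemma der_nil {Y : Matrix I I ℂ} (h : Y * Y = 0) (R : Finset ι) :
    IsNilpotent (der R Y : Module.End ℂ (Ten ι I)) ∧
      rho R (1 + Y) = IsNilpotent.exp (der R Y : Module.End ℂ (Ten ι I)) := by
  induction R using Finset.induction_on with
  | empty =>
    have h0 : (der ∅ Y : Module.End ℂ (Ten ι I)) = 0 := by
      unfold der
      rw [Finset.sum_empty]
    rw [h0]
    refine ⟨IsNilpotent.zero, ?_⟩
    rw [IsNilpotent.exp_zero, ← act_one]
    unfold rho
    congr 1
  | insert k R hk ih =>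
    have hN : IsNilpotent (act (ms k Y) : Module.End ℂ (Ten ι I)) := ⟨2, act_ms_sq h k⟩
    have hsum : (der (insert k R) Y : Module.End ℂ (Ten ι I)) = act (ms k Y) + der R Y := by
      unfold der
      rw [Finset.sum_insert hk]
    have hc : Commute (act (ms k Y) : Module.End ℂ (Ten ι I)) (der R Y) := by
      unfold der
      refine Commute.sum_right _ _ _ fun l hl => ?_
      have hkl : k ≠ l := fun e => hk (e ▸ hl)
      exact act_ms_comm hkl Y Y
    rw [hsum]
    refine ⟨hc.isNilpotent_add hN ih.1, ?_⟩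
    rw [IsNilpotent.exp_add_of_commute hc hN ih.1, ← ih.2]
    have h1 : IsNilpotent.exp (act (ms k Y) : Module.End ℂ (Ten ι I)) = 1 + act (ms k Y) := by
      rw [IsNilpotent.exp_eq_sum (act_ms_sq h k)]
      simp [Finset.sum_range_succ]
    rw [h1, ← act_ms_one_add]
    unfold rho
    rw [← act_mul]
    congr 1
    funext j
    by_cases hj : j = k
    · subst hj
      rw [Pi.mul_apply, ms_self]
      simp [hk]
    · rw [Pi.mul_apply, ms_ne hj, one_mul]
      simp [hj]

lemma rho_exp_mem {Y : Matrix I I ℂ} (h : Y * Y = 0) (hY : Y ∈ LieStab U) :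
    ∀ u ∈ U, rho Finset.univ (1 + Y) u ∈ U := by
  intro u hu
  obtain ⟨⟨n, hn⟩, h2⟩ := der_nil (ι := ι) h Finset.univ
  rw [h2, IsNilpotent.exp_eq_sum hn, LinearMap.sum_apply]
  have h3 : ∀ i : ℕ, ((der Finset.univ Y : Module.End ℂ (Ten ι I)) ^ i) u ∈ U := by
    intro i
    induction i with
    | zero => simpa using hu
    | succ i ih =>
      rw [pow_succ', Module.End.mul_apply]
      exact hY _ ih
  refine U.sum_mem fun i _ => ?_
  rw [LinearMap.smul_apply]
  have h4 : ((i.factorial : ℚ)⁻¹ • ((der Finset.univ Y : Module.End ℂ (Ten ι I)) ^ i) u) =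
      (((i.factorial : ℚ)⁻¹ : ℚ) : ℂ) • ((der Finset.univ Y : Module.End ℂ (Ten ι I)) ^ i) u := by
    rw [Rat.cast_smul_eq_qsmul]
  rw [h4]
  exact U.smul_mem _ (h3 i)

end Pool.Agent.Helper71.OP
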