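import Mathlib

/-!
# Logarithms with prescribed values (block OP-LOG)

`ψ` is a homomorphism from the multiplicative group `ℂ ∖ {0}` to the additive group `ℂ`.
`exists_log`: the map `f : (J → ℤ) →+ Additive ℂˣ`, `k ↦ ∏ a j ^ k j` is injective (`hind`), and
`g : (J → ℤ) →+ ℂ`, `k ↦ ∑ k j * v j`; `ℂ` is divisible, so it is Baer (`Module.Baer.of_divisible` in
`Mathlib.Algebra.Category.Grp.Injective`), and `g` extends along `f` to `h : Additive ℂˣ →+ ℂ`
(`Module.Baer.extension_property_addMonoidHom`).  Put `ψ x = h (unit x)` for `x ≠ 0`.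
`exists_log_one`: the case of one element.
-/

set_option autoImplicit false

namespace Pool.Agent.Helper71.OP

/-- `ψ` is a homomorphism from `ℂ ∖ {0}` to `(ℂ, +)`. -/
def IsLog (ψ : ℂ → ℂ) : Prop := ∀ x y, x ≠ 0 → y ≠ 0 → ψ (x * y) = ψ x + ψ y

lemma IsLog.one {ψ : ℂ → ℂ} (h : IsLog ψ) : ψ 1 = 0 := by
  have h1 := h 1 1 one_ne_zero one_ne_zero
  rw [mul_one] at h1
  linear_combination -h1

lemma IsLog.div {ψ : ℂ → ℂ} (h : IsLog ψ) {x y : ℂ} (hx : x ≠ 0) (hy : y ≠ 0) :
    ψ (x / y) = ψ x - ψ y := by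
  have h1 := h (x / y) y (div_ne_zero hx hy) hy
  rw [div_mul_cancel₀ _ hy] at h1
  linear_combination -h1

lemma IsLog.prod {ψ : ℂ → ℂ} (h : IsLog ψ) {J : Type} (s : Finset J) (f : J → ℂ)
    (hf : ∀ j ∈ s, f j ≠ 0) : ψ (∏ j ∈ s, f j) = ∑ j ∈ s, ψ (f j) := by
  classical
  induction s using Finset.induction_on with
  | empty => simpa using h.one
  | insert a s ha ih =>
    rw [Finset.prod_insert ha, Finset.sum_insert ha, h _ _ (hf a (Finset.mem_insert_self a s))
      (Finset.prod_ne_zero_iff.2 fun j hj => hf j (Finset.mem_insert_of_mem hj)),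
      ih fun j hj => hf j (Finset.mem_insert_of_mem hj)]

theorem exists_log {J : Type} [Fintype J] (a : J → ℂ) (ha : ∀ j, a j ≠ 0)
    (hind : ∀ k : J → ℤ, ∏ j, a j ^ k j = 1 → k = 0) (v : J → ℂ) :
    ∃ ψ, IsLog ψ ∧ ∀ j, ψ (a j) = v j := by
  classical
  let u : J → ℂˣ := fun j => Units.mk0 (a j) (ha j)
  let f : (J → ℤ) →+ Additive ℂˣ :=
    { toFun := fun k => Additive.ofMul (∏ j, u j ^ k j)
      map_zero' := by simp
      map_add' := fun k l => by
        rw [← ofMul_mul]
        congr 1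
        rw [← Finset.prod_mul_distrib]
        refine Finset.prod_congr rfl fun j _ => ?_
        rw [Pi.add_apply, zpow_add] }
  have hfinj : Function.Injective f := by
    rw [injective_iff_map_eq_zero]
    intro k hk
    apply hind k
    have h1 : (∏ j, u j ^ k j : ℂˣ) = 1 := hk
    have h2 := congrArg (Units.val) h1
    simpa [u] using h2
  let g : (J → ℤ) →+ ℂ :=
    { toFun := fun k => ∑ j, (k j : ℂ) * v j
      map_zero' := by simp
      map_add' := fun k l => by
        rw [← Finset.sum_add_distrib]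
        refine Finset.sum_congr rfl fun j _ => ?_
        rw [Pi.add_apply, Int.cast_add, add_mul] }
  have hbaer : Module.Baer ℤ ℂ := Module.Baer.of_divisible ℂ
  obtain ⟨h, hh⟩ := hbaer.extension_property_addMonoidHom f hfinj g
  refine ⟨fun x => if hx : x ≠ 0 then h (Additive.ofMul (Units.mk0 x hx)) else 0, ?_, ?_⟩
  · intro x y hx hy
    simp only
    rw [dif_pos (mul_ne_zero hx hy), dif_pos hx, dif_pos hy, ← map_add, ← ofMul_mul]
    congr 2
    ext
    simp
  · intro j
    simp only
    rw [dif_pos (ha j)]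
    have h1 := DFunLike.congr_fun hh (Pi.single j (1 : ℤ))
    have h2 : f (Pi.single j (1 : ℤ)) = Additive.ofMul (Units.mk0 (a j) (ha j)) := by
      change Additive.ofMul (∏ i, u i ^ (Pi.single j (1 : ℤ) : J → ℤ) i) = _
      congr 1
      rw [Finset.prod_eq_single j]
      · simp [u]
      · intro b _ hb
        rw [Pi.single_eq_of_ne hb, zpow_zero]
      · intro hn
        exact absurd (Finset.mem_univ j) hn
    have h3 : g (Pi.single j (1 : ℤ)) = v j := by
      change ∑ i, (((Pi.single j (1 : ℤ) : J → ℤ) i : ℤ) : ℂ) * v i = _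
      rw [Finset.sum_eq_single j]
      · simp
      · intro b _ hb
        rw [Pi.single_eq_of_ne hb, Int.cast_zero, zero_mul]
      · intro hn
        exact absurd (Finset.mem_univ j) hn
    rw [AddMonoidHom.comp_apply, h2, h3] at h1
    exact h1

theorem exists_log_one {x : ℂ} (hx : x ≠ 0) (h : ∀ k : ℕ, 0 < k → x ^ k ≠ 1) :
    ∃ ψ, IsLog ψ ∧ ψ x = 1 := by
  obtain ⟨ψ, hψ, h1⟩ := exists_log (J := Unit) (fun _ => x) (fun _ => hx) (fun k hk => by
    rw [Finset.univ_unique, Finset.prod_singleton] at hk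
    funext i
    obtain rfl : i = default := Subsingleton.elim _ _
    rw [Pi.zero_apply]
    by_contra hne
    rcases Int.lt_or_gt_of_ne hne with h0 | h0
    · refine h (k default).natAbs (Int.natAbs_pos.2 hne) ?_
      have h2 : ((k default).natAbs : ℤ) = -(k default) := by omega
      rw [← zpow_natCast, h2, zpow_neg, hk, inv_one]
    · refine h (k default).natAbs (Int.natAbs_pos.2 hne) ?_
      have h2 : ((k default).natAbs : ℤ) = k default := by omega
      rw [← zpow_natCast, h2, hk]) (fun _ => 1)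
  exact ⟨ψ, hψ, h1 ()⟩

end Pool.Agent.Helper71.OP
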