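import Pool.Agent.Helper71.OP.Base

/-!
# Polynomials in the entries of a matrix as functionals on tensors (block OP-POLY)

Let `d` be the total degree of `f`.  For a matrix `X` let `w X : IP g → ℂ` be
`w X (inl (r, s)) = X r s`, `w X (inr ()) = 1`, and `W X : Ten (Fin d) (IP g)`,
`W X x = ∏ k, w X (x k)`.  Then `rho univ (pl Z) (W X) = W (Z * X)` (expand the product of sums,
`Finset.prod_univ_sum`).  There is a linear functional `F` on `Ten (Fin d) (IP g)` with
`F (W X) = eval X f` for all `X`: every monomial of degree `≤ d` is `∏ k, w X (x k)` for some word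
`x` (list its variables with multiplicity and fill up with `inr ()`); take sums.  Let `U` be the span
of all `W X`, `X ∈ Submonoid.closure 𝓜`.  It is stable under `rho univ (pl Z)`, `Z ∈ 𝓜`, so
under all `X` with `G X`; `W 1 ∈ U`, so `W X = rho univ (pl X) (W 1) ∈ U` and `F` vanishes on `U`.
-/

set_option autoImplicit false

namespace Pool.Agent.Helper71.OP

open Function Pool.Agent.Helper48.GC8
open scoped Kronecker

/-- the letters of a matrix -/
noncomputable def wl {g : ℕ} (X : Matrix (L2 g) (L2 g) ℂ) : IP g → ℂ :=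
  Sum.elim (fun p => X p.1 p.2) (fun _ => 1)

/-- the decomposable tensor of a matrix -/
noncomputable def WT {g : ℕ} (d : ℕ) (X : Matrix (L2 g) (L2 g) ℂ) : Ten (Fin d) (IP g) :=
  fun x => ∏ k, wl X (x k)

lemma pl_wl {g : ℕ} (Z X : Matrix (L2 g) (L2 g) ℂ) (i : IP g) :
    ∑ j, pl Z i j * wl X j = wl (Z * X) i := by
  rcases i with ⟨r, s⟩ | u
  · rw [Fintype.sum_sum_type]
    unfold pl wl
    simp only [Matrix.fromBlocks_apply₁₁, Matrix.fromBlocks_apply₁₂, Sum.elim_inl, Sum.elim_inr,
      Matrix.zero_apply, zero_mul, Finset.sum_const_zero, add_zero, Matrix.mul_apply,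
      Matrix.kroneckerMap_apply, Matrix.one_apply]
    rw [Fintype.sum_prod_type]
    refine Finset.sum_congr rfl fun i _ => ?_
    rw [Finset.sum_eq_single s]
    · simp
    · intro b _ hb
      simp [hb.symm]
    · simp
  · rw [Fintype.sum_sum_type]
    unfold pl wl
    simp

lemma rho_WT {g : ℕ} (d : ℕ) (Z X : Matrix (L2 g) (L2 g) ℂ) :
    rho Finset.univ (pl Z) (WT d X) = WT d (Z * X) := by
  funext x
  rw [rho_apply]
  unfold WT
  simp only [Finset.mem_univ, if_true]
  have h : ∀ k, wl (Z * X) (x k) = ∑ j, pl Z (x k) j * wl X j := fun k => (pl_wl Z X (x k)).symm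
  simp only [h]
  rw [Finset.prod_univ_sum, Fintype.piFinset_univ]
  refine Finset.sum_congr rfl fun y _ => ?_
  rw [Finset.prod_mul_distrib]

lemma exists_word {α : Type} (N : ℕ) (s : Multiset α) (hs : s.card ≤ N) :
    ∃ x : Fin N → α ⊕ Unit, ∀ w : α ⊕ Unit → ℂ, w (Sum.inr ()) = 1 →
      ∏ k, w (x k) = (s.map (fun a => w (Sum.inl a))).prod := by
  induction N generalizing s with
  | zero =>
    have h : s = 0 := by
      rw [← Multiset.card_eq_zero]
      omega
    subst h
    exact ⟨fun k => k.elim0, fun w _ => by simp⟩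
  | succ N ih =>
    rcases Multiset.empty_or_exists_mem s with h | ⟨a, ha⟩
    · subst h
      exact ⟨fun _ => Sum.inr (), fun w hw => by simp [hw]⟩
    · obtain ⟨t, rfl⟩ := Multiset.exists_cons_of_mem ha
      rw [Multiset.card_cons] at hs
      obtain ⟨x, hx⟩ := ih t (by omega)
      refine ⟨Fin.cons (Sum.inl a) x, fun w hw => ?_⟩
      rw [Fin.prod_univ_succ]
      simp only [Fin.cons_zero, Fin.cons_succ]
      rw [hx w hw, Multiset.map_cons, Multiset.prod_cons]

theorem poly_of_stable {g : ℕ} (G : Matrix (L2 g) (L2 g) ℂ → Prop)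
    (𝓜 : Set (Matrix (L2 g) (L2 g) ℂ))
    (h : ∀ (d : ℕ) (U : Submodule ℂ (Ten (Fin d) (IP g))),
      (∀ X ∈ 𝓜, ∀ u ∈ U, rho Finset.univ (pl X) u ∈ U) →
      ∀ X, G X → ∀ u ∈ U, rho Finset.univ (pl X) u ∈ U)
    (f : MvPolynomial (L2 g × L2 g) ℂ)
    (hf : ∀ X ∈ Submonoid.closure 𝓜, MvPolynomial.eval (fun p => X p.1 p.2) f = 0) :
    ∀ X, G X → MvPolynomial.eval (fun p => X p.1 p.2) f = 0 := by
  have hw : ∀ m ∈ f.support, ∃ x : Fin f.totalDegree → IP g, ∀ w : IP g → ℂ, w (Sum.inr ()) = 1 →
      ∏ k, w (x k) = ((Finsupp.toMultiset m).map (fun a => w (Sum.inl a))).prod := by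
    intro m hm
    refine exists_word _ _ ?_
    rw [Finsupp.card_toMultiset]
    exact MvPolynomial.le_totalDegree hm
  choose! xw hxw using hw
  let F : Ten (Fin f.totalDegree) (IP g) →ₗ[ℂ] ℂ :=
    { toFun := fun u => ∑ m ∈ f.support, f.coeff m * u (xw m)
      map_add' := fun u v => by
        simp only [Pi.add_apply, mul_add, Finset.sum_add_distrib]
      map_smul' := fun c u => by
        simp only [Pi.smul_apply, smul_eq_mul, RingHom.id_apply, Finset.mul_sum]
        refine Finset.sum_congr rfl fun m _ => ?_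
        ring }
  have hF : ∀ X : Matrix (L2 g) (L2 g) ℂ, F (WT f.totalDegree X) =
      MvPolynomial.eval (fun p => X p.1 p.2) f := by
    intro X
    rw [MvPolynomial.eval_eq]
    show ∑ m ∈ f.support, f.coeff m * WT f.totalDegree X (xw m) = _
    refine Finset.sum_congr rfl fun m hm => ?_
    congr 1
    unfold WT
    rw [hxw m hm (wl X) rfl, Finset.prod_multiset_map_count, Finsupp.toFinset_toMultiset]
    refine Finset.prod_congr rfl fun i _ => ?_
    rw [Finsupp.count_toMultiset]
    rfl
  intro X hX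
  have h1 := h f.totalDegree
    (Submodule.span ℂ ((fun X => WT f.totalDegree X) '' (Submonoid.closure 𝓜 : Set _))) ?_ X hX
    (WT f.totalDegree 1) (Submodule.subset_span ⟨1, Submonoid.one_mem _, rfl⟩)
  · rw [rho_WT, mul_one] at h1
    have h2 : Submodule.span ℂ ((fun X => WT f.totalDegree X) '' (Submonoid.closure 𝓜 : Set _)) ≤
        LinearMap.ker F := by
      rw [Submodule.span_le]
      rintro _ ⟨Y, hY, rfl⟩
      rw [SetLike.mem_coe, LinearMap.mem_ker]
      rw [hF]
      exact hf Y hY
    have h3 := h2 h1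
    rw [LinearMap.mem_ker, hF] at h3
    exact h3
  · intro Z hZ u hu
    induction hu using Submodule.span_induction with
    | mem u hu =>
      obtain ⟨Y, hY, rfl⟩ := hu
      refine Submodule.subset_span ⟨Z * Y, ?_, (rho_WT _ Z Y).symm⟩
      exact Submonoid.mul_mem _ (Submonoid.subset_closure hZ) hY
    | zero =>
      rw [map_zero]
      exact Submodule.zero_mem _
    | add u v _ _ hu hv =>
      rw [map_add]
      exact Submodule.add_mem _ hu hv
    | smul c u _ hu =>
      rw [map_smul]
      exact Submodule.smul_mem _ _ hu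

end Pool.Agent.Helper71.OP
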