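import Pool.Agent.Helper71.OP.Ext

/-!
# Root vectors in a Lie algebra which contains a torus (block OP-ROOT)

`J r s ≠ 0` iff `s = r.swap`, and `J r r.swap = - J r.swap r = ±1` (lemmas `J_ll`, `J_lr`, `J_rl`,
`J_rr`, `J_zero` of `Helper48.GC8`).

* `gsp_swap`: the entry `(r.swap, s)` of `Yᵀ J + J Y = c J` reads
  `Y s.swap r.swap * J s.swap s + J r.swap r * Y r s = 0`, as `r ≠ s`.
* `rt_mem_of_entry`: `extract` gives `Z ∈ L` with only the entries at `(r, s)` and
  `(s.swap, r.swap)` (the entries `(a, b)` with `cl a ≠ cl b` vanish in `gsp cl`, the diagonal ones by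
  `Sep.one`); by `gsp_swap`, `Z = Y r s • rt r s`, or `Z = (Y r s / 2) • rt r s` if `r = s.swap` (then
  `rt r s = 2 • single r s 1`).
* `rt_trans`: the entry `(r, t)` of `[rt r s, rt s t]` is not zero: it is
  `∑ₖ (rt r s) r k * (rt s t) k t - ∑ₖ (rt s t) r k * (rt r s) k t`; the first sum has only the term
  `k = s`, which is a product of two numbers `1` or `2`; the second sum is `0`, or `-1` if
  `r = t.swap` and `s ≠ t.swap`... (only the term `k = s.swap` with `r = t.swap`, which is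
  `(J t.swap t * J s s.swap) * (J s.swap s * J r r.swap) = -1`).  Then `rt_mem_of_entry`.
-/

set_option autoImplicit false

namespace Pool.Agent.Helper71.OP

open Function Pool.Agent.Helper48.GC8

variable {g : ℕ} {κ : Type} {cl : L2 g → κ}

private lemma h97_J_off {r s : L2 g} (h : s ≠ r.swap) : Matrix.J (Fin g) ℂ r s = 0 := by
  rcases r with i | i <;> rcases s with j | j
  · exact J_ll i j
  · rw [J_lr]
    have : i ≠ j := fun e => h (by rw [e]; rfl)
    simp [this]
  · rw [J_rl]
    have : i ≠ j := fun e => h (by rw [e]; rfl)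
    simp [this]
  · exact J_rr i j

private lemma h97_J_sq (r : L2 g) :
    Matrix.J (Fin g) ℂ r r.swap * Matrix.J (Fin g) ℂ r r.swap = 1 := by
  rcases r with i | i
  · rw [Sum.swap_inl, J_lr]
    simp
  · rw [Sum.swap_inr, J_rl]
    simp

private lemma h97_J_anti (r : L2 g) :
    Matrix.J (Fin g) ℂ r.swap r = - Matrix.J (Fin g) ℂ r r.swap := by
  rcases r with i | i
  · rw [Sum.swap_inl, J_lr, J_rl]
    simp
  · rw [Sum.swap_inr, J_rl, J_lr]
    simp

lemma gsp_swap {Y : Matrix (L2 g) (L2 g) ℂ} (hY : Y ∈ gsp cl) {r s : L2 g} (hrs : r ≠ s) :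
    Y s.swap r.swap =
      (Matrix.J (Fin g) ℂ s.swap s * Matrix.J (Fin g) ℂ r r.swap) * Y r s := by
  obtain ⟨⟨c, hc⟩, -⟩ := hY
  have h := congrFun (congrFun hc r.swap) s
  rw [Matrix.add_apply, Matrix.smul_apply, Matrix.mul_apply, Matrix.mul_apply,
    Finset.sum_eq_single s.swap, Finset.sum_eq_single r, h97_J_off (r := r.swap) (s := s)
      (by rw [Sum.swap_swap]; exact hrs.symm), smul_zero, Matrix.transpose_apply] at h
  · have h1 := h97_J_sq s.swap
    rw [Sum.swap_swap] at h1
    have h2 := h97_J_anti r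
    rw [h2] at h
    have h3 : Y s.swap r.swap * Matrix.J (Fin g) ℂ s.swap s = Matrix.J (Fin g) ℂ r r.swap * Y r s := by
      linear_combination h
    calc Y s.swap r.swap = (Y s.swap r.swap * Matrix.J (Fin g) ℂ s.swap s) * Matrix.J (Fin g) ℂ s.swap s := by
          rw [mul_assoc, h1, mul_one]
      _ = _ := by rw [h3]; ring
  · intro k _ hk
    rw [h97_J_off (fun e => hk (by rw [e, Sum.swap_swap])), zero_mul]
  · intro h'
    exact absurd (Finset.mem_univ _) h'
  · intro k _ hk
    rw [h97_J_off (fun e => hk (by rw [e, Sum.swap_swap])), mul_zero]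
  · intro h'
    exact absurd (Finset.mem_univ _) h'

private lemma h97_rt_apply (r s a b : L2 g) : rt r s a b = (if r = a ∧ s = b then (1 : ℂ) else 0) +
    (Matrix.J (Fin g) ℂ s.swap s * Matrix.J (Fin g) ℂ r r.swap) *
      (if s.swap = a ∧ r.swap = b then (1 : ℂ) else 0) := by
  unfold rt
  rw [Matrix.add_apply, Matrix.smul_apply, Matrix.single_apply, Matrix.single_apply, smul_eq_mul]

private lemma h97_rt_self (r s : L2 g) : rt r s r s = if s.swap = r then (2 : ℂ) else 1 := by
  rw [h97_rt_apply]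
  by_cases h : s.swap = r
  · subst h
    have h1 := h97_J_sq s.swap
    rw [Sum.swap_swap] at h1
    simp only [Sum.swap_swap, and_self, if_true]
    rw [h1]
    norm_num
  · simp [h]

/-- The torus `T` separates the letters in each class, and the roots. -/
structure Sep (cl : L2 g → κ) (T : Set (L2 g → ℂ)) : Prop where
  one : ∀ r s, r ≠ s → cl r = cl s → ∃ t ∈ T, t r ≠ t s
  two : ∀ r s r' s', r ≠ s → cl r = cl s → r' ≠ s' → cl r' = cl s' →
    (∀ t ∈ T, t r' - t s' = t r - t s) → (r' = r ∧ s' = s) ∨ (r' = s.swap ∧ s' = r.swap)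

lemma rt_mem_of_entry {T : Set (L2 g → ℂ)} (hsep : Sep cl T)
    {L : Submodule ℂ (Matrix (L2 g) (L2 g) ℂ)} (hL : L ≤ gsp cl)
    (hT : ∀ t ∈ T, ∀ Y ∈ L, Matrix.diagonal t * Y - Y * Matrix.diagonal t ∈ L)
    {Y : Matrix (L2 g) (L2 g) ℂ} (hY : Y ∈ L) {r s : L2 g} (hrs : r ≠ s) (hcl : cl r = cl s)
    (h : Y r s ≠ 0) : rt r s ∈ L := by
  obtain ⟨Z, hZ, h1, h2⟩ := extract L T hT hY r s
  have hZg := hL hZ
  have hZrs : Z r s = Y r s := h1 r s (fun t _ => rfl)
  have hZ0 : ∀ a b, ¬ (r = a ∧ s = b) → ¬ (s.swap = a ∧ r.swap = b) → Z a b = 0 := by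
    intro a b hab hab'
    by_cases hc : cl a = cl b
    · apply h2
      intro hcon
      by_cases e : a = b
      · subst e
        obtain ⟨t, ht, hne⟩ := hsep.one r s hrs hcl
        have := hcon t ht
        rw [sub_self] at this
        exact hne (sub_eq_zero.1 this.symm)
      · rcases hsep.two r s a b hrs hcl e hc hcon with h' | h'
        · exact hab ⟨h'.1.symm, h'.2.symm⟩
        · exact hab' ⟨h'.1.symm, h'.2.symm⟩
    · exact hZg.2 a b hc
  have hsw := gsp_swap hZg hrs
  have key : rt r s = ((rt r s r s) * (Y r s)⁻¹) • Z := by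
    ext a b
    rw [Matrix.smul_apply, smul_eq_mul]
    by_cases hab : r = a ∧ s = b
    · obtain ⟨rfl, rfl⟩ := hab
      rw [hZrs, mul_assoc, inv_mul_cancel₀ h, mul_one]
    · by_cases hab' : s.swap = a ∧ r.swap = b
      · have hns : s.swap ≠ r := by
          intro e
          apply hab
          rw [← e, Sum.swap_swap] at hab'
          rw [← e]
          exact hab'
        rw [h97_rt_apply, h97_rt_self, if_neg hab, if_neg hns, if_pos hab', zero_add, mul_one]
        obtain ⟨rfl, rfl⟩ := hab'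
        rw [hsw, hZrs]
        field_simp
      · rw [hZ0 a b hab hab', mul_zero, h97_rt_apply, if_neg hab, if_neg hab']
        simp
  rw [key]
  exact L.smul_mem _ hZ

lemma rt_trans {T : Set (L2 g → ℂ)} (hsep : Sep cl T)
    {L : Submodule ℂ (Matrix (L2 g) (L2 g) ℂ)} (hL : L ≤ gsp cl)
    (hT : ∀ t ∈ T, ∀ Y ∈ L, Matrix.diagonal t * Y - Y * Matrix.diagonal t ∈ L)
    (hbr : ∀ Y ∈ L, ∀ Z ∈ L, Y * Z - Z * Y ∈ L)
    {r s t : L2 g} (hrs : r ≠ s) (hst : s ≠ t) (hrt : r ≠ t) (h1 : cl r = cl s) (h2 : cl s = cl t)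
    (h3 : rt r s ∈ L) (h4 : rt s t ∈ L) : rt r t ∈ L := by
  refine rt_mem_of_entry hsep hL hT (hbr _ h3 _ h4) hrt (h1.trans h2) ?_
  rw [Matrix.sub_apply, Matrix.mul_apply, Matrix.mul_apply, Finset.sum_eq_single s,
    Finset.sum_eq_single s.swap]
  · rw [h97_rt_self, h97_rt_self]
    by_cases hrt' : t.swap = r
    · have e1 : s.swap ≠ r := by
        intro e
        rw [← hrt'] at e
        exact hst (by rw [← Sum.swap_swap s, e, Sum.swap_swap])
      have e2 : t.swap ≠ s := by
        intro e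
        exact hrs (hrt'.symm.trans e)
      have e3 : r.swap = t := by rw [← hrt', Sum.swap_swap]
      rw [if_neg e1, if_neg e2, h97_rt_apply s t, h97_rt_apply r s]
      rw [if_neg (fun h' => hrs h'.1.symm), if_pos ⟨hrt', rfl⟩, if_neg (fun h' => e1 h'.1.symm),
        if_pos ⟨rfl, e3⟩]
      have f1 := h97_J_anti s
      have f2 := h97_J_sq s
      have f3 := h97_J_sq r
      rw [e3] at f3
      rw [e3, hrt', f1]
      have f4 : (0 + Matrix.J (Fin g) ℂ r t * Matrix.J (Fin g) ℂ s s.swap * 1) *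
        (0 + -Matrix.J (Fin g) ℂ s s.swap * Matrix.J (Fin g) ℂ r t * 1) = -1 := by
        linear_combination (-1 : ℂ) * (Matrix.J (Fin g) ℂ r t * Matrix.J (Fin g) ℂ r t) * f2 - f3
      rw [f4]
      norm_num
    · have hz : rt s t r s.swap = 0 := by
        rw [h97_rt_apply s t r s.swap, if_neg (fun h' => hrs h'.1.symm), if_neg (fun h' => hrt' h'.1)]
        simp
      rw [hz]
      split_ifs <;> norm_num
  · intro k _ hk
    rw [h97_rt_apply s t r k, if_neg (fun h' => hrs h'.1.symm), if_neg (fun h' => hk h'.2.symm)]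
    simp
  · intro h'
    exact absurd (Finset.mem_univ _) h'
  · intro k _ hk
    rw [h97_rt_apply r s r k, if_neg (fun h' => hk h'.2.symm), if_neg]
    · simp
    · rintro ⟨e, e'⟩
      apply hk
      rw [← e', ← e, Sum.swap_swap]
  · intro h'
    exact absurd (Finset.mem_univ _) h'

end Pool.Agent.Helper71.OP
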