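import Pool.Agent.Helper71.OP.Root
import Pool.Agent.Helper71.OP.Log

/-!
# The Lie algebra of the Frobenius torus (block OP-SEP2)

`word_log`: `∑ k, plv t 0 (x k) = ψ (∏ k, plv lam 1 (x k))` (`IsLog.prod`, `IsLog.one`).
`sep_log`: `one`: if `ψ (lam r) = ψ (lam s)` for all `ψ`, then by `exists_log_one` some power
`(lam r / lam s) ^ k`, `0 < k`, is `1`, so `(lam s * lam s) ^ k = (lam r * lam r) ^ k`, and the
hypothesis with `r' = s`, `s' = r` gives `s = r` or `s = s.swap`, a contradiction.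
`two`: if `ψ (lam r') - ψ (lam s') = ψ (lam r) - ψ (lam s)` for all `ψ`, then
`(lam r' * lam s) / (lam s' * lam r)` is a root of unity by `exists_log_one`.
-/

set_option autoImplicit false

namespace Pool.Agent.Helper71.OP

open Function Pool.Agent.Helper48.GC8

variable {g : ℕ}

/-- The functions `ψ (lam r)`, `ψ` a logarithm. -/
def TLog (lam : L2 g → ℂ) : Set (L2 g → ℂ) := {t | ∃ ψ, IsLog ψ ∧ ∀ r, t r = ψ (lam r)}

/-- No nontrivial relations with four terms (differences in the classes of `cl`). -/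
def Sidon {κ : Type} (cl : L2 g → κ) (lam : L2 g → ℂ) : Prop :=
  ∀ r s r' s' : L2 g, cl r = cl s → cl r' = cl s' → r ≠ s → r' ≠ s' →
    ∀ k : ℕ, 0 < k → (lam r' * lam s) ^ k = (lam s' * lam r) ^ k →
      (r' = r ∧ s' = s) ∨ (r' = s.swap ∧ s' = r.swap)

private lemma h24_plv {lam t : L2 g → ℂ} {ψ : ℂ → ℂ} (hψ : IsLog ψ) (h : ∀ r, t r = ψ (lam r))
    (z : IP g) : plv t 0 z = ψ (plv lam 1 z) := by
  rcases z with p | u
  · exact h p.1
  · exact hψ.one.symm

private lemma h24_plv_ne {lam : L2 g → ℂ} (hne : ∀ r, lam r ≠ 0) (z : IP g) :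
    plv lam 1 z ≠ 0 := by
  rcases z with p | u
  · exact hne p.1
  · exact one_ne_zero

lemma word_log {lam : L2 g → ℂ} (hne : ∀ r, lam r ≠ 0) {t : L2 g → ℂ} (ht : t ∈ TLog lam)
    {d : ℕ} (x y : Fin d → IP g) (h : ∏ k, plv lam 1 (x k) = ∏ k, plv lam 1 (y k)) :
    ∑ k, plv t 0 (x k) = ∑ k, plv t 0 (y k) := by
  obtain ⟨ψ, hψ, hr⟩ := ht
  have key : ∀ x : Fin d → IP g, ∑ k, plv t 0 (x k) = ψ (∏ k, plv lam 1 (x k)) := by
    intro x
    rw [hψ.prod Finset.univ (fun k => plv lam 1 (x k)) (fun k _ => h24_plv_ne hne (x k))]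
    exact Finset.sum_congr rfl fun k _ => h24_plv hψ hr (x k)
  rw [key x, key y, h]

private lemma h24_swap (s : L2 g) : s ≠ s.swap := by
  rcases s with i | i
  · rw [Sum.swap_inl]
    exact fun h => Sum.inl_ne_inr h
  · rw [Sum.swap_inr]
    exact fun h => Sum.inr_ne_inl h

private lemma h24_root {x y : ℂ} (hy : y ≠ 0) {k : ℕ} (h : (x / y) ^ k = 1) : x ^ k = y ^ k := by
  rw [div_pow] at h
  exact (div_eq_one_iff_eq (pow_ne_zero k hy)).1 h

lemma sep_log {κ : Type} {cl : L2 g → κ} {lam : L2 g → ℂ} (hne : ∀ r, lam r ≠ 0)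
    (hS : Sidon cl lam) : Sep cl (TLog lam) := by
  refine ⟨?_, ?_⟩
  · intro r s hrs hcl
    by_contra hcon
    push Not at hcon
    have h1 : ∃ k : ℕ, 0 < k ∧ (lam r / lam s) ^ k = 1 := by
      by_contra h2
      push Not at h2
      obtain ⟨ψ, hψ, h3⟩ := exists_log_one (div_ne_zero (hne r) (hne s)) h2
      have h4 := hcon (fun z => ψ (lam z)) ⟨ψ, hψ, fun _ => rfl⟩
      rw [hψ.div (hne r) (hne s)] at h3
      rw [h4, sub_self] at h3
      exact zero_ne_one h3
    obtain ⟨k, hk, h5⟩ := h1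
    have h6 := h24_root (hne s) h5
    rcases hS r s s r hcl hcl.symm hrs hrs.symm k hk (by rw [mul_pow, mul_pow, h6])
      with h | h
    · exact hrs h.1.symm
    · exact h24_swap s h.1
  · intro r s r' s' hrs hcl hrs' hcl' hT
    have hne1 : lam r' * lam s ≠ 0 := mul_ne_zero (hne _) (hne _)
    have hne2 : lam s' * lam r ≠ 0 := mul_ne_zero (hne _) (hne _)
    have h1 : ∃ k : ℕ, 0 < k ∧ ((lam r' * lam s) / (lam s' * lam r)) ^ k = 1 := by
      by_contra h2
      push Not at h2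
      obtain ⟨ψ, hψ, h3⟩ := exists_log_one (div_ne_zero hne1 hne2) h2
      have h4 := hT (fun z => ψ (lam z)) ⟨ψ, hψ, fun _ => rfl⟩
      rw [hψ.div hne1 hne2, hψ _ _ (hne _) (hne _), hψ _ _ (hne _) (hne _)] at h3
      have h5 : (0 : ℂ) = 1 := by linear_combination h3 - h4
      exact zero_ne_one h5
    obtain ⟨k, hk, h5⟩ := h1
    exact hS r s r' s' hcl hcl' hrs hrs' k hk (h24_root hne2 h5)

end Pool.Agent.Helper71.OP
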