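import Pool.Agent.Helper71.OP.Base

/-!
# Infinitesimal transvections (block OP-TAN)

`tv v = v (J v)ᵀ` is the map `x ↦ B(x, v) v`, `B(x, y) = xᵀ J y`.  `J` is alternating:
`Jᵀ = -J` (`Matrix.J_transpose`), so `vᵀ J v = 0` and `tv v * tv v = 0`;
`(tv v)ᵀ J + J tv v = (J v) vᵀ J + J v (J v)ᵀ = - (J v) (J v)ᵀ + (J v) (J v)ᵀ = 0`.

`sum_rt`: `rt r s = single r s 1 + η r s • single s.swap r.swap 1`, and
`Y s.swap r.swap = η r s * Y r s` for all `r`, `s` if `Yᵀ J + J Y = 0` (entry `(r.swap, s)`), so
`∑ Y r s • rt r s = 2 Y` (`r ↦ r.swap` is an involution; `η r s * η r s = 1`).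
`tv_mem`: by `sum_rt`; `tv v r s = v r * (J v) s` vanishes unless `cl r = c` and
`cl s.swap = c`, i.e. `cl s = c` by `hc`.
-/

set_option autoImplicit false

namespace Pool.Agent.Helper71.OP

open Function Pool.Agent.Helper48.GC8

variable {g : ℕ} {κ : Type} {cl : L2 g → κ}

/-- the sign of `r` -/
private noncomputable def sgn (r : L2 g) : ℂ := Matrix.J (Fin g) ℂ r r.swap

private lemma sgn_inl (i : Fin g) : sgn (Sum.inl i : L2 g) = -1 := by
  simp [sgn, Matrix.J]

private lemma sgn_inr (i : Fin g) : sgn (Sum.inr i : L2 g) = 1 := by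
  simp [sgn, Matrix.J]

private lemma sgn_sq (r : L2 g) : sgn r * sgn r = 1 := by
  rcases r with i | i
  · rw [sgn_inl]; norm_num
  · rw [sgn_inr]; norm_num

private lemma sgn_swap (r : L2 g) : sgn (r.swap : L2 g) = -sgn r := by
  rcases r with i | i
  · rw [Sum.swap_inl, sgn_inl, sgn_inr]; norm_num
  · rw [Sum.swap_inr, sgn_inl, sgn_inr]

private lemma J_ap (r s : L2 g) : Matrix.J (Fin g) ℂ r s = if s = r.swap then sgn r else 0 := by
  split_ifs with h
  · rw [h]; rfl
  · rcases r with i | i <;> rcases s with j | j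
    · simp [Matrix.J]
    · have : ¬ (i = j) := fun h' => h (by rw [h']; rfl)
      simp [Matrix.J, this]
    · have : ¬ (i = j) := fun h' => h (by rw [h']; rfl)
      simp [Matrix.J, this]
    · simp [Matrix.J]

private lemma J_ap' (r s : L2 g) : Matrix.J (Fin g) ℂ r s = if r = s.swap then sgn r else 0 := by
  rw [J_ap]
  have : (s = r.swap) ↔ (r = s.swap) :=
    ⟨fun h => by rw [h, Sum.swap_swap], fun h => by rw [h, Sum.swap_swap]⟩
  simp only [this]

private lemma J_vec (v : L2 g → ℂ) (r : L2 g) :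
    (Matrix.J (Fin g) ℂ).mulVec v r = sgn r * v r.swap := by
  unfold Matrix.mulVec dotProduct
  simp only [J_ap r, ite_mul, zero_mul, Finset.sum_ite_eq', Finset.mem_univ, if_true]

private lemma tv_ap (v : L2 g → ℂ) (r s : L2 g) : tv v r s = v r * (sgn s * v s.swap) := by
  unfold tv
  rw [Matrix.vecMulVec_apply, J_vec]

private lemma mul_J (X : Matrix (L2 g) (L2 g) ℂ) (p q : L2 g) :
    (X * Matrix.J (Fin g) ℂ) p q = X p q.swap * sgn (q.swap : L2 g) := by
  rw [Matrix.mul_apply]
  have h : ∀ x : L2 g, X p x * Matrix.J (Fin g) ℂ x q = if x = q.swap then X p x * sgn x else 0 := by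
    intro x
    rw [J_ap' x q]
    split_ifs <;> simp
  simp only [h, Finset.sum_ite_eq', Finset.mem_univ, if_true]

private lemma J_mul (X : Matrix (L2 g) (L2 g) ℂ) (p q : L2 g) :
    (Matrix.J (Fin g) ℂ * X) p q = sgn p * X p.swap q := by
  rw [Matrix.mul_apply]
  simp only [J_ap p, ite_mul, zero_mul, Finset.sum_ite_eq', Finset.mem_univ, if_true]

lemma tv_sq (v : L2 g → ℂ) (a : ℂ) : (a • tv v) * (a • tv v) = 0 := by
  have h : tv v * tv v = 0 := by
    ext p q
    rw [Matrix.mul_apply]
    simp only [tv_ap]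
    have h1 : ∀ x : L2 g, v p * (sgn x * v x.swap) * (v x * (sgn q * v q.swap)) =
        (v p * (sgn q * v q.swap)) * (sgn x * v x.swap * v x) := fun x => by ring
    simp only [h1]
    rw [← Finset.mul_sum]
    have h2 : ∑ x : L2 g, sgn x * v x.swap * v x = 0 := by
      rw [Fintype.sum_sum_type, ← Finset.sum_add_distrib]
      refine Finset.sum_eq_zero fun i _ => ?_
      rw [Sum.swap_inl, Sum.swap_inr, sgn_inl, sgn_inr]
      ring
    rw [h2, mul_zero]
    rfl
  rw [Matrix.smul_mul, Matrix.mul_smul, h, smul_zero, smul_zero]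

lemma tv_form (v : L2 g → ℂ) :
    (tv v).transpose * Matrix.J (Fin g) ℂ + Matrix.J (Fin g) ℂ * tv v = 0 := by
  ext p q
  rw [Matrix.add_apply, mul_J, J_mul, Matrix.transpose_apply, tv_ap, tv_ap, sgn_swap q,
    Matrix.zero_apply]
  ring

lemma sum_rt {Y : Matrix (L2 g) (L2 g) ℂ}
    (hY : Y.transpose * Matrix.J (Fin g) ℂ + Matrix.J (Fin g) ℂ * Y = 0) :
    ∑ r, ∑ s, Y r s • rt r s = (2 : ℂ) • Y := by
  have hE : ∀ a b : L2 g, Y b.swap a.swap * (sgn a * sgn (b.swap : L2 g)) = Y a b := by
    intro a b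
    have h := congrFun (congrFun hY a.swap) b
    rw [Matrix.add_apply, mul_J, J_mul, Matrix.transpose_apply, Sum.swap_swap, sgn_swap a] at h
    have h1 := sgn_sq a
    have h0 : (0 : Matrix (L2 g) (L2 g) ℂ) a.swap b = 0 := rfl
    rw [h0] at h
    linear_combination (sgn a) * h + Y a b * h1
  have hc : ∀ r s : L2 g, Matrix.J (Fin g) ℂ s.swap s * Matrix.J (Fin g) ℂ r r.swap =
      sgn r * sgn (s.swap : L2 g) := by
    intro r s
    unfold sgn
    rw [Sum.swap_swap, mul_comm]
  ext a b
  have h1 : ∀ r s : L2 g, (Y r s • rt r s) a b =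
      (if r = a then (if s = b then Y r s else 0) else 0) +
      (if r = b.swap then (if s = a.swap then Y r s * (sgn r * sgn (s.swap : L2 g)) else 0) else 0) := by
    intro r s
    have e1 : (s.swap = a) ↔ (s = a.swap) :=
      ⟨fun h => by rw [← h, Sum.swap_swap], fun h => by rw [h, Sum.swap_swap]⟩
    have e2 : (r.swap = b) ↔ (r = b.swap) :=
      ⟨fun h => by rw [← h, Sum.swap_swap], fun h => by rw [h, Sum.swap_swap]⟩
    unfold rt
    rw [Matrix.smul_apply, Matrix.add_apply, Matrix.smul_apply, Matrix.single_apply,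
      Matrix.single_apply, hc r s, smul_add]
    congr 1
    · rw [smul_eq_mul, mul_ite, mul_one, mul_zero, ite_and]
    · simp only [e1, e2, smul_eq_mul, mul_ite, mul_one, mul_zero]
      by_cases c3 : r = b.swap
      · by_cases c4 : s = a.swap
        · rw [if_pos ⟨c4, c3⟩, if_pos c3, if_pos c4]
        · rw [if_neg (fun h => c4 h.1), if_pos c3, if_neg c4]
      · rw [if_neg (fun h => c3 h.2), if_neg c3]
  simp only [Matrix.sum_apply, h1, Finset.sum_add_distrib]
  have h2 : ∑ r : L2 g, ∑ s : L2 g, (if r = a then (if s = b then Y r s else 0) else 0) = Y a b := by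
    rw [Finset.sum_eq_single a]
    · simp
    · intro r _ hr
      simp [hr]
    · intro h; exact absurd (Finset.mem_univ _) h
  have h3 : ∑ r : L2 g, ∑ s : L2 g, (if r = b.swap then
      (if s = a.swap then Y r s * (sgn r * sgn (s.swap : L2 g)) else 0) else 0) = Y a b := by
    rw [Finset.sum_eq_single b.swap]
    · rw [Finset.sum_eq_single a.swap]
      · rw [if_pos rfl, if_pos rfl, Sum.swap_swap, mul_comm (sgn (b.swap : L2 g)), hE a b]
      · intro s _ hs
        simp [hs]
      · intro h; exact absurd (Finset.mem_univ _) h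
    · intro r _ hr
      simp [hr]
    · intro h; exact absurd (Finset.mem_univ _) h
  rw [h2, h3, Matrix.smul_apply, smul_eq_mul, two_mul]

lemma tv_mem {L : Submodule ℂ (Matrix (L2 g) (L2 g) ℂ)} {c : κ}
    (hc : ∀ r, cl r = c → cl r.swap = c)
    (hrt : ∀ r s, r ≠ s → cl r = c → cl s = c → rt r s ∈ L) (hrr : ∀ r, rt r r ∈ L)
    {v : L2 g → ℂ} (hv : v ∈ blk cl c) : tv v ∈ L := by
  have h := sum_rt (tv_form v)
  have h1 : (2 : ℂ) • tv v ∈ L := by
    rw [← h]
    refine L.sum_mem fun r _ => L.sum_mem fun s _ => ?_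
    by_cases hr : cl r = c
    · by_cases hs : cl s.swap = c
      · have hs' : cl s = c := by
          have := hc _ hs
          rwa [Sum.swap_swap] at this
        by_cases hrs : r = s
        · rw [← hrs]
          exact L.smul_mem _ (hrr r)
        · exact L.smul_mem _ (hrt r s hrs hr hs')
      · rw [tv_ap, mem_blk.1 hv _ hs, mul_zero, mul_zero, zero_smul]
        exact L.zero_mem
    · rw [tv_ap, mem_blk.1 hv _ hr, zero_mul, zero_smul]
      exact L.zero_mem
  have h2 : tv v = (2 : ℂ)⁻¹ • ((2 : ℂ) • tv v) := by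
    rw [smul_smul, inv_mul_cancel₀ two_ne_zero, one_smul]
  rw [h2]
  exact L.smul_mem _ h1

/-- `rt r r` is diagonal. -/
lemma rt_self (r : L2 g) : ∃ t : L2 g → ℂ, (∀ i, t (Sum.inl i) + t (Sum.inr i) = 0) ∧
    rt r r = Matrix.diagonal t := by
  refine ⟨fun x => Pi.single (M := fun _ : L2 g => ℂ) r 1 x - Pi.single (M := fun _ : L2 g => ℂ) r.swap 1 x, ?_, ?_⟩
  · intro i
    rcases r with j | j
    · simp only [Sum.swap_inl]
      by_cases h : i = j
      · subst h; simp
      · simp [h]
    · simp only [Sum.swap_inr]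
      by_cases h : i = j
      · subst h; simp
      · simp [h]
  · ext a b
    have hne : r ≠ r.swap := by
      rcases r with i | i <;> simp
    have e : Matrix.J (Fin g) ℂ r.swap r * Matrix.J (Fin g) ℂ r r.swap = -1 := by
      have h1 := sgn_swap r
      have h2 := sgn_sq r
      have h3 : Matrix.J (Fin g) ℂ r.swap r = sgn (r.swap : L2 g) := by
        unfold sgn
        rw [Sum.swap_swap]
      have h4 : Matrix.J (Fin g) ℂ r r.swap = sgn r := rfl
      rw [h3, h4, h1]
      linear_combination -h2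
    unfold rt
    rw [e, Matrix.add_apply, Matrix.smul_apply, Matrix.single_apply, Matrix.single_apply,
      Matrix.diagonal_apply]
    by_cases hab : a = b
    · subst hab
      rw [if_pos rfl, Pi.single_apply, Pi.single_apply]
      by_cases c1 : a = r
      · subst c1
        simp [hne, hne.symm]
      · by_cases c2 : a = r.swap
        · subst c2
          simp [hne, c1]
        · simp [Ne.symm c1, Ne.symm c2, c1, c2]
    · rw [if_neg hab]
      have n1 : ¬ (r = a ∧ r = b) := fun h => hab (h.1.symm.trans h.2)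
      have n2 : ¬ (r.swap = a ∧ r.swap = b) := fun h => hab (h.1.symm.trans h.2)
      rw [if_neg n1, if_neg n2]
      simp

end Pool.Agent.Helper71.OP
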