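import Pool.Agent.Helper71.OP.Root

/-!
# Words and multiplicative independence (block OP-WORD)

For a word `x : Fin d → IP g` and a letter `r : L2 g` let `N x r` be the number of the `k` with
`x k = inl (r, _)`.  Then `∏ k, plv lam 1 (x k) = ∏ r, lam r ^ N x r`, and for `n = N x - N y` the
equality of the products gives `∏ r, lam r ^ n r = 1` (all `lam r ≠ 0`), so
`n (inl i) = n (inr i)`, so `q ^ (∑ i, n (inl i)) = 1`, and `∑ i, n (inl i) = 0` as `1 < ‖q‖`.
Then `∑ r, n r * t r = c * ∑ i, n (inl i) = 0` and `∏ r, d r ^ n r = m ^ (∑ i, n (inl i)) = 1`.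

`sep_torus`: for `k : L2 g` the function `t = 1` at `k`, `-1` at `k.swap`, `0` elsewhere is in the
torus; see the proof of (h2) in the README.
-/

set_option autoImplicit false

namespace Pool.Agent.Helper71.OP

open Function Pool.Agent.Helper48.GC8

variable {g : ℕ}

/-- `1` if the letter is `inl (r, _)`, else `0`. -/
private def h74_cnt (r : L2 g) : IP g → ℕ :=
  Sum.elim (fun p => if r = p.1 then 1 else 0) (fun _ => 0)

private lemma h74_plv_prod (lam : L2 g → ℂ) (z : IP g) :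
    plv lam 1 z = ∏ r, lam r ^ h74_cnt r z := by
  rcases z with p | u
  · have h : ∀ r : L2 g, lam r ^ h74_cnt r (Sum.inl p : IP g) = if r = p.1 then lam r else 1 := by
      intro r
      by_cases e : r = p.1
      · simp [h74_cnt, e]
      · simp [h74_cnt, e]
    rw [Finset.prod_congr rfl (fun r _ => h r), Finset.prod_ite_eq' Finset.univ p.1 lam,
      if_pos (Finset.mem_univ _)]
    rfl
  · simp [plv, h74_cnt]

private lemma h74_plv_sum (t : L2 g → ℂ) (z : IP g) :
    plv t 0 z = ∑ r, (h74_cnt r z : ℂ) * t r := by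
  rcases z with p | u
  · have h : ∀ r : L2 g, (h74_cnt r (Sum.inl p : IP g) : ℂ) * t r = if r = p.1 then t r else 0 := by
      intro r
      by_cases e : r = p.1
      · simp [h74_cnt, e]
      · simp [h74_cnt, e]
    rw [Finset.sum_congr rfl (fun r _ => h r), Finset.sum_ite_eq' Finset.univ p.1 t,
      if_pos (Finset.mem_univ _)]
    rfl
  · simp [plv, h74_cnt]

private lemma h74_prod {d : ℕ} (lam : L2 g → ℂ) (x : Fin d → IP g) :
    ∏ k, plv lam 1 (x k) = ∏ r, lam r ^ (∑ k, h74_cnt r (x k)) := by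
  rw [Finset.prod_congr rfl (fun k _ => h74_plv_prod lam (x k)), Finset.prod_comm]
  refine Finset.prod_congr rfl fun r _ => ?_
  rw [Finset.prod_pow_eq_pow_sum]

private lemma h74_sum {d : ℕ} (t : L2 g → ℂ) (x : Fin d → IP g) :
    ∑ k, plv t 0 (x k) = ∑ r, ((∑ k, h74_cnt r (x k) : ℕ) : ℂ) * t r := by
  rw [Finset.sum_congr rfl (fun k _ => h74_plv_sum t (x k)), Finset.sum_comm]
  refine Finset.sum_congr rfl fun r _ => ?_
  rw [Nat.cast_sum, Finset.sum_mul]

private lemma h74_ne {e : L2 g → ℂ} {m : ℂ} (hm : m ≠ 0)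
    (he : ∀ i, e (Sum.inl i) * e (Sum.inr i) = m) (r : L2 g) : e r ≠ 0 := by
  rcases r with i | i
  · intro h
    exact hm (by rw [← he i, h, zero_mul])
  · intro h
    exact hm (by rw [← he i, h, mul_zero])

private lemma h74_zprod {e : L2 g → ℂ} {m : ℂ}
    (he : ∀ i, e (Sum.inl i) * e (Sum.inr i) = m) {n : L2 g → ℤ}
    (hm : m ≠ 0) (hn : ∀ i, n (Sum.inl i) = n (Sum.inr i)) :
    ∏ r, e r ^ n r = m ^ (∑ i, n (Sum.inl i)) := by
  rw [Fintype.prod_sum_type, ← Finset.prod_mul_distrib]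
  have h : ∀ i, e (Sum.inl i) ^ n (Sum.inl i) * e (Sum.inr i) ^ n (Sum.inr i) =
      m ^ n (Sum.inl i) := by
    intro i
    rw [← hn i, ← mul_zpow, he i]
  rw [Finset.prod_congr rfl (fun i _ => h i)]
  induction (Finset.univ : Finset (Fin g)) using Finset.induction_on with
  | empty => simp
  | insert a s ha ih => rw [Finset.prod_insert ha, Finset.sum_insert ha, ih, zpow_add₀ hm]

private lemma h74_key {q : ℂ} (hq : 1 < ‖q‖) {lam : L2 g → ℂ}
    (hlam : ∀ i, lam (Sum.inl i) * lam (Sum.inr i) = q)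
    (hmax : ∀ n : L2 g → ℤ, ∏ r, lam r ^ n r = 1 → ∀ i, n (Sum.inl i) = n (Sum.inr i))
    {d : ℕ} (x y : Fin d → IP g) (h : ∏ k, plv lam 1 (x k) = ∏ k, plv lam 1 (y k)) :
    ∃ n : L2 g → ℤ, (∀ r, n r = ((∑ k, h74_cnt r (x k) : ℕ) : ℤ) -
      ((∑ k, h74_cnt r (y k) : ℕ) : ℤ)) ∧
      (∀ i, n (Sum.inl i) = n (Sum.inr i)) ∧ ∑ i, n (Sum.inl i) = 0 := by
  have hq0 : q ≠ 0 := by
    intro e
    rw [e, norm_zero] at hq
    linarith
  have hl := h74_ne hq0 hlam
  let n : L2 g → ℤ := fun r => ((∑ k, h74_cnt r (x k) : ℕ) : ℤ) - ((∑ k, h74_cnt r (y k) : ℕ) : ℤ)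
  have h1 : ∏ r, lam r ^ n r = 1 := by
    have h2 : ∀ r, lam r ^ n r =
        lam r ^ (∑ k, h74_cnt r (x k)) / lam r ^ (∑ k, h74_cnt r (y k)) := by
      intro r
      rw [zpow_sub₀ (hl r), zpow_natCast, zpow_natCast]
    rw [Finset.prod_congr rfl (fun r _ => h2 r), Finset.prod_div_distrib, ← h74_prod, ← h74_prod, h,
      div_self]
    rw [h74_prod]
    exact Finset.prod_ne_zero_iff.2 fun r _ => pow_ne_zero _ (hl r)
  have h2 := hmax n h1
  refine ⟨n, fun r => rfl, h2, ?_⟩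
  rw [h74_zprod hlam hq0 h2] at h1
  have h3 := congrArg norm h1
  rw [norm_zpow, norm_one] at h3
  have h4 := zpow_right_injective₀ (zero_lt_one.trans hq) hq.ne'
  exact h4 (by simpa using h3)

lemma word_sum {q : ℂ} (hq : 1 < ‖q‖) {lam : L2 g → ℂ}
    (hlam : ∀ i, lam (Sum.inl i) * lam (Sum.inr i) = q)
    (hmax : ∀ n : L2 g → ℤ, ∏ r, lam r ^ n r = 1 → ∀ i, n (Sum.inl i) = n (Sum.inr i))
    {t : L2 g → ℂ} {c : ℂ} (ht : ∀ i, t (Sum.inl i) + t (Sum.inr i) = c) {d : ℕ}
    (x y : Fin d → IP g) (h : ∏ k, plv lam 1 (x k) = ∏ k, plv lam 1 (y k)) :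
    ∑ k, plv t 0 (x k) = ∑ k, plv t 0 (y k) := by
  obtain ⟨n, h1, h2, h3⟩ := h74_key hq hlam hmax x y h
  rw [← sub_eq_zero, h74_sum, h74_sum, ← Finset.sum_sub_distrib]
  have h4 : ∀ r, ((∑ k, h74_cnt r (x k) : ℕ) : ℂ) * t r - ((∑ k, h74_cnt r (y k) : ℕ) : ℂ) * t r =
      (n r : ℂ) * t r := by
    intro r
    rw [h1 r]
    push_cast
    ring
  rw [Finset.sum_congr rfl (fun r _ => h4 r), Fintype.sum_sum_type, ← Finset.sum_add_distrib]
  have h5 : ∀ i, (n (Sum.inl i) : ℂ) * t (Sum.inl i) + (n (Sum.inr i) : ℂ) * t (Sum.inr i) =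
      (n (Sum.inl i) : ℂ) * c := by
    intro i
    rw [← h2 i, ← ht i]
    ring
  rw [Finset.sum_congr rfl (fun i _ => h5 i), ← Finset.sum_mul, ← Int.cast_sum, h3, Int.cast_zero,
    zero_mul]

lemma word_prod {q : ℂ} (hq : 1 < ‖q‖) {lam : L2 g → ℂ}
    (hlam : ∀ i, lam (Sum.inl i) * lam (Sum.inr i) = q)
    (hmax : ∀ n : L2 g → ℤ, ∏ r, lam r ^ n r = 1 → ∀ i, n (Sum.inl i) = n (Sum.inr i))
    {e : L2 g → ℂ} {m : ℂ} (hm : m ≠ 0) (he : ∀ i, e (Sum.inl i) * e (Sum.inr i) = m) {d : ℕ}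
    (x y : Fin d → IP g) (h : ∏ k, plv lam 1 (x k) = ∏ k, plv lam 1 (y k)) :
    ∏ k, plv e 1 (x k) = ∏ k, plv e 1 (y k) := by
  obtain ⟨n, h1, h2, h3⟩ := h74_key hq hlam hmax x y h
  have hl := h74_ne hm he
  have h4 := h74_zprod he hm h2
  rw [h3, zpow_zero] at h4
  have h5 : ∀ r, e r ^ n r =
      e r ^ (∑ k, h74_cnt r (x k)) / e r ^ (∑ k, h74_cnt r (y k)) := by
    intro r
    rw [h1 r, zpow_sub₀ (hl r), zpow_natCast, zpow_natCast]
  rw [Finset.prod_congr rfl (fun r _ => h5 r), Finset.prod_div_distrib, ← h74_prod, ← h74_prod] at h4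
  refine (div_eq_one_iff_eq ?_).1 h4
  rw [h74_prod]
  exact Finset.prod_ne_zero_iff.2 fun r _ => pow_ne_zero _ (hl r)

private lemma h74_swap_inj {r s : L2 g} (h : r.swap = s.swap) : r = s := by
  rw [← Sum.swap_swap r, h, Sum.swap_swap]

private lemma h74_swap_ne (r : L2 g) : r.swap ≠ r := by
  rcases r with i | i <;> simp

/-- `1` at `k`, `-1` at `k.swap`, `0` elsewhere. -/
private noncomputable def h74_tk (k : L2 g) : L2 g → ℂ :=
  fun r => if r = k then 1 else if r = k.swap then -1 else 0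

private lemma h74_tk_mem (k : L2 g) : ∀ i, h74_tk k (Sum.inl i) + h74_tk k (Sum.inr i) = 0 := by
  intro i
  rcases k with j | j
  · by_cases e : i = j
    · subst e
      simp [h74_tk]
    · simp [h74_tk, e]
  · by_cases e : i = j
    · subst e
      simp [h74_tk]
    · simp [h74_tk, e]

/-- The full torus of the group of similitudes separates letters and roots. -/
lemma sep_torus {κ : Type} (cl : L2 g → κ) :
    Sep cl {t : L2 g → ℂ | ∃ c, ∀ i, t (Sum.inl i) + t (Sum.inr i) = c} := by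
  have hone : ∀ r s : L2 g, r ≠ s → h74_tk r r ≠ h74_tk r s := by
    intro r s hrs
    unfold h74_tk
    rw [if_pos rfl, if_neg (Ne.symm hrs)]
    split_ifs <;> norm_num
  refine ⟨fun r s hrs _ => ⟨h74_tk r, ⟨0, h74_tk_mem r⟩, hone r s hrs⟩, ?_⟩
  intro r s r' s' hrs _ hrs' _ h
  have hr := h (h74_tk r) ⟨0, h74_tk_mem r⟩
  -- the function `h74_tk r` takes the value `1` only at `r` and `-1` only at `r.swap`
  have key : r' = r ∨ s' = r.swap := by
    by_contra hcon
    push Not at hcon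
    obtain ⟨e1, e2⟩ := hcon
    have h1 : h74_tk r r = 1 := if_pos rfl
    rw [h1] at hr
    have h2 : h74_tk r r' = if r' = r.swap then -1 else 0 := if_neg e1
    have h3 : h74_tk r s' = if s' = r then 1 else 0 := by
      unfold h74_tk
      by_cases e : s' = r
      · rw [if_pos e, if_pos e]
      · rw [if_neg e, if_neg e, if_neg e2]
    have h4 : h74_tk r s = if s = r.swap then -1 else 0 := if_neg hrs.symm
    rw [h2, h3, h4] at hr
    split_ifs at hr <;> norm_num at hr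
  rcases key with e | e
  · subst e
    refine Or.inl ⟨rfl, ?_⟩
    by_contra hne
    have h1 := h (h74_tk s) ⟨0, h74_tk_mem s⟩
    exact hone s s' (Ne.symm hne) (by linear_combination h1)
  · subst e
    refine Or.inr ⟨?_, rfl⟩
    by_contra hne
    have hsw : ∀ k a : L2 g, h74_tk k a.swap = - h74_tk k a := by
      intro k a
      rcases a with i | i
      · rw [Sum.swap_inl]
        linear_combination h74_tk_mem k i
      · rw [Sum.swap_inr]
        linear_combination h74_tk_mem k i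
    have h1 := h (h74_tk s.swap) ⟨0, h74_tk_mem s.swap⟩
    have h2 := hsw s.swap r
    have h3 := hsw s.swap s
    exact hone s.swap r' (Ne.symm hne) (by linear_combination (-1 : ℂ) * h1 - h2 + h3)

end Pool.Agent.Helper71.OP
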