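import Pool.Agent.Helper71.OP.Lie
import Pool.Agent.Helper71.OP.Dia
import Pool.Agent.Helper71.OP.Irr
import Pool.Agent.Helper71.OP.Tan
import Pool.Agent.Helper71.OP.Gen
import Pool.Agent.Helper71.OP.Word
import Pool.Agent.Helper71.OP.Poly

/-!
# The one-place criterion (block OP-STAB)

Let `S = SE.mat b` (the base change to the symplectic eigenbasis of `M`; `SET.sim`, `SE.mul_mat`,
`SE.exists_inv` in `Helper48.GC8.Diag`, `Helper60.GC9.DiagT`) and `S'` its inverse.  Put
`U' = U.map (rho univ (pl S'))`; it is stable under `rho univ (pl (S' Z S))`, `Z ∈ 𝓜`, in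
particular under `rho univ (pl (diagonal lam)) = rho univ (diagonal (plv lam 1))`.
Let `cl r = if col (pr r) ∈ tor then inr r else inl (col (pr r))` (in `κ ⊕ L2 g`), `T` the set of all
`t` with `t (inl i) + t (inr i)` constant and `L = {Y ∈ gsp cl | pl0 Y ∈ LieStab U'}`.
* `T ⊆ L` by `diag_lieStab`, `word_sum`, `pl0_diagonal`; `Sep cl T` is `sep_torus`.
* `L` is closed under brackets (`lieStab_bracket`, `pl0_mul`; `gsp cl` is closed under brackets:
  if `Yᵀ J + J Y = c J`, `Zᵀ J + J Z = d J` then `[Y, Z]ᵀ J + J [Y, Z] = 0`).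
* `L` is stable under conjugation by `X = S' Z S` and by its inverse (`lieStab_conj`, `rho_inv_mem`,
  `pl0_conj`; `gsp cl` is stable under conjugation by `SimT` matrices).
* For `c ∉ tor` the class `inl c` is strongly irreducible for the matrices `S' Z S`: transport a
  finite set of subspaces by `S` (`S` respects the blocks; `blk cl (inl c)` is the block `c`).
So `rt r s ∈ L` for `r ≠ s` in a block which is not a torus block (`root_mem`), `rt r r ∈ L`
(`rt_self`), `a • tv v ∈ L` (`tv_mem`), `rho univ (pl (1 + a • tv v))` preserves `U'`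
(`rho_exp_mem`, `pl_one_add`, `tv_sq`), and `rho univ (pl (diagonal e))` preserves `U'`
(`diag_rho`, `word_prod`, `pl_diagonal`).  By `gen` all `X` in the group preserve `U'`; apply this
to `S' X S` (`SimT` is closed under products; `S' ` is `SimT col tor 1`).
-/

set_option autoImplicit false

namespace Pool.Agent.Helper71.OP

open Function Pool.Agent.Helper48.GC8 Pool.Agent.Helper60.GC9

variable {g : ℕ} {κ : Type} [DecidableEq κ] {col : Fin g → κ} {tor : Finset κ}

lemma SimT.mul' {c d : ℂ} {X Z : Matrix (L2 g) (L2 g) ℂ} (hX : SimT col tor c X)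
    (hZ : SimT col tor d Z) : SimT col tor (c * d) (X * Z) := by
  refine ⟨⟨?_, ?_⟩, ?_⟩
  · calc (X * Z).transpose * Matrix.J (Fin g) ℂ * (X * Z)
        = Z.transpose * (X.transpose * Matrix.J (Fin g) ℂ * X) * Z := by
          rw [Matrix.transpose_mul]
          simp only [Matrix.mul_assoc]
      _ = (c * d) • Matrix.J (Fin g) ℂ := by
          rw [hX.sim.form, Matrix.mul_smul, Matrix.smul_mul, hZ.sim.form, smul_smul]
  · intro r s hrs
    rw [Matrix.mul_apply]
    apply Finset.sum_eq_zero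
    intro k _
    by_cases h : col (pr r) = col (pr k)
    · rw [hZ.sim.blk k s (h ▸ hrs), mul_zero]
    · rw [hX.sim.blk r k h, zero_mul]
  · intro r s hrs hr
    rw [Matrix.mul_apply]
    apply Finset.sum_eq_zero
    intro k _
    by_cases h : r = k
    · subst h
      rw [hZ.diag r s hrs hr, mul_zero]
    · rw [hX.diag r k h hr, zero_mul]

private lemma stab_comm_inv {X X' P : Matrix (L2 g) (L2 g) ℂ} (h1 : X * X' = 1) (h2 : X' * X = 1)
    (h : X * P = P * X) : X' * P = P * X' := by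
  calc X' * P = X' * P * (X * X') := by rw [h1, Matrix.mul_one]
    _ = X' * (P * X) * X' := by simp only [Matrix.mul_assoc]
    _ = X' * (X * P) * X' := by rw [h]
    _ = (X' * X) * P * X' := by simp only [Matrix.mul_assoc]
    _ = P * X' := by rw [h2, Matrix.one_mul]

lemma SimT.inv' {c : ℂ} (hc : c ≠ 0) {X : Matrix (L2 g) (L2 g) ℂ} (hX : SimT col tor c X) :
    ∃ X', X * X' = 1 ∧ X' * X = 1 ∧ SimT col tor c⁻¹ X' := by
  obtain ⟨X', hX'⟩ : ∃ X' : Matrix (L2 g) (L2 g) ℂ, X' * X = 1 := by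
    refine ⟨c⁻¹ • (-(Matrix.J (Fin g) ℂ * X.transpose * Matrix.J (Fin g) ℂ)), ?_⟩
    rw [Matrix.smul_mul, Matrix.neg_mul, Matrix.mul_assoc, Matrix.mul_assoc,
      ← Matrix.mul_assoc X.transpose, hX.sim.form, Matrix.mul_smul, Matrix.J_squared]
    simp only [smul_neg, neg_neg, smul_smul, inv_mul_cancel₀ hc, one_smul]
  have hX2 : X * X' = 1 := mul_eq_one_comm.1 hX'
  refine ⟨X', hX2, hX', ⟨?_, ?_⟩, ?_⟩
  · have h1 : c • (X'.transpose * Matrix.J (Fin g) ℂ * X') = Matrix.J (Fin g) ℂ := by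
      calc c • (X'.transpose * Matrix.J (Fin g) ℂ * X')
          = X'.transpose * (c • Matrix.J (Fin g) ℂ) * X' := by
            rw [Matrix.mul_smul, Matrix.smul_mul]
        _ = X'.transpose * (X.transpose * Matrix.J (Fin g) ℂ * X) * X' := by rw [hX.sim.form]
        _ = (X * X').transpose * Matrix.J (Fin g) ℂ * (X * X') := by
            rw [Matrix.transpose_mul]
            simp only [Matrix.mul_assoc]
        _ = Matrix.J (Fin g) ℂ := by
            rw [hX2, Matrix.transpose_one, Matrix.one_mul, Matrix.mul_one]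
    calc X'.transpose * Matrix.J (Fin g) ℂ * X'
        = c⁻¹ • (c • (X'.transpose * Matrix.J (Fin g) ℂ * X')) := by
          rw [smul_smul, inv_mul_cancel₀ hc, one_smul]
      _ = c⁻¹ • Matrix.J (Fin g) ℂ := by rw [h1]
  · intro r s hrs
    have h1 := stab_comm_inv hX2 hX' (hX.sim.comm (col (pr s)))
    have h2 := congrFun (congrFun h1 r) s
    rw [PB, Matrix.mul_diagonal, Matrix.diagonal_mul, if_pos rfl, mul_one, if_neg hrs,
      zero_mul] at h2
    exact h2
  · intro r s hrs hr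
    have hcomm : X * Matrix.single r r (1 : ℂ) = Matrix.single r r (1 : ℂ) * X := by
      ext a b
      by_cases ha : a = r
      · by_cases hb : b = r
        · rw [ha, hb]
          rw [Matrix.mul_single_apply_same, Matrix.single_mul_apply_same, mul_one, one_mul]
        · rw [ha, Matrix.mul_single_apply_of_ne _ _ _ _ _ hb, Matrix.single_mul_apply_same,
            hX.diag r b (Ne.symm hb) hr, mul_zero]
      · rw [Matrix.single_mul_apply_of_ne _ _ _ _ _ ha]
        by_cases hb : b = r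
        · rw [hb, Matrix.mul_single_apply_same, hX.diag' a r ha hr, zero_mul]
        · rw [Matrix.mul_single_apply_of_ne _ _ _ _ _ hb]
    have h1 := stab_comm_inv hX2 hX' hcomm
    have h2 := congrFun (congrFun h1 r) s
    rw [Matrix.mul_single_apply_of_ne _ _ _ _ _ (Ne.symm hrs), Matrix.single_mul_apply_same,
      one_mul] at h2
    exact h2.symm

/-- The classes: the blocks which are not torus blocks, and the single letters of the torus
blocks. -/
private def stab_cl (col : Fin g → κ) (tor : Finset κ) (r : L2 g) : κ ⊕ L2 g :=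
  if col (pr r) ∈ tor then Sum.inr r else Sum.inl (col (pr r))

private lemma stab_cl_iff {c : κ} (hc : c ∉ tor) (r : L2 g) :
    stab_cl col tor r = Sum.inl c ↔ col (pr r) = c := by
  unfold stab_cl
  split_ifs with h
  · constructor
    · intro h1
      cases h1
    · intro h1
      exact absurd (h1 ▸ h) hc
  · rw [Sum.inl.injEq]

private lemma stab_simT_cl {c : ℂ} {X : Matrix (L2 g) (L2 g) ℂ} (hX : SimT col tor c X)
    (r s : L2 g) (h : stab_cl col tor r ≠ stab_cl col tor s) : X r s = 0 := by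
  have hrs : r ≠ s := by
    rintro rfl
    exact h rfl
  by_cases hr : col (pr r) ∈ tor
  · exact hX.diag r s hrs hr
  · by_cases hs : col (pr s) ∈ tor
    · exact hX.diag' r s hrs hs
    · apply hX.sim.blk r s
      intro h1
      apply h
      unfold stab_cl
      rw [if_neg hr, if_neg hs, h1]

private lemma stab_mul_cl {κ' : Type} {cl : L2 g → κ'} {X Z : Matrix (L2 g) (L2 g) ℂ}
    (hX : ∀ r s, cl r ≠ cl s → X r s = 0) (hZ : ∀ r s, cl r ≠ cl s → Z r s = 0) :
    ∀ r s, cl r ≠ cl s → (X * Z) r s = 0 := by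
  intro r s hrs
  rw [Matrix.mul_apply]
  apply Finset.sum_eq_zero
  intro k _
  by_cases h : cl r = cl k
  · rw [hZ k s (h ▸ hrs), mul_zero]
  · rw [hX r k h, zero_mul]

private lemma stab_gsp_bracket {κ' : Type} {cl : L2 g → κ'} {Y Z : Matrix (L2 g) (L2 g) ℂ}
    (hY : Y ∈ gsp cl) (hZ : Z ∈ gsp cl) : Y * Z - Z * Y ∈ gsp cl := by
  rw [mem_gsp] at hY hZ ⊢
  obtain ⟨⟨c, hc⟩, hY⟩ := hY
  obtain ⟨⟨d, hd⟩, hZ⟩ := hZ
  refine ⟨⟨0, ?_⟩, ?_⟩
  · have hc' : Y.transpose * Matrix.J (Fin g) ℂ =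
        c • Matrix.J (Fin g) ℂ - Matrix.J (Fin g) ℂ * Y := by
      rw [← hc]; abel
    have hd' : Z.transpose * Matrix.J (Fin g) ℂ =
        d • Matrix.J (Fin g) ℂ - Matrix.J (Fin g) ℂ * Z := by
      rw [← hd]; abel
    have e1 : (Y * Z).transpose * Matrix.J (Fin g) ℂ =
        (c * d) • Matrix.J (Fin g) ℂ - c • (Matrix.J (Fin g) ℂ * Z) - d • (Matrix.J (Fin g) ℂ * Y)
          + Matrix.J (Fin g) ℂ * Z * Y := by
      rw [Matrix.transpose_mul, Matrix.mul_assoc, hc', Matrix.mul_sub, Matrix.mul_smul, hd',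
        ← Matrix.mul_assoc, hd', smul_sub, smul_smul, Matrix.sub_mul, Matrix.smul_mul]
      abel
    have e2 : (Z * Y).transpose * Matrix.J (Fin g) ℂ =
        (c * d) • Matrix.J (Fin g) ℂ - c • (Matrix.J (Fin g) ℂ * Z) - d • (Matrix.J (Fin g) ℂ * Y)
          + Matrix.J (Fin g) ℂ * Y * Z := by
      rw [Matrix.transpose_mul, Matrix.mul_assoc, hd', Matrix.mul_sub, Matrix.mul_smul, hc',
        ← Matrix.mul_assoc, hc', smul_sub, smul_smul, Matrix.sub_mul, Matrix.smul_mul,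
        mul_comm d c]
      abel
    rw [Matrix.transpose_sub, Matrix.sub_mul, e1, e2, Matrix.mul_sub, ← Matrix.mul_assoc,
      ← Matrix.mul_assoc, zero_smul]
    abel
  · intro r s hrs
    rw [Matrix.sub_apply, stab_mul_cl hY hZ r s hrs, stab_mul_cl hZ hY r s hrs, sub_zero]

private lemma stab_gsp_conj {κ' : Type} {cl : L2 g → κ'} {m : ℂ}
    {X X' Y : Matrix (L2 g) (L2 g) ℂ} (h1 : X * X' = 1)
    (hX : X.transpose * Matrix.J (Fin g) ℂ * X = m • Matrix.J (Fin g) ℂ)
    (hXc : ∀ r s, cl r ≠ cl s → X r s = 0) (hXc' : ∀ r s, cl r ≠ cl s → X' r s = 0)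
    (hY : Y ∈ gsp cl) : X * Y * X' ∈ gsp cl := by
  rw [mem_gsp] at hY ⊢
  obtain ⟨⟨c, hc⟩, hY⟩ := hY
  have h1t : X'.transpose * X.transpose = 1 := by
    rw [← Matrix.transpose_mul, h1, Matrix.transpose_one]
  refine ⟨⟨c, ?_⟩, stab_mul_cl (stab_mul_cl hXc hY) hXc'⟩
  have e1 : (X * Y * X').transpose * Matrix.J (Fin g) ℂ =
      m • (X'.transpose * (Y.transpose * Matrix.J (Fin g) ℂ) * X') := by
    calc (X * Y * X').transpose * Matrix.J (Fin g) ℂ
        = X'.transpose * Y.transpose * (X.transpose * Matrix.J (Fin g) ℂ * (X * X')) := by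
          rw [h1, Matrix.mul_one, Matrix.transpose_mul, Matrix.transpose_mul]
          simp only [Matrix.mul_assoc]
      _ = X'.transpose * Y.transpose * ((X.transpose * Matrix.J (Fin g) ℂ * X) * X') := by
          simp only [Matrix.mul_assoc]
      _ = _ := by
          rw [hX, Matrix.smul_mul, Matrix.mul_smul]
          simp only [Matrix.mul_assoc]
  have e2 : Matrix.J (Fin g) ℂ * (X * Y * X') =
      m • (X'.transpose * (Matrix.J (Fin g) ℂ * Y) * X') := by
    calc Matrix.J (Fin g) ℂ * (X * Y * X')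
        = (X'.transpose * X.transpose) * (Matrix.J (Fin g) ℂ * (X * Y * X')) := by
          rw [h1t, Matrix.one_mul]
      _ = X'.transpose * ((X.transpose * Matrix.J (Fin g) ℂ * X) * Y * X') := by
          simp only [Matrix.mul_assoc]
      _ = _ := by
          rw [hX, Matrix.smul_mul, Matrix.smul_mul, Matrix.mul_smul]
          simp only [Matrix.mul_assoc]
  have e3 : m • (X'.transpose * Matrix.J (Fin g) ℂ * X') = Matrix.J (Fin g) ℂ := by
    calc m • (X'.transpose * Matrix.J (Fin g) ℂ * X')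
        = X'.transpose * (m • Matrix.J (Fin g) ℂ) * X' := by
          rw [Matrix.mul_smul, Matrix.smul_mul]
      _ = X'.transpose * (X.transpose * Matrix.J (Fin g) ℂ * X) * X' := by rw [hX]
      _ = (X * X').transpose * Matrix.J (Fin g) ℂ * (X * X') := by
          rw [Matrix.transpose_mul]
          simp only [Matrix.mul_assoc]
      _ = Matrix.J (Fin g) ℂ := by rw [h1, Matrix.transpose_one, Matrix.one_mul, Matrix.mul_one]
  rw [e1, e2, ← smul_add, ← Matrix.add_mul, ← Matrix.mul_add, hc, Matrix.mul_smul,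
    Matrix.smul_mul, smul_comm, e3]

/-- `pl0` as a linear map. -/
private noncomputable def stab_pl0 : Matrix (L2 g) (L2 g) ℂ →ₗ[ℂ] Matrix (IP g) (IP g) ℂ where
  toFun := pl0
  map_add' := pl0_add
  map_smul' := fun c Y => by rw [pl0_smul, RingHom.id_apply]

private lemma stab_diag_gsp {κ' : Type} {cl : L2 g → κ'} {t : L2 g → ℂ} {c : ℂ}
    (ht : ∀ i, t (Sum.inl i) + t (Sum.inr i) = c) : Matrix.diagonal t ∈ gsp cl := by
  rw [mem_gsp]
  refine ⟨⟨c, ?_⟩, fun r s hrs => ?_⟩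
  · ext r s
    rw [Matrix.add_apply, Matrix.diagonal_transpose, Matrix.diagonal_mul, Matrix.mul_diagonal,
      Matrix.smul_apply, smul_eq_mul]
    rcases r with i | i <;> rcases s with j | j
    · rw [J_ll]; ring
    · rw [J_lr]
      split_ifs with h
      · subst h
        have := ht i
        linear_combination (-1 : ℂ) * this
      · ring
    · rw [J_rl]
      split_ifs with h
      · subst h
        have := ht i
        linear_combination this
      · ring
    · rw [J_rr]; ring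
  · apply Matrix.diagonal_apply_ne
    rintro rfl
    exact hrs rfl

private lemma stab_strIrr {𝓜 : Set (Matrix (L2 g) (L2 g) ℂ)} {S S' : Matrix (L2 g) (L2 g) ℂ}
    (h1 : S * S' = 1) (h2 : S' * S = 1) {m m' : ℂ} (hS : SimT col tor m S)
    (hS' : SimT col tor m' S') {c : κ} (hc : c ∉ tor)
    (hirr : StrIrr (fun r => col (pr r)) 𝓜 c) :
    StrIrr (stab_cl col tor) {X | ∃ Z ∈ 𝓜, X = S' * Z * S} (Sum.inl c) := by
  classical
  intro Q hQfin hQ hQM
  have hblk : blk (stab_cl col tor) (Sum.inl c) = blk (fun r => col (pr r)) c := by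
    ext v
    rw [mem_blk, mem_blk]
    simp only [Ne, stab_cl_iff hc]
  have hpres : ∀ (m₁ : ℂ) (X : Matrix (L2 g) (L2 g) ℂ), SimT col tor m₁ X →
      ∀ v ∈ blk (fun r => col (pr r)) c, Matrix.toLin' X v ∈ blk (fun r => col (pr r)) c := by
    intro m₁ X hX v hv
    rw [mem_blk] at hv ⊢
    intro r hr
    rw [Matrix.toLin'_apply, Matrix.mulVec, dotProduct]
    apply Finset.sum_eq_zero
    intro s _
    by_cases hs : col (pr s) = c
    · rw [hX.sim.blk r s (by rw [hs]; exact hr), zero_mul]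
    · rw [hv s hs, mul_zero]
  have hinj : Injective (Matrix.toLin' S) := by
    intro v w hvw
    have h3 := congrArg (Matrix.toLin' S') hvw
    rw [← LinearMap.comp_apply, ← LinearMap.comp_apply, ← Matrix.toLin'_mul, h2,
      Matrix.toLin'_one] at h3
    exact h3
  have hmapblk : (blk (fun r => col (pr r)) c).map (Matrix.toLin' S) =
      blk (fun r => col (pr r)) c := by
    apply le_antisymm
    · rintro _ ⟨v, hv, rfl⟩
      exact hpres m S hS v hv
    · intro v hv
      refine ⟨Matrix.toLin' S' v, hpres m' S' hS' v hv, ?_⟩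
      rw [← LinearMap.comp_apply, ← Matrix.toLin'_mul, h1, Matrix.toLin'_one]
      rfl
  have hkey := hirr ((fun P : Submodule ℂ (L2 g → ℂ) => P.map (Matrix.toLin' S)) '' Q)
    (hQfin.image _) (by
      rintro _ ⟨P, hP, rfl⟩
      obtain ⟨hP1, hP2⟩ := hQ P hP
      refine ⟨?_, ?_⟩
      · intro h0
        apply hP1
        exact Submodule.map_injective_of_injective hinj (h0.trans (Submodule.map_bot _).symm)
      · rw [hblk] at hP2
        have h3 := Submodule.map_strictMono_of_injective hinj hP2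
        rw [hmapblk] at h3
        exact h3) (by
      rintro Z hZ _ ⟨P, hP, rfl⟩
      refine ⟨P.map (Matrix.toLin' (S' * Z * S)), hQM _ ⟨Z, hZ, rfl⟩ P hP, ?_⟩
      simp only
      rw [← Submodule.map_comp, ← Submodule.map_comp, ← Matrix.toLin'_mul, ← Matrix.toLin'_mul,
        ← Matrix.mul_assoc, ← Matrix.mul_assoc, h1, Matrix.one_mul])
  rw [Set.image_eq_empty] at hkey
  exact hkey

theorem stable_of_onePlace (𝓜 : Set (Matrix (L2 g) (L2 g) ℂ))
    (hsim : ∀ X ∈ 𝓜, ∃ c : ℂ, c ≠ 0 ∧ SimT col tor c X)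
    (hirr : ∀ c ∉ tor, StrIrr (fun r => col (pr r)) 𝓜 c)
    {q : ℂ} (hq : 1 < ‖q‖) {M : Matrix (L2 g) (L2 g) ℂ} (hM : M ∈ 𝓜) (hMq : SimT col tor q M)
    {b : L2 g → L2 g → ℂ} {lam : L2 g → ℂ} (hSE : SET col tor M b lam)
    (hmax : ∀ n : L2 g → ℤ, ∏ r, lam r ^ n r = 1 → ∀ i, n (Sum.inl i) = n (Sum.inr i))
    (d : ℕ) (U : Submodule ℂ (Ten (Fin d) (IP g)))
    (hU : ∀ X ∈ 𝓜, ∀ u ∈ U, rho Finset.univ (pl X) u ∈ U) :
    ∀ X, (∃ c : ℂ, c ≠ 0 ∧ SimT col tor c X) → ∀ u ∈ U, rho Finset.univ (pl X) u ∈ U := by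
  classical
  -- the base change
  set S := SE.mat b with hSdef
  have hS : SimT col tor 1 S := by
    refine ⟨hSE.se.sim, fun r s hrs hr => ?_⟩
    by_cases h : col (pr r) = col (pr s)
    · exact hSE.tor s r hrs (h ▸ hr)
    · exact hSE.se.sim.blk r s h
  obtain ⟨S', hSS', hS'S, hS'⟩ := SimT.inv' one_ne_zero hS
  rw [inv_one] at hS'
  have hA : ∀ (X Z : Matrix (L2 g) (L2 g) ℂ) (u : Ten (Fin d) (IP g)),
      rho Finset.univ (pl (X * Z)) u = rho Finset.univ (pl X) (rho Finset.univ (pl Z) u) := by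
    intro X Z u
    rw [pl_mul, rho_mul]
    rfl
  have hA1 : ∀ u : Ten (Fin d) (IP g),
      rho Finset.univ (pl (1 : Matrix (L2 g) (L2 g) ℂ)) u = u := by
    intro u
    rw [pl_one, rho_one]
    rfl
  set U' : Submodule ℂ (Ten (Fin d) (IP g)) := U.map (rho Finset.univ (pl S')) with hU'def
  have hU' : ∀ Z ∈ 𝓜, ∀ u ∈ U', rho Finset.univ (pl (S' * Z * S)) u ∈ U' := by
    rintro Z hZ _ ⟨u, hu, rfl⟩
    rw [← hA, Matrix.mul_assoc, hSS', Matrix.mul_one, hA]
    exact ⟨_, hU Z hZ u hu, rfl⟩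
  have hlam : ∀ i, lam (Sum.inl i) * lam (Sum.inr i) = q := fun i => hSE.se.mul_eq hMq.sim i
  have hdl : S' * M * S = Matrix.diagonal lam := by
    rw [Matrix.mul_assoc, hSdef, hSE.se.mul_mat, ← hSdef, ← Matrix.mul_assoc, hS'S,
      Matrix.one_mul]
  have hUl : ∀ u ∈ U', rho Finset.univ (Matrix.diagonal (plv lam 1)) u ∈ U' := by
    have h1 := hU' M hM
    rw [hdl, pl_diagonal] at h1
    exact h1
  -- the Lie algebra
  set cl := stab_cl col tor with hcl
  set L : Submodule ℂ (Matrix (L2 g) (L2 g) ℂ) := gsp cl ⊓ (LieStab U').comap stab_pl0 with hL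
  have hLm : ∀ Y, Y ∈ L ↔ Y ∈ gsp cl ∧ pl0 Y ∈ LieStab U' := fun Y => Iff.rfl
  have hTL : ∀ t ∈ {t : L2 g → ℂ | ∃ c, ∀ i, t (Sum.inl i) + t (Sum.inr i) = c},
      Matrix.diagonal t ∈ L := by
    rintro t ⟨c, ht⟩
    rw [hLm]
    refine ⟨stab_diag_gsp ht, ?_⟩
    rw [pl0_diagonal]
    exact diag_lieStab hUl (fun x y hxy => word_sum hq hlam hmax ht x y hxy)
  have hbr : ∀ Y ∈ L, ∀ Z ∈ L, Y * Z - Z * Y ∈ L := by
    intro Y hY Z hZ
    rw [hLm] at hY hZ ⊢
    refine ⟨stab_gsp_bracket hY.1 hZ.1, ?_⟩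
    have e : pl0 (Y * Z - Z * Y) = pl0 Y * pl0 Z - pl0 Z * pl0 Y := by
      have := (stab_pl0 (g := g)).map_sub (Y * Z) (Z * Y)
      change pl0 (Y * Z - Z * Y) = pl0 (Y * Z) - pl0 (Z * Y) at this
      rw [this, pl0_mul, pl0_mul]
    rw [e]
    exact lieStab_bracket hY.2 hZ.2
  have hconj : ∀ (m : ℂ) (X X' : Matrix (L2 g) (L2 g) ℂ), m ≠ 0 → SimT col tor m X →
      SimT col tor m⁻¹ X' → X * X' = 1 → X' * X = 1 →
      (∀ u ∈ U', rho Finset.univ (pl X) u ∈ U') → ∀ Y ∈ L, X * Y * X' ∈ L := by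
    intro m X X' hm hX hX' h1 h2 hXU Y hY
    rw [hLm] at hY ⊢
    refine ⟨stab_gsp_conj h1 hX.sim.form (stab_simT_cl hX) (stab_simT_cl hX') hY.1, ?_⟩
    rw [pl0_conj]
    exact lieStab_conj (by rw [← pl_mul, h2, pl_one]) hXU hY.2
  have h𝓜 : ∀ X ∈ {X | ∃ Z ∈ 𝓜, X = S' * Z * S}, (∀ r s, cl r ≠ cl s → X r s = 0) ∧
      ∃ X', X * X' = 1 ∧ X' * X = 1 ∧ (∀ Y ∈ L, X * Y * X' ∈ L) ∧ ∀ Y ∈ L, X' * Y * X ∈ L := by
    rintro _ ⟨Z, hZ, rfl⟩
    obtain ⟨m, hm, hZm⟩ := hsim Z hZ
    have hX : SimT col tor (1 * m * 1) (S' * Z * S) := SimT.mul' (SimT.mul' hS' hZm) hS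
    rw [one_mul, mul_one] at hX
    obtain ⟨X', h1, h2, hX'⟩ := SimT.inv' hm hX
    have hX'' : SimT col tor (m⁻¹)⁻¹ (S' * Z * S) := by rw [inv_inv]; exact hX
    refine ⟨stab_simT_cl hX, X', h1, h2, ?_, ?_⟩
    · exact hconj m _ X' hm hX hX' h1 h2 (hU' Z hZ)
    · exact hconj m⁻¹ X' _ (inv_ne_zero hm) hX' hX'' h2 h1
        (rho_inv_mem (by rw [← pl_mul, h2, pl_one]) (hU' Z hZ))
  have hLg : L ≤ gsp cl := inf_le_left
  have hrt : ∀ c ∉ tor, ∀ r s, r ≠ s → cl r = Sum.inl c → cl s = Sum.inl c → rt r s ∈ L := by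
    intro c hc r s hrs hr hs
    exact root_mem (sep_torus cl) hLg hbr hTL _ h𝓜 (Sum.inl c)
      (stab_strIrr hSS' hS'S hS hS' hc (hirr c hc)) hrs hr hs
  have hrr : ∀ r, rt r r ∈ L := by
    intro r
    obtain ⟨t, ht, hrt'⟩ := rt_self r
    rw [hrt']
    exact hTL t ⟨0, ht⟩
  -- the group
  have hP := gen (col := col) (tor := tor) (fun X => ∀ u ∈ U', rho Finset.univ (pl X) u ∈ U')
    (fun X Z hX hZ u hu => by rw [hA]; exact hX _ (hZ u hu))
    (fun c hc v hv a => by
      have hv' : v ∈ blk cl (Sum.inl c) := by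
        rw [mem_blk]
        intro r hr
        apply hv r
        intro h
        exact hr ((stab_cl_iff hc r).2 h)
      have htv : a • tv v ∈ L := by
        refine L.smul_mem a (tv_mem (cl := cl) (c := Sum.inl c) ?_ (hrt c hc) hrr hv')
        intro r hr
        rw [hcl, stab_cl_iff hc] at hr ⊢
        rw [pr_swap, hr]
      have h3 := ((hLm _).1 htv).2
      have h4 : pl0 (a • tv v) * pl0 (a • tv v) = 0 := by
        rw [← pl0_mul, tv_sq]
        have := (stab_pl0 (g := g)).map_zero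
        exact this
      intro u hu
      have h5 := rho_exp_mem h4 h3 u hu
      rw [← pl_one_add] at h5
      exact h5)
    (fun e m hm he u hu => by
      rw [pl_diagonal]
      exact diag_rho hUl (fun x y hxy => word_prod hq hlam hmax hm he x y hxy) u hu)
  rintro X ⟨c, hc, hX⟩ u hu
  have h1 : SimT col tor (1 * c * 1) (S' * X * S) := SimT.mul' (SimT.mul' hS' hX) hS
  rw [one_mul, mul_one] at h1
  have h2 := hP c _ hc h1 (rho Finset.univ (pl S') u) ⟨u, hu, rfl⟩
  rw [← hA, Matrix.mul_assoc, hSS', Matrix.mul_one, hA] at h2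
  obtain ⟨w, hw, hw2⟩ := h2
  have h3 := congrArg (rho Finset.univ (pl S)) hw2
  rw [← hA, ← hA, hSS', hA1, hA1] at h3
  rw [← h3]
  exact hw

/-- Zariski density from one place. -/
theorem dense_of_onePlace (𝓜 : Set (Matrix (L2 g) (L2 g) ℂ))
    (hsim : ∀ X ∈ 𝓜, ∃ c : ℂ, c ≠ 0 ∧ SimT col tor c X)
    (hirr : ∀ c ∉ tor, StrIrr (fun r => col (pr r)) 𝓜 c)
    {q : ℂ} (hq : 1 < ‖q‖) {M : Matrix (L2 g) (L2 g) ℂ} (hM : M ∈ 𝓜) (hMq : SimT col tor q M)
    {b : L2 g → L2 g → ℂ} {lam : L2 g → ℂ} (hSE : SET col tor M b lam)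
    (hmax : ∀ n : L2 g → ℤ, ∏ r, lam r ^ n r = 1 → ∀ i, n (Sum.inl i) = n (Sum.inr i))
    (f : MvPolynomial (L2 g × L2 g) ℂ)
    (hf : ∀ X ∈ Submonoid.closure 𝓜, MvPolynomial.eval (fun p => X p.1 p.2) f = 0) :
    ∀ (c : ℂ) (X : Matrix (L2 g) (L2 g) ℂ), c ≠ 0 → SimT col tor c X →
      MvPolynomial.eval (fun p => X p.1 p.2) f = 0 := fun c X hc hX =>
  poly_of_stable (fun X => ∃ c : ℂ, c ≠ 0 ∧ SimT col tor c X) 𝓜
    (fun d U hU => stable_of_onePlace 𝓜 hsim hirr hq hM hMq hSE hmax d U hU) f hf X ⟨c, hc, hX⟩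

end Pool.Agent.Helper71.OP
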