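import Pool.Agent.Helper71.OP.Stab
import Pool.Agent.Helper71.OP.Sep2
import Pool.Agent.Helper71.OP.Dia2

/-!
# The one-place criterion with four-term relations (block OP-STAB2)

As in `Stab.lean`, with `T = TLog lam` instead of the full torus: let `S = SE.mat b`, `S'`, `U'`,
`cl`, `L = {Y ∈ gsp cl | pl0 Y ∈ LieStab U'}` as there.
* `diagonal t ∈ L` for `t ∈ TLog lam` (`diag_lieStab`, `word_log`, `pl0_diagonal`; in `gsp` as
  `t (inl i) + t (inr i) = ψ q`), `Sep cl (TLog lam)` is `sep_log` (`cl r = cl s` and `r ≠ s` imply that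
  `r`, `s` are in the same block which is not a torus block).
* So `rt r s ∈ L` for `r ≠ s` in a block `c ∉ tor` (`root_mem`, transport of `hirr` as before).
* `rt r r ∈ L` for `col (pr r) ∉ tor`: `[rt r r.swap, rt r.swap r] = 4 • rt r r`.
* `diagonal t ∈ L` for every `t` with `t (inl i) + t (inr i) = c` constant: by `exists_log` there is a
  logarithm `ψ` with `ψ q = c` and `ψ (lam (inl i)) = t (inl i)` for the `i` with `col i ∈ tor`
  (`htor`); `t - ψ ∘ lam` vanishes on the torus blocks and has constant `0`, so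
  it is a linear combination of the functions of `rt r r`, `col (pr r) ∉ tor`.
* Now as before: `rt r r ∈ L` for all `r`, `tv_mem`, `rho_exp_mem`; `diag_of_lie` for the diagonal
  matrices; `gen`; back to `U`.
-/

set_option autoImplicit false

namespace Pool.Agent.Helper71.OP

open Function Pool.Agent.Helper48.GC8 Pool.Agent.Helper60.GC9

variable {g : ℕ} {κ : Type} [DecidableEq κ] {col : Fin g → κ} {tor : Finset κ}

/-- The classes: the blocks which are not torus blocks, and the single letters of the torus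
blocks. -/
private def stab2_cl (col : Fin g → κ) (tor : Finset κ) (r : L2 g) : κ ⊕ L2 g :=
  if col (pr r) ∈ tor then Sum.inr r else Sum.inl (col (pr r))

private lemma stab2_cl_iff {c : κ} (hc : c ∉ tor) (r : L2 g) :
    stab2_cl col tor r = Sum.inl c ↔ col (pr r) = c := by
  unfold stab2_cl
  split_ifs with h
  · constructor
    · intro h1
      cases h1
    · intro h1
      exact absurd (h1 ▸ h) hc
  · rw [Sum.inl.injEq]

private lemma stab2_simT_cl {c : ℂ} {X : Matrix (L2 g) (L2 g) ℂ} (hX : SimT col tor c X)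
    (r s : L2 g) (h : stab2_cl col tor r ≠ stab2_cl col tor s) : X r s = 0 := by
  have hrs : r ≠ s := by
    rintro rfl
    exact h rfl
  by_cases hr : col (pr r) ∈ tor
  · exact hX.diag r s hrs hr
  · by_cases hs : col (pr s) ∈ tor
    · exact hX.diag' r s hrs hs
    · apply hX.sim.blk r s
      intro h1
      apply h
      unfold stab2_cl
      rw [if_neg hr, if_neg hs, h1]

private lemma stab2_mul_cl {κ' : Type} {cl : L2 g → κ'} {X Z : Matrix (L2 g) (L2 g) ℂ}
    (hX : ∀ r s, cl r ≠ cl s → X r s = 0) (hZ : ∀ r s, cl r ≠ cl s → Z r s = 0) :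
    ∀ r s, cl r ≠ cl s → (X * Z) r s = 0 := by
  intro r s hrs
  rw [Matrix.mul_apply]
  apply Finset.sum_eq_zero
  intro k _
  by_cases h : cl r = cl k
  · rw [hZ k s (h ▸ hrs), mul_zero]
  · rw [hX r k h, zero_mul]

private lemma stab2_gsp_bracket {κ' : Type} {cl : L2 g → κ'} {Y Z : Matrix (L2 g) (L2 g) ℂ}
    (hY : Y ∈ gsp cl) (hZ : Z ∈ gsp cl) : Y * Z - Z * Y ∈ gsp cl := by
  rw [mem_gsp] at hY hZ ⊢
  obtain ⟨⟨c, hc⟩, hY⟩ := hY
  obtain ⟨⟨d, hd⟩, hZ⟩ := hZ
  refine ⟨⟨0, ?_⟩, ?_⟩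
  · have hc' : Y.transpose * Matrix.J (Fin g) ℂ =
        c • Matrix.J (Fin g) ℂ - Matrix.J (Fin g) ℂ * Y := by
      rw [← hc]; abel
    have hd' : Z.transpose * Matrix.J (Fin g) ℂ =
        d • Matrix.J (Fin g) ℂ - Matrix.J (Fin g) ℂ * Z := by
      rw [← hd]; abel
    have e1 : (Y * Z).transpose * Matrix.J (Fin g) ℂ =
        (c * d) • Matrix.J (Fin g) ℂ - c • (Matrix.J (Fin g) ℂ * Z) - d • (Matrix.J (Fin g) ℂ * Y)
          + Matrix.J (Fin g) ℂ * Z * Y := by
      rw [Matrix.transpose_mul, Matrix.mul_assoc, hc', Matrix.mul_sub, Matrix.mul_smul, hd',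
        ← Matrix.mul_assoc, hd', smul_sub, smul_smul, Matrix.sub_mul, Matrix.smul_mul]
      abel
    have e2 : (Z * Y).transpose * Matrix.J (Fin g) ℂ =
        (c * d) • Matrix.J (Fin g) ℂ - c • (Matrix.J (Fin g) ℂ * Z) - d • (Matrix.J (Fin g) ℂ * Y)
          + Matrix.J (Fin g) ℂ * Y * Z := by
      rw [Matrix.transpose_mul, Matrix.mul_assoc, hd', Matrix.mul_sub, Matrix.mul_smul, hc',
        ← Matrix.mul_assoc, hc', smul_sub, smul_smul, Matrix.sub_mul, Matrix.smul_mul,
        mul_comm d c]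
      abel
    rw [Matrix.transpose_sub, Matrix.sub_mul, e1, e2, Matrix.mul_sub, ← Matrix.mul_assoc,
      ← Matrix.mul_assoc, zero_smul]
    abel
  · intro r s hrs
    rw [Matrix.sub_apply, stab2_mul_cl hY hZ r s hrs, stab2_mul_cl hZ hY r s hrs, sub_zero]

private lemma stab2_gsp_conj {κ' : Type} {cl : L2 g → κ'} {m : ℂ}
    {X X' Y : Matrix (L2 g) (L2 g) ℂ} (h1 : X * X' = 1)
    (hX : X.transpose * Matrix.J (Fin g) ℂ * X = m • Matrix.J (Fin g) ℂ)
    (hXc : ∀ r s, cl r ≠ cl s → X r s = 0) (hXc' : ∀ r s, cl r ≠ cl s → X' r s = 0)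
    (hY : Y ∈ gsp cl) : X * Y * X' ∈ gsp cl := by
  rw [mem_gsp] at hY ⊢
  obtain ⟨⟨c, hc⟩, hY⟩ := hY
  have h1t : X'.transpose * X.transpose = 1 := by
    rw [← Matrix.transpose_mul, h1, Matrix.transpose_one]
  refine ⟨⟨c, ?_⟩, stab2_mul_cl (stab2_mul_cl hXc hY) hXc'⟩
  have e1 : (X * Y * X').transpose * Matrix.J (Fin g) ℂ =
      m • (X'.transpose * (Y.transpose * Matrix.J (Fin g) ℂ) * X') := by
    calc (X * Y * X').transpose * Matrix.J (Fin g) ℂ
        = X'.transpose * Y.transpose * (X.transpose * Matrix.J (Fin g) ℂ * (X * X')) := by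
          rw [h1, Matrix.mul_one, Matrix.transpose_mul, Matrix.transpose_mul]
          simp only [Matrix.mul_assoc]
      _ = X'.transpose * Y.transpose * ((X.transpose * Matrix.J (Fin g) ℂ * X) * X') := by
          simp only [Matrix.mul_assoc]
      _ = _ := by
          rw [hX, Matrix.smul_mul, Matrix.mul_smul]
          simp only [Matrix.mul_assoc]
  have e2 : Matrix.J (Fin g) ℂ * (X * Y * X') =
      m • (X'.transpose * (Matrix.J (Fin g) ℂ * Y) * X') := by
    calc Matrix.J (Fin g) ℂ * (X * Y * X')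
        = (X'.transpose * X.transpose) * (Matrix.J (Fin g) ℂ * (X * Y * X')) := by
          rw [h1t, Matrix.one_mul]
      _ = X'.transpose * ((X.transpose * Matrix.J (Fin g) ℂ * X) * Y * X') := by
          simp only [Matrix.mul_assoc]
      _ = _ := by
          rw [hX, Matrix.smul_mul, Matrix.smul_mul, Matrix.mul_smul]
          simp only [Matrix.mul_assoc]
  have e3 : m • (X'.transpose * Matrix.J (Fin g) ℂ * X') = Matrix.J (Fin g) ℂ := by
    calc m • (X'.transpose * Matrix.J (Fin g) ℂ * X')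
        = X'.transpose * (m • Matrix.J (Fin g) ℂ) * X' := by
          rw [Matrix.mul_smul, Matrix.smul_mul]
      _ = X'.transpose * (X.transpose * Matrix.J (Fin g) ℂ * X) * X' := by rw [hX]
      _ = (X * X').transpose * Matrix.J (Fin g) ℂ * (X * X') := by
          rw [Matrix.transpose_mul]
          simp only [Matrix.mul_assoc]
      _ = Matrix.J (Fin g) ℂ := by rw [h1, Matrix.transpose_one, Matrix.one_mul, Matrix.mul_one]
  rw [e1, e2, ← smul_add, ← Matrix.add_mul, ← Matrix.mul_add, hc, Matrix.mul_smul,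
    Matrix.smul_mul, smul_comm, e3]

/-- `pl0` as a linear map. -/
private noncomputable def stab2_pl0 : Matrix (L2 g) (L2 g) ℂ →ₗ[ℂ] Matrix (IP g) (IP g) ℂ where
  toFun := pl0
  map_add' := pl0_add
  map_smul' := fun c Y => by rw [pl0_smul, RingHom.id_apply]

private lemma stab2_diag_gsp {κ' : Type} {cl : L2 g → κ'} {t : L2 g → ℂ} {c : ℂ}
    (ht : ∀ i, t (Sum.inl i) + t (Sum.inr i) = c) : Matrix.diagonal t ∈ gsp cl := by
  rw [mem_gsp]
  refine ⟨⟨c, ?_⟩, fun r s hrs => ?_⟩
  · ext r s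
    rw [Matrix.add_apply, Matrix.diagonal_transpose, Matrix.diagonal_mul, Matrix.mul_diagonal,
      Matrix.smul_apply, smul_eq_mul]
    rcases r with i | i <;> rcases s with j | j
    · rw [J_ll]; ring
    · rw [J_lr]
      split_ifs with h
      · subst h
        have := ht i
        linear_combination (-1 : ℂ) * this
      · ring
    · rw [J_rl]
      split_ifs with h
      · subst h
        have := ht i
        linear_combination this
      · ring
    · rw [J_rr]; ring
  · apply Matrix.diagonal_apply_ne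
    rintro rfl
    exact hrs rfl

private lemma stab2_strIrr {𝓜 : Set (Matrix (L2 g) (L2 g) ℂ)} {S S' : Matrix (L2 g) (L2 g) ℂ}
    (h1 : S * S' = 1) (h2 : S' * S = 1) {m m' : ℂ} (hS : SimT col tor m S)
    (hS' : SimT col tor m' S') {c : κ} (hc : c ∉ tor)
    (hirr : StrIrr (fun r => col (pr r)) 𝓜 c) :
    StrIrr (stab2_cl col tor) {X | ∃ Z ∈ 𝓜, X = S' * Z * S} (Sum.inl c) := by
  classical
  intro Q hQfin hQ hQM
  have hblk : blk (stab2_cl col tor) (Sum.inl c) = blk (fun r => col (pr r)) c := by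
    ext v
    rw [mem_blk, mem_blk]
    simp only [Ne, stab2_cl_iff hc]
  have hpres : ∀ (m₁ : ℂ) (X : Matrix (L2 g) (L2 g) ℂ), SimT col tor m₁ X →
      ∀ v ∈ blk (fun r => col (pr r)) c, Matrix.toLin' X v ∈ blk (fun r => col (pr r)) c := by
    intro m₁ X hX v hv
    rw [mem_blk] at hv ⊢
    intro r hr
    rw [Matrix.toLin'_apply, Matrix.mulVec, dotProduct]
    apply Finset.sum_eq_zero
    intro s _
    by_cases hs : col (pr s) = c
    · rw [hX.sim.blk r s (by rw [hs]; exact hr), zero_mul]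
    · rw [hv s hs, mul_zero]
  have hinj : Injective (Matrix.toLin' S) := by
    intro v w hvw
    have h3 := congrArg (Matrix.toLin' S') hvw
    rw [← LinearMap.comp_apply, ← LinearMap.comp_apply, ← Matrix.toLin'_mul, h2,
      Matrix.toLin'_one] at h3
    exact h3
  have hmapblk : (blk (fun r => col (pr r)) c).map (Matrix.toLin' S) =
      blk (fun r => col (pr r)) c := by
    apply le_antisymm
    · rintro _ ⟨v, hv, rfl⟩
      exact hpres m S hS v hv
    · intro v hv
      refine ⟨Matrix.toLin' S' v, hpres m' S' hS' v hv, ?_⟩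
      rw [← LinearMap.comp_apply, ← Matrix.toLin'_mul, h1, Matrix.toLin'_one]
      rfl
  have hkey := hirr ((fun P : Submodule ℂ (L2 g → ℂ) => P.map (Matrix.toLin' S)) '' Q)
    (hQfin.image _) (by
      rintro _ ⟨P, hP, rfl⟩
      obtain ⟨hP1, hP2⟩ := hQ P hP
      refine ⟨?_, ?_⟩
      · intro h0
        apply hP1
        exact Submodule.map_injective_of_injective hinj (h0.trans (Submodule.map_bot _).symm)
      · rw [hblk] at hP2
        have h3 := Submodule.map_strictMono_of_injective hinj hP2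
        rw [hmapblk] at h3
        exact h3) (by
      rintro Z hZ _ ⟨P, hP, rfl⟩
      refine ⟨P.map (Matrix.toLin' (S' * Z * S)), hQM _ ⟨Z, hZ, rfl⟩ P hP, ?_⟩
      simp only
      rw [← Submodule.map_comp, ← Submodule.map_comp, ← Matrix.toLin'_mul, ← Matrix.toLin'_mul,
        ← Matrix.mul_assoc, ← Matrix.mul_assoc, h1, Matrix.one_mul])
  rw [Set.image_eq_empty] at hkey
  exact hkey

private lemma stab2_J_sq (r : L2 g) :
    Matrix.J (Fin g) ℂ r r.swap * Matrix.J (Fin g) ℂ r r.swap = 1 := by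
  rcases r with i | i
  · rw [Sum.swap_inl, J_lr]
    simp
  · rw [Sum.swap_inr, J_rl]
    simp

private lemma stab2_J_anti (r : L2 g) :
    Matrix.J (Fin g) ℂ r.swap r * Matrix.J (Fin g) ℂ r r.swap = -1 := by
  rcases r with i | i
  · rw [Sum.swap_inl, J_lr, J_rl]
    simp
  · rw [Sum.swap_inr, J_rl, J_lr]
    simp

private lemma stab2_rt_self (r : L2 g) :
    rt r r = Matrix.single r r (1 : ℂ) - Matrix.single r.swap r.swap (1 : ℂ) := by
  unfold rt
  rw [stab2_J_anti, neg_one_smul, sub_eq_add_neg]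

private lemma stab2_rt_swap (r : L2 g) :
    rt r r.swap = (2 : ℂ) • Matrix.single r r.swap (1 : ℂ) := by
  unfold rt
  rw [Sum.swap_swap, stab2_J_sq, one_smul, two_smul]

private lemma stab2_rt_bracket (r : L2 g) :
    rt r r.swap * rt r.swap r - rt r.swap r * rt r r.swap = (4 : ℂ) • rt r r := by
  have h := stab2_rt_swap r.swap
  rw [Sum.swap_swap] at h
  rw [stab2_rt_swap, h, stab2_rt_self, Matrix.smul_mul, Matrix.mul_smul, Matrix.smul_mul,
    Matrix.mul_smul, Matrix.single_mul_single_same, Matrix.single_mul_single_same, mul_one,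
    smul_smul, smul_smul, ← smul_sub]
  norm_num

private lemma stab2_log (lam : L2 g → ℂ) (hne : ∀ r, lam r ≠ 0) {q : ℂ} (hq : q ≠ 0)
    (htor : ∀ (n : Fin g → ℤ) (m : ℤ),
      (∏ i, if col i ∈ tor then lam (Sum.inl i) ^ n i else 1) * q ^ m = 1 →
        m = 0 ∧ ∀ i, col i ∈ tor → n i = 0) (t : Fin g → ℂ) (c : ℂ) :
    ∃ ψ, IsLog ψ ∧ ψ q = c ∧ ∀ i, col i ∈ tor → ψ (lam (Sum.inl i)) = t i := by
  classical
  obtain ⟨ψ, hψ, hv⟩ := exists_log (J := Option {i : Fin g // col i ∈ tor})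
    (fun j => j.elim q fun i => lam (Sum.inl i.1)) (by
      intro j
      rcases j with _ | i
      · exact hq
      · exact hne _) (by
      intro k hk
      rw [Fintype.prod_option] at hk
      have h1 : (∏ i : Fin g, if col i ∈ tor then lam (Sum.inl i) ^
          (if h : col i ∈ tor then k (some ⟨i, h⟩) else 0) else 1) =
          ∏ i : {i : Fin g // col i ∈ tor}, lam (Sum.inl i.1) ^ k (some i) := by
        rw [← Fintype.prod_subtype_mul_prod_subtype (fun i : Fin g => col i ∈ tor)]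
        rw [Fintype.prod_congr _ _ (fun i : {i : Fin g // ¬ col i ∈ tor} => if_neg i.2)]
        rw [Finset.prod_const_one, mul_one]
        refine Fintype.prod_congr _ _ fun i => ?_
        rw [if_pos i.2, dif_pos i.2]
      have h2 := htor (fun i => if h : col i ∈ tor then k (some ⟨i, h⟩) else 0) (k none) (by
        rw [h1, mul_comm]
        exact hk)
      funext j
      rcases j with _ | i
      · exact h2.1
      · have h3 := h2.2 i.1 i.2
        simp only [dif_pos i.2] at h3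
        exact h3)
    (fun j => j.elim c fun i => t i.1)
  exact ⟨ψ, hψ, hv none, fun i hi => hv (some ⟨i, hi⟩)⟩

private lemma stab2_diag_sum {t : L2 g → ℂ} (ht : ∀ i, t (Sum.inl i) + t (Sum.inr i) = 0) :
    Matrix.diagonal t = ∑ i, t (Sum.inl i) • rt (Sum.inl i) (Sum.inl i) := by
  classical
  have h : ∀ i : Fin g, rt (Sum.inl i) (Sum.inl i) =
      Matrix.diagonal (fun r : L2 g => if r = Sum.inl i then (1 : ℂ) else
        if r = Sum.inr i then -1 else 0) := by
    intro i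
    rw [stab2_rt_self]
    ext r s
    rw [Matrix.sub_apply, Matrix.single_apply, Matrix.single_apply, Matrix.diagonal_apply,
      Sum.swap_inl]
    by_cases hrs : r = s
    · subst hrs
      rw [if_pos rfl]
      by_cases h1 : r = Sum.inl i
      · subst h1
        simp
      · by_cases h2 : r = Sum.inr i
        · subst h2
          simp
        · simp [h1, h2, Ne.symm h1, Ne.symm h2]
    · rw [if_neg hrs, if_neg, if_neg, sub_zero]
      · rintro ⟨h1, h2⟩
        exact hrs (h1.symm.trans h2)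
      · rintro ⟨h1, h2⟩
        exact hrs (h1.symm.trans h2)
  ext r s
  rw [Matrix.sum_apply]
  simp only [h, Matrix.smul_apply, smul_eq_mul, Matrix.diagonal_apply]
  by_cases hrs : r = s
  · subst hrs
    simp only [if_true]
    rcases r with j | j
    · rw [Finset.sum_eq_single j]
      · simp
      · intro i _ hi
        have h1 : (Sum.inl j : L2 g) ≠ Sum.inl i := fun e => hi (Sum.inl_injective e).symm
        simp [h1]
      · intro h1
        exact absurd (Finset.mem_univ _) h1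
    · rw [Finset.sum_eq_single j]
      · simp
        linear_combination ht j
      · intro i _ hi
        have h1 : (Sum.inr j : L2 g) ≠ Sum.inr i := fun e => hi (Sum.inr_injective e).symm
        simp [h1]
      · intro h1
        exact absurd (Finset.mem_univ _) h1
  · simp [hrs]

theorem stable_of_sidon (𝓜 : Set (Matrix (L2 g) (L2 g) ℂ))
    (hsim : ∀ X ∈ 𝓜, ∃ c : ℂ, c ≠ 0 ∧ SimT col tor c X)
    (hirr : ∀ c ∉ tor, StrIrr (fun r => col (pr r)) 𝓜 c)
    {q : ℂ} (hq : q ≠ 0) {M : Matrix (L2 g) (L2 g) ℂ} (hM : M ∈ 𝓜) (hMq : SimT col tor q M)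
    {b : L2 g → L2 g → ℂ} {lam : L2 g → ℂ} (hSE : SET col tor M b lam)
    (hsid : ∀ r s r' s' : L2 g, col (pr r) ∉ tor → col (pr r') ∉ tor →
      col (pr r) = col (pr s) → col (pr r') = col (pr s') → r ≠ s → r' ≠ s' →
      ∀ k : ℕ, 0 < k → (lam r' * lam s) ^ k = (lam s' * lam r) ^ k →
        (r' = r ∧ s' = s) ∨ (r' = s.swap ∧ s' = r.swap))
    (htor : ∀ (n : Fin g → ℤ) (m : ℤ),
      (∏ i, if col i ∈ tor then lam (Sum.inl i) ^ n i else 1) * q ^ m = 1 →
        m = 0 ∧ ∀ i, col i ∈ tor → n i = 0)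
    (d : ℕ) (U : Submodule ℂ (Ten (Fin d) (IP g)))
    (hU : ∀ X ∈ 𝓜, ∀ u ∈ U, rho Finset.univ (pl X) u ∈ U) :
    ∀ X, (∃ c : ℂ, c ≠ 0 ∧ SimT col tor c X) → ∀ u ∈ U, rho Finset.univ (pl X) u ∈ U := by
  classical
  -- the base change
  set S := SE.mat b with hSdef
  have hS : SimT col tor 1 S := by
    refine ⟨hSE.se.sim, fun r s hrs hr => ?_⟩
    by_cases h : col (pr r) = col (pr s)
    · exact hSE.tor s r hrs (h ▸ hr)
    · exact hSE.se.sim.blk r s h
  obtain ⟨S', hSS', hS'S, hS'⟩ := SimT.inv' one_ne_zero hS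
  rw [inv_one] at hS'
  have hA : ∀ (X Z : Matrix (L2 g) (L2 g) ℂ) (u : Ten (Fin d) (IP g)),
      rho Finset.univ (pl (X * Z)) u = rho Finset.univ (pl X) (rho Finset.univ (pl Z) u) := by
    intro X Z u
    rw [pl_mul, rho_mul]
    rfl
  have hA1 : ∀ u : Ten (Fin d) (IP g),
      rho Finset.univ (pl (1 : Matrix (L2 g) (L2 g) ℂ)) u = u := by
    intro u
    rw [pl_one, rho_one]
    rfl
  set U' : Submodule ℂ (Ten (Fin d) (IP g)) := U.map (rho Finset.univ (pl S')) with hU'def
  have hU' : ∀ Z ∈ 𝓜, ∀ u ∈ U', rho Finset.univ (pl (S' * Z * S)) u ∈ U' := by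
    rintro Z hZ _ ⟨u, hu, rfl⟩
    rw [← hA, Matrix.mul_assoc, hSS', Matrix.mul_one, hA]
    exact ⟨_, hU Z hZ u hu, rfl⟩
  have hlam : ∀ i, lam (Sum.inl i) * lam (Sum.inr i) = q := fun i => hSE.se.mul_eq hMq.sim i
  have hdl : S' * M * S = Matrix.diagonal lam := by
    rw [Matrix.mul_assoc, hSdef, hSE.se.mul_mat, ← hSdef, ← Matrix.mul_assoc, hS'S,
      Matrix.one_mul]
  have hUl : ∀ u ∈ U', rho Finset.univ (Matrix.diagonal (plv lam 1)) u ∈ U' := by
    have h1 := hU' M hM
    rw [hdl, pl_diagonal] at h1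
    exact h1
  -- the Lie algebra
  set cl := stab2_cl col tor with hcl
  set L : Submodule ℂ (Matrix (L2 g) (L2 g) ℂ) := gsp cl ⊓ (LieStab U').comap stab2_pl0 with hL
  have hLm : ∀ Y, Y ∈ L ↔ Y ∈ gsp cl ∧ pl0 Y ∈ LieStab U' := fun Y => Iff.rfl
  have hne : ∀ r, lam r ≠ 0 := by
    intro r h0
    rcases r with i | i
    · have := hlam i
      rw [h0, zero_mul] at this
      exact hq this.symm
    · have := hlam i
      rw [h0, mul_zero] at this
      exact hq this.symm
  have hTL : ∀ t ∈ TLog lam, Matrix.diagonal t ∈ L := by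
    intro t ht
    rw [hLm]
    have ht' := ht
    obtain ⟨ψ, hψ, htψ⟩ := ht'
    refine ⟨stab2_diag_gsp (c := ψ q) (fun i => ?_), ?_⟩
    · rw [htψ, htψ, ← hψ _ _ (hne _) (hne _), hlam]
    · rw [pl0_diagonal]
      exact diag_lieStab hUl (fun x y hxy => word_log hne ht x y hxy)
  have hSid : Sidon cl lam := by
    intro r s r' s' hrs hrs' hne1 hne2 k hk hpow
    have key : ∀ a b : L2 g, cl a = cl b → a ≠ b → col (pr a) ∉ tor ∧ col (pr a) = col (pr b) := by
      intro a b hab hne3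
      have ha : col (pr a) ∉ tor := by
        intro ha
        rw [hcl] at hab
        unfold stab2_cl at hab
        rw [if_pos ha] at hab
        split_ifs at hab with hb
        exact hne3 (Sum.inr_injective hab)
      refine ⟨ha, ?_⟩
      have h1 : cl a = Sum.inl (col (pr a)) := (stab2_cl_iff ha a).2 rfl
      rw [h1] at hab
      exact ((stab2_cl_iff ha b).1 hab.symm).symm
    obtain ⟨h1, h2⟩ := key r s hrs hne1
    obtain ⟨h3, h4⟩ := key r' s' hrs' hne2
    exact hsid r s r' s' h1 h3 h2 h4 hne1 hne2 k hk hpow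
  have hbr : ∀ Y ∈ L, ∀ Z ∈ L, Y * Z - Z * Y ∈ L := by
    intro Y hY Z hZ
    rw [hLm] at hY hZ ⊢
    refine ⟨stab2_gsp_bracket hY.1 hZ.1, ?_⟩
    have e : pl0 (Y * Z - Z * Y) = pl0 Y * pl0 Z - pl0 Z * pl0 Y := by
      have := (stab2_pl0 (g := g)).map_sub (Y * Z) (Z * Y)
      change pl0 (Y * Z - Z * Y) = pl0 (Y * Z) - pl0 (Z * Y) at this
      rw [this, pl0_mul, pl0_mul]
    rw [e]
    exact lieStab_bracket hY.2 hZ.2
  have hconj : ∀ (m : ℂ) (X X' : Matrix (L2 g) (L2 g) ℂ), m ≠ 0 → SimT col tor m X →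
      SimT col tor m⁻¹ X' → X * X' = 1 → X' * X = 1 →
      (∀ u ∈ U', rho Finset.univ (pl X) u ∈ U') → ∀ Y ∈ L, X * Y * X' ∈ L := by
    intro m X X' hm hX hX' h1 h2 hXU Y hY
    rw [hLm] at hY ⊢
    refine ⟨stab2_gsp_conj h1 hX.sim.form (stab2_simT_cl hX) (stab2_simT_cl hX') hY.1, ?_⟩
    rw [pl0_conj]
    exact lieStab_conj (by rw [← pl_mul, h2, pl_one]) hXU hY.2
  have h𝓜 : ∀ X ∈ {X | ∃ Z ∈ 𝓜, X = S' * Z * S}, (∀ r s, cl r ≠ cl s → X r s = 0) ∧
      ∃ X', X * X' = 1 ∧ X' * X = 1 ∧ (∀ Y ∈ L, X * Y * X' ∈ L) ∧ ∀ Y ∈ L, X' * Y * X ∈ L := by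
    rintro _ ⟨Z, hZ, rfl⟩
    obtain ⟨m, hm, hZm⟩ := hsim Z hZ
    have hX : SimT col tor (1 * m * 1) (S' * Z * S) := SimT.mul' (SimT.mul' hS' hZm) hS
    rw [one_mul, mul_one] at hX
    obtain ⟨X', h1, h2, hX'⟩ := SimT.inv' hm hX
    have hX'' : SimT col tor (m⁻¹)⁻¹ (S' * Z * S) := by rw [inv_inv]; exact hX
    refine ⟨stab2_simT_cl hX, X', h1, h2, ?_, ?_⟩
    · exact hconj m _ X' hm hX hX' h1 h2 (hU' Z hZ)
    · exact hconj m⁻¹ X' _ (inv_ne_zero hm) hX' hX'' h2 h1
        (rho_inv_mem (by rw [← pl_mul, h2, pl_one]) (hU' Z hZ))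
  have hLg : L ≤ gsp cl := inf_le_left
  have hrt : ∀ c ∉ tor, ∀ r s, r ≠ s → cl r = Sum.inl c → cl s = Sum.inl c → rt r s ∈ L := by
    intro c hc r s hrs hr hs
    exact root_mem (sep_log hne hSid) hLg hbr hTL _ h𝓜 (Sum.inl c)
      (stab2_strIrr hSS' hS'S hS hS' hc (hirr c hc)) hrs hr hs
  have hrr0 : ∀ r, col (pr r) ∉ tor → rt r r ∈ L := by
    intro r hr
    have hcr : cl r = Sum.inl (col (pr r)) := (stab2_cl_iff hr r).2 rfl
    have hcs : cl r.swap = Sum.inl (col (pr r)) := (stab2_cl_iff hr r.swap).2 (by rw [pr_swap])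
    have hrs : r ≠ r.swap := by
      rcases r with i | i
      · rw [Sum.swap_inl]; exact Sum.inl_ne_inr
      · rw [Sum.swap_inr]; exact Sum.inr_ne_inl
    have h1 := hbr _ (hrt _ hr r r.swap hrs hcr hcs) _ (hrt _ hr r.swap r hrs.symm hcs hcr)
    rw [stab2_rt_bracket] at h1
    have h2 := L.smul_mem (4 : ℂ)⁻¹ h1
    rw [smul_smul, inv_mul_cancel₀ (by norm_num : (4 : ℂ) ≠ 0), one_smul] at h2
    exact h2
  have hdiag : ∀ t : L2 g → ℂ, (∃ c, ∀ i, t (Sum.inl i) + t (Sum.inr i) = c) →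
      Matrix.diagonal t ∈ L := by
    rintro t ⟨c, ht⟩
    obtain ⟨ψ, hψ, hψq, hψt⟩ := stab2_log (col := col) (tor := tor) lam hne hq htor
      (fun i => t (Sum.inl i)) c
    have h1 : Matrix.diagonal (fun r => ψ (lam r)) ∈ L := hTL _ ⟨ψ, hψ, fun r => rfl⟩
    have hψs : ∀ i, ψ (lam (Sum.inl i)) + ψ (lam (Sum.inr i)) = c := by
      intro i
      rw [← hψ _ _ (hne _) (hne _), hlam, hψq]
    have h2 : Matrix.diagonal (fun r => t r - ψ (lam r)) ∈ L := by
      rw [stab2_diag_sum (t := fun r => t r - ψ (lam r))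
        (fun i => by linear_combination ht i - hψs i)]
      refine L.sum_mem fun i _ => ?_
      by_cases hi : col i ∈ tor
      · rw [hψt i hi, sub_self, zero_smul]
        exact L.zero_mem
      · exact L.smul_mem _ (hrr0 (Sum.inl i) hi)
    have h3 : Matrix.diagonal t = Matrix.diagonal (fun r => ψ (lam r)) +
        Matrix.diagonal (fun r => t r - ψ (lam r)) := by
      rw [Matrix.diagonal_add]
      congr 1
      funext r
      ring
    rw [h3]
    exact L.add_mem h1 h2
  have hrr : ∀ r, rt r r ∈ L := by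
    intro r
    obtain ⟨t, ht, hrt'⟩ := rt_self r
    rw [hrt']
    exact hdiag t ⟨0, ht⟩
  -- the group
  have hP := gen (col := col) (tor := tor) (fun X => ∀ u ∈ U', rho Finset.univ (pl X) u ∈ U')
    (fun X Z hX hZ u hu => by rw [hA]; exact hX _ (hZ u hu))
    (fun c hc v hv a => by
      have hv' : v ∈ blk cl (Sum.inl c) := by
        rw [mem_blk]
        intro r hr
        apply hv r
        intro h
        exact hr ((stab2_cl_iff hc r).2 h)
      have htv : a • tv v ∈ L := by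
        refine L.smul_mem a (tv_mem (cl := cl) (c := Sum.inl c) ?_ (hrt c hc) hrr hv')
        intro r hr
        rw [hcl, stab2_cl_iff hc] at hr ⊢
        rw [pr_swap, hr]
      have h3 := ((hLm _).1 htv).2
      have h4 : pl0 (a • tv v) * pl0 (a • tv v) = 0 := by
        rw [← pl0_mul, tv_sq]
        have := (stab2_pl0 (g := g)).map_zero
        exact this
      intro u hu
      have h5 := rho_exp_mem h4 h3 u hu
      rw [← pl_one_add] at h5
      exact h5)
    (fun e m hm he u hu => by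
      rw [pl_diagonal]
      exact diag_of_lie (fun t ht => by
        have h3 := ((hLm _).1 (hdiag t ht)).2
        rw [pl0_diagonal] at h3
        exact h3) hm he u hu)
  rintro X ⟨c, hc, hX⟩ u hu
  have h1 : SimT col tor (1 * c * 1) (S' * X * S) := SimT.mul' (SimT.mul' hS' hX) hS
  rw [one_mul, mul_one] at h1
  have h2 := hP c _ hc h1 (rho Finset.univ (pl S') u) ⟨u, hu, rfl⟩
  rw [← hA, Matrix.mul_assoc, hSS', Matrix.mul_one, hA] at h2
  obtain ⟨w, hw, hw2⟩ := h2
  have h3 := congrArg (rho Finset.univ (pl S)) hw2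
  rw [← hA, ← hA, hSS', hA1, hA1] at h3
  rw [← h3]
  exact hw


/-- Zariski density from one place without nontrivial four-term relations. -/
theorem dense_of_sidon (𝓜 : Set (Matrix (L2 g) (L2 g) ℂ))
    (hsim : ∀ X ∈ 𝓜, ∃ c : ℂ, c ≠ 0 ∧ SimT col tor c X)
    (hirr : ∀ c ∉ tor, StrIrr (fun r => col (pr r)) 𝓜 c)
    {q : ℂ} (hq : q ≠ 0) {M : Matrix (L2 g) (L2 g) ℂ} (hM : M ∈ 𝓜) (hMq : SimT col tor q M)
    {b : L2 g → L2 g → ℂ} {lam : L2 g → ℂ} (hSE : SET col tor M b lam)
    (hsid : ∀ r s r' s' : L2 g, col (pr r) ∉ tor → col (pr r') ∉ tor →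
      col (pr r) = col (pr s) → col (pr r') = col (pr s') → r ≠ s → r' ≠ s' →
      ∀ k : ℕ, 0 < k → (lam r' * lam s) ^ k = (lam s' * lam r) ^ k →
        (r' = r ∧ s' = s) ∨ (r' = s.swap ∧ s' = r.swap))
    (htor : ∀ (n : Fin g → ℤ) (m : ℤ),
      (∏ i, if col i ∈ tor then lam (Sum.inl i) ^ n i else 1) * q ^ m = 1 →
        m = 0 ∧ ∀ i, col i ∈ tor → n i = 0)
    (f : MvPolynomial (L2 g × L2 g) ℂ)
    (hf : ∀ X ∈ Submonoid.closure 𝓜, MvPolynomial.eval (fun p => X p.1 p.2) f = 0) :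
    ∀ (c : ℂ) (X : Matrix (L2 g) (L2 g) ℂ), c ≠ 0 → SimT col tor c X →
      MvPolynomial.eval (fun p => X p.1 p.2) f = 0 := fun c X hc hX =>
  poly_of_stable (fun X => ∃ c : ℂ, c ≠ 0 ∧ SimT col tor c X) 𝓜
    (fun d U hU => stable_of_sidon 𝓜 hsim hirr hq hM hMq hSE hsid htor d U hU) f hf X ⟨c, hc, hX⟩

end Pool.Agent.Helper71.OP
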